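import Pool.Agent.H44.PF.Basic

/-!
MODULE InvReg (about 110 lines).  Regularity of inverses up to the boundary (paper F2).
PROOF.  `g` has the derivative `(fderivWithin f s (g w)).inverse` within `t` at `w`: `HasFDerivWithinAt.of_local_left_inverse`
with `hg : Tendsto g (𝓝[t] w) (𝓝[s] (g w))` (continuity and `MapsTo`).  Then by induction on `k ≤ m`: `g` is `C^k` on `t`: for `k+1` use
`contDiffOn_succ_iff_fderivWithin`: `fderivWithin g t = inverse ∘ (fderivWithin f s) ∘ g` on `t`, `fderivWithin f s` is `C^k` on `s`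
(`ContDiffOn.fderivWithin` or the same iff), `g` is `C^k` on `t` by induction,
`ContinuousLinearMap.inverse` is `C^k` at invertible maps (`contDiffAt_map_inverse`).
-/

set_option autoImplicit false

open Set Filter

open scoped ContDiff

namespace Pool.H44.PF

variable {E F : Type} [NormedAddCommGroup E] [NormedSpace ℝ E] [CompleteSpace E]
  [NormedAddCommGroup F] [NormedSpace ℝ F]

theorem hasFDerivWithinAt_inverse {s : Set E} {t : Set F} {f : E → F} {g : F → E}
    (hf : DifferentiableOn ℝ f s) (mg : MapsTo g t s) (fg : ∀ w ∈ t, f (g w) = w)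
    (hg : ContinuousOn g t) (hinv : ∀ z ∈ s, (fderivWithin ℝ f s z).IsInvertible)
    (w : F) (hw : w ∈ t) :
    HasFDerivWithinAt g (fderivWithin ℝ f s (g w)).inverse t w := by
  obtain ⟨A, hA⟩ := hinv (g w) (mg hw)
  have h1 : HasFDerivWithinAt f (A : E →L[ℝ] F) s (g w) := by
    rw [hA]
    exact (hf (g w) (mg hw)).hasFDerivWithinAt
  rw [← hA, ContinuousLinearMap.inverse_equiv]
  refine HasFDerivWithinAt.of_local_left_inverse ?_ h1 hw ?_
  · exact tendsto_nhdsWithin_iff.2 ⟨hg w hw, eventually_nhdsWithin_of_forall mg⟩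
  · exact eventually_nhdsWithin_of_forall fg

theorem contDiffOn_inverse {s : Set E} {t : Set F} (hs : UniqueDiffOn ℝ s)
    (ht : UniqueDiffOn ℝ t) {f : E → F} {g : F → E} {m : ℕ} (hm : 1 ≤ m)
    (hf : ContDiffOn ℝ m f s) (mg : MapsTo g t s) (fg : ∀ w ∈ t, f (g w) = w)
    (hg : ContinuousOn g t) (hinv : ∀ z ∈ s, (fderivWithin ℝ f s z).IsInvertible) :
    ContDiffOn ℝ m g t := by
  have hd : DifferentiableOn ℝ f s := hf.differentiableOn (by
    have : m ≠ 0 := by omega
    exact_mod_cast this)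
  have key : ∀ k : ℕ, k ≤ m → ContDiffOn ℝ k g t := by
    intro k
    induction k with
    | zero =>
      intro _
      exact contDiffOn_zero.2 hg
    | succ k ih =>
      intro hk
      have hk' := ih (by omega)
      have hD : ∀ w ∈ t, HasFDerivWithinAt g (fderivWithin ℝ f s (g w)).inverse t w :=
        fun w hw => hasFDerivWithinAt_inverse hd mg fg hg hinv w hw
      have h1 : ContDiffOn ℝ k (fderivWithin ℝ f s) s :=
        hf.fderivWithin hs (by exact_mod_cast hk)
      have h2 : ContDiffOn ℝ k (fun w => (fderivWithin ℝ f s (g w)).inverse) t := by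
        intro w hw
        exact ((hinv (g w) (mg hw)).contDiffAt_map_inverse).comp_contDiffWithinAt w
          ((h1.comp hk' mg) w hw)
      have h3 : ContDiffOn ℝ (k + 1) g t := by
        rw [contDiffOn_succ_iff_fderivWithin ht]
        refine ⟨fun w hw => (hD w hw).differentiableWithinAt, ?_, ?_⟩
        · intro h
          exact absurd h (by simp)
        · exact h2.congr fun w hw => (hD w hw).fderivWithin (ht w hw)
      exact_mod_cast h3
  exact key m le_rfl

theorem isInvertible_of_det (A : ℂ →L[ℝ] ℂ) (h : A.det ≠ 0) : A.IsInvertible :=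
  ⟨A.toContinuousLinearEquivOfDetNeZero h,
    ContinuousLinearMap.coe_toContinuousLinearEquivOfDetNeZero A h⟩

theorem InvPair.continuousOn_right {f g : ℂ → ℂ} (h : InvPair f g)
    (hf : ContinuousOn f D) : ContinuousOn g D := by
  rw [continuousOn_iff_isClosed]
  intro K hK
  have hc : IsCompact (f '' (K ∩ D)) :=
    (D_compact.inter_left hK).image_of_continuousOn (hf.mono inter_subset_right)
  refine ⟨f '' (K ∩ D), hc.isClosed, ?_⟩
  ext w
  constructor
  · rintro ⟨h1, h2⟩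
    exact ⟨⟨g w, ⟨h1, h.mg h2⟩, h.fg w h2⟩, h2⟩
  · rintro ⟨⟨z, ⟨hz1, hz2⟩, rfl⟩, h2⟩
    refine ⟨?_, h2⟩
    change g (f z) ∈ K
    rw [h.gf z hz2]
    exact hz1

theorem InvPair.contDiffOn_right {f g : ℂ → ℂ} (h : InvPair f g) {m : ℕ} (hm : 1 ≤ m)
    (hf : ContDiffOn ℝ m f D) (hd : ∀ z ∈ D, dt f z ≠ 0) : ContDiffOn ℝ m g D :=
  contDiffOn_inverse D_unique D_unique hm hf h.mg h.fg (h.continuousOn_right hf.continuousOn)
    fun z hz => isInvertible_of_det _ (hd z hz)

theorem InvPair.fderivWithin_right {f g : ℂ → ℂ} (h : InvPair f g)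
    (hf : ContDiffOn ℝ 1 f D) (hd : ∀ z ∈ D, dt f z ≠ 0) (w : ℂ) (hw : w ∈ D) :
    fderivWithin ℝ g D w = (fderivWithin ℝ f D (g w)).inverse :=
  (hasFDerivWithinAt_inverse (hf.differentiableOn one_ne_zero) h.mg h.fg
    (h.continuousOn_right hf.continuousOn) (fun z hz => isInvertible_of_det _ (hd z hz))
    w hw).fderivWithin (D_unique w hw)

theorem InvPair.dt_right {f g : ℂ → ℂ} (h : InvPair f g)
    (hf : ContDiffOn ℝ 1 f D) (hd : ∀ z ∈ D, dt f z ≠ 0) (w : ℂ) (hw : w ∈ D) :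
    dt g w = (dt f (g w))⁻¹ := by
  unfold dt
  rw [h.fderivWithin_right hf hd w hw]
  obtain ⟨A, hA⟩ := isInvertible_of_det _ (hd (g w) (h.mg hw))
  rw [← hA, ContinuousLinearMap.inverse_equiv]
  refine eq_inv_of_mul_eq_one_left ?_
  have h1 : ((A.symm : ℂ →L[ℝ] ℂ) : ℂ →ₗ[ℝ] ℂ) ∘ₗ ((A : ℂ →L[ℝ] ℂ) : ℂ →ₗ[ℝ] ℂ) =
      LinearMap.id := by
    ext <;> simp
  change LinearMap.det ((A.symm : ℂ →L[ℝ] ℂ) : ℂ →ₗ[ℝ] ℂ) *
    LinearMap.det ((A : ℂ →L[ℝ] ℂ) : ℂ →ₗ[ℝ] ℂ) = 1
  rw [← LinearMap.det_comp, h1, LinearMap.det_id]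

end Pool.H44.PF
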