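import Pool.Agent.H44.PF.Pol

/-!
MODULE KBij (about 160 lines).  `KK ρ` is a bijection of `D` if `∫_D ρ = π` (paper H1).
PROOF.  `N(r) = r^2 MM ρ r` on `[0,1]`: `N(0) = 0`, `N(1) = 1` (`MM_boundary`), `N(t) = ∫_0^t 2 σ rb ρ σ dσ` (`MM_radial` with `z = 1`) is continuous and strictly increasing.
`‖KK ρ z‖^2 = N(‖z‖)` (`norm_KK`, `MM_norm`), so `KK ρ` maps `D` into `D`.
For `0 < r ≤ 1`: `ψ(θ) = θ + uu ρ (r e θ) / (2 π)` has the derivative `1 + rt ρ (r e θ) = ρ/rb > 0` (`uu_deriv`), `ψ(θ+1) = ψ(θ) + 1`, so `ψ` is a strictly increasing bijection of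
`ℝ`, and `KK ρ (r e θ) = sqrt(N r) e (ψ θ)`.  Injective: equal values give equal norms, so equal `r` (if `r = 0` both points are `0`), and
`ψ θ' = ψ θ + k = ψ (θ + k)`, `θ' = θ + k`.  Surjective: intermediate value theorem for `N`, then for `ψ`.
Every `z ∈ D` is `r e θ` with `r = ‖z‖` (`exists_rot`).
-/

set_option autoImplicit false

open Set Filter MeasureTheory

open scoped ContDiff

namespace Pool.H44.PF

/-- the square of the norm of `KK ρ` as a function of the norm -/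
private noncomputable def KBijN (ρ : ℂ → ℝ) (t : ℝ) : ℝ := t ^ 2 * MM ρ ((t : ℂ) * 1)

/-- the angle of `KK ρ (e θ * r)` -/
private noncomputable def KBijPsi (ρ : ℂ → ℝ) (r : ℝ) (θ : ℝ) : ℝ :=
  θ + uu ρ (e θ * (r : ℂ)) / (2 * Real.pi)

private theorem KBij_mem {t : ℝ} (h0 : 0 ≤ t) (h1 : t ≤ 1) : (t : ℂ) ∈ D := by
  rw [mem_closedBall_zero_iff, Complex.norm_real, Real.norm_eq_abs, abs_of_nonneg h0]
  exact h1

private theorem KBij_one_mem : (1 : ℂ) ∈ D := by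
  rw [mem_closedBall_zero_iff, norm_one]

private theorem KBij_MM_cont {ρ : ℂ → ℝ} (hc : ContinuousOn ρ D) : ContinuousOn (MM ρ) D := by
  have h0 : ContDiffOn ℝ ((0 : ℕ) : WithTop ℕ∞) ρ D := by
    rw [Nat.cast_zero]
    exact contDiffOn_zero.mpr hc
  have h : CTend 0 (fun _ : ℕ => ρ) ρ := ctend_const h0
  exact (ctend_MM h).2.1.continuousOn

private theorem KBij_N_cont {ρ : ℂ → ℝ} (hc : ContinuousOn ρ D) :
    ContinuousOn (KBijN ρ) (Icc 0 1) := by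
  refine (continuous_pow 2).continuousOn.mul ?_
  refine (KBij_MM_cont hc).comp ?_ ?_
  · exact (Complex.continuous_ofReal.mul continuous_const).continuousOn
  · intro t ht
    show (t : ℂ) * 1 ∈ D
    rw [mul_one]
    exact KBij_mem ht.1 ht.2

private theorem KBij_N_mono {ρ : ℂ → ℝ} (hc : ContinuousOn ρ D) (hp : ∀ z ∈ D, 0 < ρ z) :
    StrictMonoOn (KBijN ρ) (Icc 0 1) := by
  refine strictMonoOn_of_deriv_pos (convex_Icc 0 1) (KBij_N_cont hc) fun t ht => ?_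
  rw [interior_Icc] at ht
  have h := MM_deriv hc 1 KBij_one_mem t ht.1 ht.2
  have h2 : deriv (KBijN ρ) t = 2 * t * rb ρ ((t : ℂ) * 1) := h.deriv
  rw [h2]
  have h3 : 0 < rb ρ ((t : ℂ) * 1) := rb_pos hc hp _ (by
    rw [mul_one]; exact KBij_mem ht.1.le ht.2.le)
  have := ht.1
  positivity

private theorem KBij_N_zero (ρ : ℂ → ℝ) : KBijN ρ 0 = 0 := by simp [KBijN]

private theorem KBij_N_one {ρ : ℂ → ℝ} (hc : ContinuousOn ρ D)
    (hi : ∫ z in D, ρ z = Real.pi) : KBijN ρ 1 = 1 := by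
  rw [KBijN, MM_boundary hc hi _ (by simp)]
  norm_num

private theorem KBij_norm {ρ : ℂ → ℝ} (hc : ContinuousOn ρ D) (hp : ∀ z ∈ D, 0 < ρ z) {z : ℂ}
    (hz : z ∈ D) : ‖KK ρ z‖ ^ 2 = KBijN ρ ‖z‖ := by
  rw [norm_KK hc hp z hz, KBijN, mul_one, MM_norm hc hz (w := ((‖z‖ : ℝ) : ℂ)) (by simp)]

private theorem KBij_psi_deriv {ρ : ℂ → ℝ} (hc : ContinuousOn ρ D) (hp : ∀ z ∈ D, 0 < ρ z)
    {r : ℝ} (h0 : 0 ≤ r) (h1 : r ≤ 1) (θ : ℝ) :
    HasDerivAt (KBijPsi ρ r) (ρ (e θ * (r : ℂ)) / rb ρ (e θ * (r : ℂ))) θ := by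
  have h := (hasDerivAt_id θ).add
    ((uu_deriv hc hp (r : ℂ) (KBij_mem h0 h1) θ).div_const (2 * Real.pi))
  have h2 : (1 : ℝ) + 2 * Real.pi * rt ρ (e θ * (r : ℂ)) / (2 * Real.pi)
      = ρ (e θ * (r : ℂ)) / rb ρ (e θ * (r : ℂ)) := by
    rw [mul_div_cancel_left₀ _ (by positivity), rt]
    ring
  rw [← h2]
  exact h

private theorem KBij_rot_mem {r : ℝ} (h0 : 0 ≤ r) (h1 : r ≤ 1) (θ : ℝ) :
    e θ * (r : ℂ) ∈ D := by
  rw [mem_closedBall_zero_iff, norm_mul, norm_e, one_mul, Complex.norm_real, Real.norm_eq_abs,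
    abs_of_nonneg h0]
  exact h1

private theorem KBij_psi_mono {ρ : ℂ → ℝ} (hc : ContinuousOn ρ D) (hp : ∀ z ∈ D, 0 < ρ z)
    {r : ℝ} (h0 : 0 ≤ r) (h1 : r ≤ 1) : StrictMono (KBijPsi ρ r) := by
  refine strictMono_of_deriv_pos fun θ => ?_
  rw [(KBij_psi_deriv hc hp h0 h1 θ).deriv]
  exact div_pos (hp _ (KBij_rot_mem h0 h1 θ)) (rb_pos hc hp _ (KBij_rot_mem h0 h1 θ))

private theorem KBij_e_int (θ : ℝ) (n : ℤ) : e (θ + n) = e θ := by
  rw [e_add, (e_eq_one_iff n).mpr ⟨n, rfl⟩, mul_one]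

private theorem KBij_psi_int (ρ : ℂ → ℝ) (r θ : ℝ) (n : ℤ) :
    KBijPsi ρ r (θ + n) = KBijPsi ρ r θ + n := by
  rw [KBijPsi, KBijPsi, KBij_e_int]
  ring

private theorem KBij_formula {ρ : ℂ → ℝ} (hc : ContinuousOn ρ D) {r : ℝ} (h0 : 0 ≤ r)
    (h1 : r ≤ 1) (θ : ℝ) :
    KK ρ (e θ * (r : ℂ)) = ((r * Real.sqrt (MM ρ (r : ℂ)) : ℝ) : ℂ) * e (KBijPsi ρ r θ) := by
  have hM : MM ρ (e θ * (r : ℂ)) = MM ρ (r : ℂ) :=
    MM_norm hc (KBij_mem h0 h1) (by rw [norm_mul, norm_e, one_mul])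
  have he : e (KBijPsi ρ r θ) = e θ * Complex.exp ((uu ρ (e θ * (r : ℂ)) : ℂ) * Complex.I) := by
    rw [KBijPsi, e_add]
    congr 1
    rw [e]
    congr 2
    have : (2 * Real.pi * (uu ρ (e θ * (r : ℂ)) / (2 * Real.pi)) : ℝ)
        = uu ρ (e θ * (r : ℂ)) := by
      rw [mul_div_cancel₀]
      positivity
    rw [this]
  rw [KK, hM, he]
  push_cast
  ring

theorem KK_bijOn {ρ : ℂ → ℝ} (hc : ContinuousOn ρ D) (hp : ∀ z ∈ D, 0 < ρ z)
    (hi : ∫ z in D, ρ z = Real.pi) : BijOn (KK ρ) D D := by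
  have hmem : ∀ {z : ℂ}, z ∈ D → ‖z‖ ∈ Icc (0 : ℝ) 1 := fun {z} hz =>
    ⟨norm_nonneg z, by simpa using hz⟩
  refine ⟨fun z hz => ?_, fun z hz w hw hzw => ?_, fun y hy => ?_⟩
  · have h1 : ‖KK ρ z‖ ^ 2 ≤ 1 := by
      rw [KBij_norm hc hp hz, ← KBij_N_one hc hi]
      exact (KBij_N_mono hc hp).monotoneOn (hmem hz) ⟨zero_le_one, le_rfl⟩ (hmem hz).2
    rw [mem_closedBall_zero_iff]
    nlinarith [norm_nonneg (KK ρ z)]
  · have h1 : ‖z‖ = ‖w‖ := by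
      apply (KBij_N_mono hc hp).injOn (hmem hz) (hmem hw)
      rw [← KBij_norm hc hp hz, ← KBij_norm hc hp hw, hzw]
    rcases (norm_nonneg z).eq_or_lt with h0 | h0
    · have hz0 : z = 0 := norm_eq_zero.mp h0.symm
      have hw0 : w = 0 := norm_eq_zero.mp (by rw [← h1, ← h0])
      rw [hz0, hw0]
    · obtain ⟨θ, hθ⟩ := exists_rot (z := ((‖z‖ : ℝ) : ℂ)) (w := z) (by simp)
      obtain ⟨θ', hθ'⟩ := exists_rot (z := ((‖z‖ : ℝ) : ℂ)) (w := w) (by simp [h1])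
      have h2 : KK ρ (e θ * ((‖z‖ : ℝ) : ℂ)) = KK ρ (e θ' * ((‖z‖ : ℝ) : ℂ)) := by
        rw [← hθ, ← hθ', hzw]
      rw [KBij_formula hc h0.le (hmem hz).2, KBij_formula hc h0.le (hmem hz).2] at h2
      have hM : 0 < MM ρ ((‖z‖ : ℝ) : ℂ) := MM_pos hc hp _ (KBij_mem h0.le (hmem hz).2)
      have hne : (((‖z‖ * Real.sqrt (MM ρ ((‖z‖ : ℝ) : ℂ)) : ℝ)) : ℂ) ≠ 0 := by
        rw [Complex.ofReal_ne_zero]
        have := Real.sqrt_pos.mpr hM
        positivity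
      have h3 := mul_left_cancel₀ hne h2
      have h4 : e (KBijPsi ρ ‖z‖ θ - KBijPsi ρ ‖z‖ θ') = 1 := by
        have h5 : e (KBijPsi ρ ‖z‖ θ - KBijPsi ρ ‖z‖ θ') * e (KBijPsi ρ ‖z‖ θ')
            = 1 * e (KBijPsi ρ ‖z‖ θ') := by
          rw [← e_add, sub_add_cancel, h3, one_mul]
        refine mul_right_cancel₀ ?_ h5
        rw [← norm_ne_zero_iff, norm_e]
        exact one_ne_zero
      obtain ⟨n, hn⟩ := (e_eq_one_iff _).mp h4
      have h6 : KBijPsi ρ ‖z‖ θ = KBijPsi ρ ‖z‖ (θ' + n) := by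
        rw [KBij_psi_int]; linarith
      have h7 := (KBij_psi_mono hc hp h0.le (hmem hz).2).injective h6
      rw [hθ, hθ', h7, KBij_e_int]
  · rcases (norm_nonneg y).eq_or_lt with h0 | h0
    · refine ⟨0, by simp, ?_⟩
      rw [norm_eq_zero.mp h0.symm]
      simp [KK]
    · have hy1 : ‖y‖ ≤ 1 := (hmem hy).2
      obtain ⟨r, hr, hrN⟩ : ∃ r ∈ Icc (0 : ℝ) 1, KBijN ρ r = ‖y‖ ^ 2 := by
        have h := intermediate_value_Icc zero_le_one (KBij_N_cont hc)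
        have h2 : ‖y‖ ^ 2 ∈ Icc (KBijN ρ 0) (KBijN ρ 1) := by
          rw [KBij_N_zero, KBij_N_one hc hi]
          constructor
          · positivity
          · nlinarith
        exact h h2
      have hr0 : 0 < r := by
        rcases hr.1.eq_or_lt with h | h
        · rw [← h, KBij_N_zero] at hrN
          have : 0 < ‖y‖ ^ 2 := by positivity
          linarith
        · exact h
      obtain ⟨t, ht⟩ := exists_rot (z := 1) (w := y / ((‖y‖ : ℝ) : ℂ)) (by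
        rw [norm_div, Complex.norm_real, norm_norm, div_self h0.ne', norm_one])
      obtain ⟨θ, hθ⟩ : ∃ θ, KBijPsi ρ r θ = t := by
        let k : ℤ := ⌊t - KBijPsi ρ r 0⌋
        have hcont : Continuous (KBijPsi ρ r) := continuous_iff_continuousAt.mpr fun θ =>
          (KBij_psi_deriv hc hp hr.1 hr.2 θ).continuousAt
        have h := intermediate_value_Icc (show (k : ℝ) ≤ k + 1 by linarith)
          hcont.continuousOn
        have h2 : t ∈ Icc (KBijPsi ρ r k) (KBijPsi ρ r (k + 1)) := by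
          have h3 := KBij_psi_int ρ r 0 k
          have h4 := KBij_psi_int ρ r 0 (k + 1)
          rw [zero_add] at h3 h4
          push_cast at h4
          have h5 := Int.floor_le (t - KBijPsi ρ r 0)
          have h6 := Int.lt_floor_add_one (t - KBijPsi ρ r 0)
          rw [h3, h4]
          constructor
          · show KBijPsi ρ r 0 + ((⌊t - KBijPsi ρ r 0⌋ : ℤ) : ℝ) ≤ t
            linarith
          · show t ≤ KBijPsi ρ r 0 + (((⌊t - KBijPsi ρ r 0⌋ : ℤ) : ℝ) + 1)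
            linarith
        obtain ⟨θ, _, hθ⟩ := h h2
        exact ⟨θ, hθ⟩
      refine ⟨e θ * (r : ℂ), KBij_rot_mem hr.1 hr.2 θ, ?_⟩
      rw [KBij_formula hc hr.1 hr.2, hθ]
      have hM : 0 < MM ρ (r : ℂ) := MM_pos hc hp _ (KBij_mem hr.1 hr.2)
      have h8 : r * Real.sqrt (MM ρ (r : ℂ)) = ‖y‖ := by
        have h9 : (r * Real.sqrt (MM ρ (r : ℂ))) ^ 2 = ‖y‖ ^ 2 := by
          rw [mul_pow, Real.sq_sqrt hM.le, ← hrN, KBijN, mul_one]
        have h10 : 0 ≤ r * Real.sqrt (MM ρ (r : ℂ)) := by positivity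
        exact (sq_eq_sq₀ h10 (norm_nonneg y)).mp h9
      rw [h8]
      rw [mul_one] at ht
      rw [← ht, mul_div_cancel₀]
      exact_mod_cast h0.ne'

theorem invPair_of_bijOn {f : ℂ → ℂ} (h : BijOn f D D) : ∃ g : ℂ → ℂ, InvPair f g := by
  have h2 := h.invOn_invFunOn
  refine ⟨Function.invFunOn f D, h.mapsTo, h.surjOn.mapsTo_invFunOn, fun z hz => h2.1 hz,
    fun z hz => h2.2 hz⟩

end Pool.H44.PF
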