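import Pool.Agent.H44.PF.Rad

/-!
MODULE KDet (about 140 lines).  `det D(KK ρ) = ρ` (paper H1).
PROOF.  `KK ρ` is `C^1` on `D` (`ctend_KK` for a constant sequence), `dt (KK ρ)` and `ρ` are continuous on `D`, so it is enough to treat
`0 < ‖z‖ < 1` (this set is dense in `D`).  Let `A = fderivWithin (KK ρ) D z`; `D` is a neighbourhood of `z`.
Angular: `θ ↦ KK ρ (e θ z) = e θ z sqrt(MM ρ z) exp(i uu ρ (e θ z))` (`MM_norm`), derivative at `0`: `A (2 π i z) = 2 π i KK ρ z (1 + rt ρ z)` (`uu_deriv`), so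
`A (i z) = i (ρ z / rb ρ z) KK ρ z`.
Radial: `t ↦ KK ρ (t z)` has the derivative `A z` at `t = 1`, and `|KK ρ (t z)|^2 = t^2 |z|^2 MM ρ (t z)`; its derivative at `t = 1` is `2 |z|^2 rb ρ z`
(`MM_deriv` for a point `z / t0` with `|z| < t0 < 1`, or directly) and also `2 Re (conj (KK ρ z) A z)`.
So `Re(conj(K) A z) = |z|^2 rb`.  With `om(a,b) = Im(conj a b)`: `om(A z, A (i z)) = (det A) |z|^2` (`det_formula`), and `A (iz) = i c K`, `c = ρ/rb`:
`om(A z, i c K) = c Re(conj(A z) K) = c |z|^2 rb = |z|^2 ρ`.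
-/

set_option autoImplicit false

open Set Filter MeasureTheory

open scoped ContDiff

namespace Pool.H44.PF

theorem om_det (A : ℂ →L[ℝ] ℂ) (z : ℂ) :
    ((starRingEnd ℂ) (A z) * A (Complex.I * z)).im = A.det * ‖z‖ ^ 2 := by
  have h1 : A z = (z.re : ℂ) * A 1 + (z.im : ℂ) * A Complex.I := by
    have : z = z.re • (1 : ℂ) + z.im • Complex.I := by
      apply Complex.ext <;> simp
    conv_lhs => rw [this]
    rw [map_add, map_smul, map_smul, Complex.real_smul, Complex.real_smul]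
  have h2 : A (Complex.I * z) = (-z.im : ℂ) * A 1 + (z.re : ℂ) * A Complex.I := by
    have : Complex.I * z = (-z.im) • (1 : ℂ) + z.re • Complex.I := by
      apply Complex.ext <;> simp
    rw [this, map_add, map_smul, map_smul, Complex.real_smul, Complex.real_smul]
    push_cast; ring
  rw [h1, h2, det_formula, Complex.sq_norm, Complex.normSq_apply]
  simp only [map_add, map_mul, Complex.add_re, Complex.add_im, Complex.mul_re, Complex.mul_im,
    Complex.conj_re, Complex.conj_im, Complex.ofReal_re, Complex.ofReal_im, Complex.neg_re,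
    Complex.neg_im, Complex.conj_ofReal]
  ring

private theorem kdet_contDiff {ρ : ℂ → ℝ} (hc : ContDiffOn ℝ 1 ρ D) (hp : ∀ z ∈ D, 0 < ρ z) :
    CTend 1 (fun _ => KK ρ) (KK ρ) := by
  have hc' : ContDiffOn ℝ ((1 : ℕ) : WithTop ℕ∞) ρ D := by exact_mod_cast hc
  exact ctend_KK (ctend_const hc') (fun _ => hp) hp

private theorem kdet_e0 : e 0 = 1 := by simp [e]

private theorem kdet_angular {ρ : ℂ → ℝ} (hc : ContDiffOn ℝ 1 ρ D) (hp : ∀ z ∈ D, 0 < ρ z)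
    (z : ℂ) (hz : z ∈ D) {A : ℂ →L[ℝ] ℂ} (hA : HasFDerivAt (KK ρ) A z) :
    A (Complex.I * z) = ((ρ z / rb ρ z : ℝ) : ℂ) * (Complex.I * KK ρ z) := by
  have hcc : ContinuousOn ρ D := hc.continuousOn
  have he := hasDerivAt_e 0
  rw [kdet_e0] at he
  have hcurve : HasDerivAt (fun θ : ℝ => e θ * z) (2 * Real.pi * Complex.I * 1 * z) 0 :=
    he.mul_const z
  have hz0 : e 0 * z = z := by rw [kdet_e0, one_mul]
  have hA' : HasFDerivAt (KK ρ) A (e 0 * z) := by rw [hz0]; exact hA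
  have h1 : HasDerivAt (fun θ : ℝ => KK ρ (e θ * z)) (A (2 * Real.pi * Complex.I * 1 * z)) 0 :=
    HasFDerivAt.comp_hasDerivAt (l := KK ρ) (l' := A) (f := fun θ : ℝ => e θ * z) (0 : ℝ) hA'
      hcurve
  have h2 : (fun θ : ℝ => KK ρ (e θ * z)) = fun θ : ℝ =>
      (e θ * z) * ((Real.sqrt (MM ρ z) : ℂ) *
        Complex.exp ((uu ρ (e θ * z) : ℂ) * Complex.I)) := by
    funext θ
    have hn : ‖e θ * z‖ = ‖z‖ := by rw [norm_mul, norm_e, one_mul]
    rw [KK, MM_norm hcc hz hn, mul_assoc]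
  have hu := (uu_deriv hcc hp z hz 0).ofReal_comp
  have h3 : HasDerivAt (fun θ : ℝ =>
      (e θ * z) * ((Real.sqrt (MM ρ z) : ℂ) *
        Complex.exp ((uu ρ (e θ * z) : ℂ) * Complex.I)))
      ((2 * Real.pi * Complex.I * 1 * z) * ((Real.sqrt (MM ρ z) : ℂ) *
        Complex.exp ((uu ρ (e 0 * z) : ℂ) * Complex.I)) +
        (e 0 * z) * ((Real.sqrt (MM ρ z) : ℂ) *
          (Complex.exp ((uu ρ (e 0 * z) : ℂ) * Complex.I) *
            (((2 * Real.pi * rt ρ (e 0 * z) : ℝ) : ℂ) * Complex.I)))) 0 :=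
    hcurve.mul (((hu.mul_const Complex.I).cexp).const_mul _)
  rw [← h2] at h3
  have h4 := h1.unique h3
  rw [hz0] at h4
  have h5 : A (2 * Real.pi * Complex.I * 1 * z) = (2 * Real.pi : ℂ) * A (Complex.I * z) := by
    have : (2 * Real.pi * Complex.I * 1 * z : ℂ) = (2 * Real.pi : ℝ) • (Complex.I * z) := by
      rw [Complex.real_smul]; push_cast; ring
    rw [this, map_smul, Complex.real_smul]; push_cast; ring
  rw [h5] at h4
  have hpi : (2 * Real.pi : ℂ) ≠ 0 := by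
    have := Real.pi_ne_zero
    simp [this]
  have hrt : (rt ρ z : ℂ) = ((ρ z / rb ρ z : ℝ) : ℂ) - 1 := by
    rw [rt]; push_cast; ring
  apply mul_left_cancel₀ hpi
  rw [h4, KK]
  push_cast
  rw [hrt]
  push_cast
  ring

private theorem kdet_radial {ρ : ℂ → ℝ} (hc : ContDiffOn ℝ 1 ρ D) (hp : ∀ z ∈ D, 0 < ρ z)
    (z : ℂ) (hz1 : ‖z‖ < 1) {A : ℂ →L[ℝ] ℂ} (hA : HasFDerivAt (KK ρ) A z) :
    ((starRingEnd ℂ) (KK ρ z) * A z).re = ‖z‖ ^ 2 * rb ρ z := by
  have hcc : ContinuousOn ρ D := hc.continuousOn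
  obtain ⟨t0, ht0, ht1⟩ := exists_between hz1
  have ht0p : 0 < t0 := lt_of_le_of_lt (norm_nonneg z) ht0
  set w : ℂ := (t0⁻¹ : ℝ) * z with hw
  have hwD : w ∈ D := by
    rw [mem_closedBall_zero_iff, hw, norm_mul, Complex.norm_real, Real.norm_eq_abs,
      abs_of_pos (inv_pos.mpr ht0p), inv_mul_le_iff₀ ht0p, mul_one]
    exact ht0.le
  have htw : (t0 : ℂ) * w = z := by
    have : (t0 : ℂ) ≠ 0 := by exact_mod_cast ht0p.ne'
    rw [hw]; push_cast; field_simp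
  have hM := MM_deriv hcc w hwD t0 ht0p ht1
  rw [htw] at hM
  -- rescale: `t = τ / t0`
  have hsc : HasDerivAt (fun t : ℝ => t * t0) t0 1 := by
    simpa using (hasDerivAt_id (1 : ℝ)).mul_const t0
  have hM' : HasDerivAt (fun t : ℝ => t ^ 2 * MM ρ ((t : ℂ) * w)) (2 * t0 * rb ρ z)
      ((1 : ℝ) * t0) := by
    rw [one_mul]; exact hM
  have hM2 := hM'.comp (1 : ℝ) hsc
  have hrad : HasDerivAt (fun t : ℝ => ‖KK ρ ((t : ℂ) * z)‖ ^ 2)
      (‖z‖ ^ 2 * (2 * rb ρ z)) 1 := by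
    have hev : (fun t : ℝ => ‖KK ρ ((t : ℂ) * z)‖ ^ 2) =ᶠ[nhds 1]
        fun t : ℝ => (‖z‖ ^ 2 * (t0 ^ 2)⁻¹) *
          (((fun t : ℝ => t ^ 2 * MM ρ ((t : ℂ) * w)) ∘ fun t : ℝ => t * t0) t) := by
      have hcont : ContinuousAt (fun t : ℝ => ‖(t : ℂ) * z‖) 1 := by
        fun_prop
      have h1 : ‖((1 : ℝ) : ℂ) * z‖ < 1 := by simpa using hz1
      filter_upwards [hcont.eventually (gt_mem_nhds h1)] with t ht
      have htD : (t : ℂ) * z ∈ D := by
        rw [mem_closedBall_zero_iff]; exact ht.le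
      rw [norm_KK hcc hp _ htD]
      have h2 : ((t * t0 : ℝ) : ℂ) * w = (t : ℂ) * z := by
        push_cast; rw [mul_assoc, htw]
      simp only [Function.comp, h2]
      rw [norm_mul, Complex.norm_real, Real.norm_eq_abs, mul_pow, sq_abs]
      field_simp
    refine HasDerivAt.congr_of_eventuallyEq ?_ hev
    have h3 := hM2.const_mul (‖z‖ ^ 2 * (t0 ^ 2)⁻¹)
    have ht00 : t0 ≠ 0 := ht0p.ne'
    have h4 : ‖z‖ ^ 2 * (2 * rb ρ z) = ‖z‖ ^ 2 * (t0 ^ 2)⁻¹ * (2 * t0 * rb ρ z * t0) := by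
      field_simp
    rw [h4]
    exact h3
  have hcurve : HasDerivAt (fun t : ℝ => (t : ℂ) * z) z 1 := by
    simpa using (Complex.ofRealCLM.hasDerivAt (x := (1 : ℝ))).mul_const z
  have hA' : HasFDerivAt (KK ρ) A (((1 : ℝ) : ℂ) * z) := by
    simpa using hA
  have h1 : HasDerivAt (fun t : ℝ => KK ρ ((t : ℂ) * z)) (A z) 1 :=
    HasFDerivAt.comp_hasDerivAt (l := KK ρ) (l' := A) (f := fun t : ℝ => (t : ℂ) * z) (1 : ℝ) hA'
      hcurve
  have h2 := h1.norm_sq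
  have h3 := h2.unique hrad
  have h4 : inner ℝ (KK ρ z) (A z) = ((starRingEnd ℂ) (KK ρ z) * A z).re := by
    rw [Complex.inner, mul_comm]
  simp only [Complex.ofReal_one, one_mul] at h3
  rw [h4] at h3
  linarith

private theorem kdet_interior {ρ : ℂ → ℝ} (hc : ContDiffOn ℝ 1 ρ D) (hp : ∀ z ∈ D, 0 < ρ z)
    (z : ℂ) (hz0 : z ≠ 0) (hz1 : ‖z‖ < 1) : dt (KK ρ) z = ρ z := by
  have hzD : z ∈ D := by rw [mem_closedBall_zero_iff]; exact hz1.le
  have hnhds : D ∈ nhds z :=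
    Metric.closedBall_mem_nhds_of_mem (by rwa [mem_ball_zero_iff])
  have hC1 : ContDiffOn ℝ ((1 : ℕ) : WithTop ℕ∞) (KK ρ) D := (kdet_contDiff hc hp).2.1
  have hdiff : DifferentiableOn ℝ (KK ρ) D := hC1.differentiableOn (by norm_num)
  have hA : HasFDerivAt (KK ρ) (fderivWithin ℝ (KK ρ) D z) z :=
    ((hdiff z hzD).hasFDerivWithinAt).hasFDerivAt hnhds
  have hang := kdet_angular hc hp z hzD hA
  have hrad := kdet_radial hc hp z hz1 hA
  have hom := om_det (fderivWithin ℝ (KK ρ) D z) z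
  rw [hang] at hom
  have hrb := rb_pos hc.continuousOn hp z hzD
  have hn : (0 : ℝ) < ‖z‖ ^ 2 := by positivity
  have h5 : ((starRingEnd ℂ) (fderivWithin ℝ (KK ρ) D z z) *
      (((ρ z / rb ρ z : ℝ) : ℂ) * (Complex.I * KK ρ z))).im =
      (ρ z / rb ρ z) * ((starRingEnd ℂ) (KK ρ z) * fderivWithin ℝ (KK ρ) D z z).re := by
    simp only [Complex.mul_im, Complex.mul_re, Complex.conj_re, Complex.conj_im,
      Complex.ofReal_re, Complex.ofReal_im, Complex.I_re, Complex.I_im]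
    ring
  rw [h5, hrad] at hom
  have h6 : dt (KK ρ) z * ‖z‖ ^ 2 = ρ z * ‖z‖ ^ 2 := by
    rw [dt, ← hom]
    field_simp
  exact mul_right_cancel₀ hn.ne' h6

theorem dt_KK {ρ : ℂ → ℝ} (hc : ContDiffOn ℝ 1 ρ D) (hp : ∀ z ∈ D, 0 < ρ z) (z : ℂ)
    (hz : z ∈ D) : dt (KK ρ) z = ρ z := by
  have hdt : CTend 0 (fun _ => dt (KK ρ)) (dt (KK ρ)) :=
    ctend_dt (m := 0) (f := fun _ => KK ρ) (g := KK ρ) (kdet_contDiff hc hp)
  have hcont : ContinuousOn (dt (KK ρ)) D := hdt.2.1.continuousOn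
  have heq : EqOn (dt (KK ρ)) ρ (Metric.ball (0 : ℂ) 1 ∩ {(0 : ℂ)}ᶜ) := by
    intro w hw
    exact kdet_interior hc hp w (by simpa using hw.2) (by simpa using hw.1)
  have hsub : Metric.ball (0 : ℂ) 1 ∩ {(0 : ℂ)}ᶜ ⊆ D :=
    inter_subset_left.trans Metric.ball_subset_closedBall
  have hcl : D ⊆ closure (Metric.ball (0 : ℂ) 1 ∩ {(0 : ℂ)}ᶜ) := by
    have h1 : Metric.ball (0 : ℂ) 1 ⊆ closure (Metric.ball (0 : ℂ) 1 ∩ {(0 : ℂ)}ᶜ) :=
      (dense_compl_singleton (0 : ℂ)).open_subset_closure_inter Metric.isOpen_ball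
    have h2 := closure_minimal h1 isClosed_closure
    rwa [closure_ball (0 : ℂ) one_ne_zero] at h2
  exact heq.of_subset_closure hcont hc.continuousOn hsub hcl hz

end Pool.H44.PF
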