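import Pool.Agent.H44.PF.CompR
import Pool.Agent.H44.PF.InvReg

/-!
MODULE Vol (about 70 lines).  Change of variables on `D`.
PROOF: `MeasureTheory.integral_image_eq_integral_abs_det_fderiv_smul` with `s = D`, `f`, `f' z = fderivWithin f D z`, `f '' D = D`, applied to the function
`w ↦ 1 / dt f (g w)`: `∫_D 1/dt f (g w) dw = ∫_D |dt f z| / dt f (g (f z)) dz = vol D = π` (`Complex.volume_closedBall` or `EuclideanSpace` volume of the unit disc).
-/

set_option autoImplicit false

open Set Filter MeasureTheory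

open scoped ContDiff

namespace Pool.H44.PF

private lemma Vol_der {f : ℂ → ℂ} (hf : ContDiffOn ℝ 1 f D) (z : ℂ) (hz : z ∈ D) :
    HasFDerivWithinAt f (fderivWithin ℝ f D z) D z :=
  ((hf.differentiableOn (by norm_num)) z hz).hasFDerivWithinAt

private lemma Vol_inj {f g : ℂ → ℂ} (hp : InvPair f g) : InjOn f D := by
  intro z hz w hw h
  rw [← hp.gf z hz, ← hp.gf w hw, h]

theorem integral_inv_dt {f g : ℂ → ℂ} (hp : InvPair f g) (hf : ContDiffOn ℝ 1 f D)
    (hd : ∀ z ∈ D, 0 < dt f z) : ∫ w in D, (dt f (g w))⁻¹ = Real.pi := by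
  have him : f '' D = D := by
    apply Subset.antisymm
    · rintro _ ⟨z, hz, rfl⟩
      exact hp.mf hz
    · intro w hw
      exact ⟨g w, hp.mg hw, hp.fg w hw⟩
  have hms : MeasurableSet D := Metric.isClosed_closedBall.measurableSet
  have h1 := integral_image_eq_integral_abs_det_fderiv_smul volume hms (Vol_der hf) (Vol_inj hp)
    (fun w => (dt f (g w))⁻¹)
  rw [him] at h1
  rw [h1]
  have h2 : ∀ z ∈ D, |(fderivWithin ℝ f D z).det| • (dt f (g (f z)))⁻¹ = (1 : ℝ) := by
    intro z hz
    have h3 : 0 < (fderivWithin ℝ f D z).det := hd z hz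
    rw [hp.gf z hz, abs_of_pos h3, smul_eq_mul]
    exact mul_inv_cancel₀ h3.ne'
  rw [setIntegral_congr_fun hms h2, setIntegral_const, smul_eq_mul, mul_one, Measure.real,
    Complex.volume_closedBall]
  simp

/-- An area preserving `C^1` bijection of `D` preserves the measure of subsets. -/
theorem measure_image {f g : ℂ → ℂ} (hp : InvPair f g) (hf : ContDiffOn ℝ 1 f D)
    (hd : ∀ z ∈ D, dt f z = 1) (E : Set ℂ) (hE : E ⊆ D) (hm : MeasurableSet E) :
    volume (f '' E) = volume E := by
  have h1 := lintegral_abs_det_fderiv_eq_addHaar_image volume hm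
    (fun z hz => (Vol_der hf z (hE hz)).mono hE) ((Vol_inj hp).mono hE)
  rw [← h1, setLIntegral_congr_fun hm (g := fun _ => 1), setLIntegral_const, one_mul]
  intro z hz
  have h3 : (fderivWithin ℝ f D z).det = 1 := hd z (hE hz)
  simp [h3]

end Pool.H44.PF
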