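import Pool.Agent.H44.PF.Smd
import Pool.Agent.H44.PF.Vol
import Pool.Agent.H44.PF.KDet
import Pool.Agent.H44.PF.KBij

/-!
MODULE HMain (about 150 lines).  Smoothing and area normalisation (paper H3).
PROOF.  `(h_n, k_n)` from `exists_smooth_diffeo` for `(hC, gC)` and `m + 1`.  `ρ_n w = (dt (h n) (k n w))⁻¹`, `ρ_0 w = (dt hC (gC w))⁻¹`: positive, `CTend m ρ_n ρ_0` (`ctend_dt`, `CTend.comp_right`,
`CTend.div`), `∫_D ρ_n = π` (`integral_inv_dt`).  `K_n = KK ρ_n` is a bijection of `D` (`KK_bijOn`), `C^infinity` (`ctend_KK` for constant sequences, every order), `dt K_n = ρ_n` (`dt_KK`), inverse `L_n`.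
`H_n = K_n ∘ h_n`, inverse `k_n ∘ L_n`: `dt H_n z = ρ_n (h_n z) dt h_n z = 1` (`dt_comp`).  `H_n → H = KK ρ_0 ∘ hC` in `C^m`, inverses by `CTend.inverse` (`m ≥ 1`; `dt H = 1`).
Commutation: `hC ∘ F = a hC` gives `dt hC (F z) * 1 = dt hC z` (chain rule, `|a| = 1`, determinant of the rotation is `1`), so `ρ_0 (a w) = ρ_0 w` (`w = hC z`,
`gC (a w) = F z`), `KK_rot`.
-/

set_option autoImplicit false

open Set Filter MeasureTheory

open scoped ContDiff

namespace Pool.H44.PF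

/-- regularity of the density of a diffeomorphism -/
private theorem rho_contDiff {j : ℕ} {f g : ℂ → ℂ} (hp : InvPair f g)
    (hf : ContDiffOn ℝ (j + 1 : ℕ) f D) (hg : ContDiffOn ℝ j g D)
    (hd : ∀ z ∈ D, 0 < dt f z) : ContDiffOn ℝ j (fun w => (dt f (g w))⁻¹) D := by
  have h1 : ContDiffOn ℝ j (dt f) D := (ctend_dt (ctend_const hf)).2.1
  exact (h1.comp hg hp.mg).inv fun z hz => (hd _ (hp.mg hz)).ne'

private theorem dt_rot (a : ℂ) (ha : ‖a‖ = 1) (w : ℂ) (hw : w ∈ D) :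
    dt (fun z => a * z) w = 1 := by
  have h1 : HasFDerivAt (fun z : ℂ => a * z) (ContinuousLinearMap.mul ℝ ℂ a) w :=
    (ContinuousLinearMap.mul ℝ ℂ a).hasFDerivAt
  have h2 : fderivWithin ℝ (fun z : ℂ => a * z) D w = ContinuousLinearMap.mul ℝ ℂ a :=
    h1.hasFDerivWithinAt.fderivWithin (D_unique w hw)
  unfold dt
  rw [h2, det_formula]
  simp only [ContinuousLinearMap.mul_apply', mul_one, Complex.mul_re, Complex.mul_im,
    Complex.I_re, Complex.I_im]
  have h3 : a.re * a.re + a.im * a.im = 1 := by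
    have h4 := Complex.normSq_eq_norm_sq a
    rw [ha, Complex.normSq_apply] at h4
    linarith
  linarith

private theorem smooth_KK {ρ : ℂ → ℝ} {j : ℕ} (hc : ContDiffOn ℝ j ρ D)
    (hp : ∀ z ∈ D, 0 < ρ z) : ContDiffOn ℝ j (KK ρ) D :=
  (ctend_KK (ctend_const hc) (fun _ => hp) hp).2.1

theorem smooth_conj {m : ℕ} (hm : 1 ≤ m) {hC gC F : ℂ → ℂ} (hp : InvPair hC gC)
    (hCm : ContDiffOn ℝ (m + 1 : ℕ) hC D) (hd : ∀ z ∈ D, 0 < dt hC z)
    (mF : MapsTo F D D) (hF : DifferentiableOn ℝ F D) (hdF : ∀ z ∈ D, dt F z = 1)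
    (a : ℂ) (ha : ‖a‖ = 1) (hconj : ∀ z ∈ D, hC (F z) = a * hC z) :
    ∃ (h k : ℕ → ℂ → ℂ) (h' k' : ℂ → ℂ), (∀ n, APD (h n) (k n)) ∧ InvPair h' k' ∧
      CTend m h h' ∧ CTend m k k' ∧ (∀ z ∈ D, dt h' z = 1) ∧
      ∀ z ∈ D, h' (F z) = a * h' z := by
  obtain ⟨h, k, hpn, hsm, ksm, hdn, hh, hk⟩ :=
    exists_smooth_diffeo (m := m + 1) (by omega) hp hCm hd
  have h1m : ((1 : ℕ) : WithTop ℕ∞) ≤ ((m : ℕ) : WithTop ℕ∞) := by exact_mod_cast hm
  have hCm' : ContDiffOn ℝ m hC D := hCm.of_le (by exact_mod_cast Nat.le_succ m)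
  have hC1 : ContDiffOn ℝ 1 hC D := hCm'.of_le (by exact_mod_cast hm)
  have hdne : ∀ z ∈ D, dt hC z ≠ 0 := fun z hz => (hd z hz).ne'
  have gCm : ContDiffOn ℝ m gC D := hp.contDiffOn_right hm hCm' hdne
  -- smoothness of every finite order
  have hsm' : ∀ n (j : ℕ), ContDiffOn ℝ j (h n) D := fun n j => (hsm n).of_le (by exact_mod_cast le_top)
  have ksm' : ∀ n (j : ℕ), ContDiffOn ℝ j (k n) D := fun n j => (ksm n).of_le (by exact_mod_cast le_top)
  -- the densities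
  set ρ : ℕ → ℂ → ℝ := fun n w => (dt (h n) (k n w))⁻¹ with hρdef
  set ρ0 : ℂ → ℝ := fun w => (dt hC (gC w))⁻¹ with hρ0def
  have hρsm : ∀ n (j : ℕ), ContDiffOn ℝ j (ρ n) D := fun n j =>
    rho_contDiff (hpn n) (hsm' n (j + 1)) (ksm' n j) (hdn n)
  have hρ0m : ContDiffOn ℝ m ρ0 D := rho_contDiff hp hCm gCm hd
  have hρ01 : ContDiffOn ℝ 1 ρ0 D := hρ0m.of_le (by exact_mod_cast hm)
  have hρpos : ∀ n, ∀ z ∈ D, 0 < ρ n z := fun n z hz => inv_pos.mpr (hdn n _ ((hpn n).mg hz))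
  have hρ0pos : ∀ z ∈ D, 0 < ρ0 z := fun z hz => inv_pos.mpr (hd _ (hp.mg hz))
  have hk' : CTend m k gC := hk.mono (Nat.le_succ m)
  have hh' : CTend m h hC := hh.mono (Nat.le_succ m)
  have hρ : CTend m ρ ρ0 := by
    have h1 : CTend m (fun n w => dt (h n) (k n w)) (fun w => dt hC (gC w)) :=
      (ctend_dt hh).comp_right hk' (fun n => (hpn n).mg) hp.mg
    have h2 : CTend m (fun _ _ => (1 : ℝ)) (fun _ : ℂ => (1 : ℝ)) :=
      ctend_const contDiffOn_const
    refine (h2.div h1 (fun n z hz => (hdn n _ ((hpn n).mg hz)).ne')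
      (fun z hz => (hd _ (hp.mg hz)).ne')).congr ?_ ?_
    · intro n z _
      simp only [hρdef, one_div]
    · intro z _
      simp only [hρ0def, one_div]
  -- the area normalising maps
  have hint : ∀ n, ∫ w in D, ρ n w = Real.pi := fun n =>
    integral_inv_dt (hpn n) (by exact_mod_cast hsm' n 1) (hdn n)
  have hint0 : ∫ w in D, ρ0 w = Real.pi := integral_inv_dt hp hC1 hd
  choose L hL using fun n =>
    invPair_of_bijOn (KK_bijOn (hρsm n 0).continuousOn (hρpos n) (hint n))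
  obtain ⟨L0, hL0⟩ := invPair_of_bijOn (KK_bijOn hρ01.continuousOn hρ0pos hint0)
  have hKsm : ∀ n (j : ℕ), ContDiffOn ℝ j (KK (ρ n)) D := fun n j =>
    smooth_KK (hρsm n j) (hρpos n)
  have hK0m : ContDiffOn ℝ m (KK ρ0) D := smooth_KK hρ0m hρ0pos
  have hdK : ∀ n, ∀ z ∈ D, dt (KK (ρ n)) z = ρ n z := fun n z hz =>
    dt_KK (by exact_mod_cast hρsm n 1) (hρpos n) z hz
  have hdK0 : ∀ z ∈ D, dt (KK ρ0) z = ρ0 z := fun z hz => dt_KK hρ01 hρ0pos z hz
  have hLsm : ∀ n (j : ℕ), ContDiffOn ℝ j (L n) D := by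
    intro n j
    have h1 : ContDiffOn ℝ (j + 1 : ℕ) (L n) D :=
      (hL n).contDiffOn_right (by omega) (hKsm n (j + 1))
        (fun z hz => by rw [hdK n z hz]; exact (hρpos n z hz).ne')
    exact h1.of_le (by exact_mod_cast Nat.le_succ j)
  have h1ne : (1 : WithTop ℕ∞) ≠ 0 := one_ne_zero
  -- the determinants
  have hdet : ∀ n, ∀ z ∈ D, dt (fun z => KK (ρ n) (h n z)) z = 1 := by
    intro n z hz
    have h1 : DifferentiableOn ℝ (KK (ρ n)) D :=
      ContDiffOn.differentiableOn (n := 1) (by exact_mod_cast hKsm n 1) h1ne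
    have h2 : DifferentiableOn ℝ (h n) D :=
      ContDiffOn.differentiableOn (n := 1) (by exact_mod_cast hsm' n 1) h1ne
    rw [dt_comp h1 h2 (hpn n).mf z hz, hdK n _ ((hpn n).mf hz)]
    change (dt (h n) (k n (h n z)))⁻¹ * dt (h n) z = 1
    rw [(hpn n).gf z hz]
    exact inv_mul_cancel₀ (hdn n z hz).ne'
  have hdet0 : ∀ z ∈ D, dt (fun z => KK ρ0 (hC z)) z = 1 := by
    intro z hz
    have h1 : DifferentiableOn ℝ (KK ρ0) D :=
      ContDiffOn.differentiableOn (n := 1) (hK0m.of_le (by exact_mod_cast hm)) h1ne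
    have h2 : DifferentiableOn ℝ hC D := hC1.differentiableOn h1ne
    rw [dt_comp h1 h2 hp.mf z hz, hdK0 _ (hp.mf hz)]
    change (dt hC (gC (hC z)))⁻¹ * dt hC z = 1
    rw [hp.gf z hz]
    exact inv_mul_cancel₀ (hd z hz).ne'
  have hpair : ∀ n, InvPair (fun z => KK (ρ n) (h n z)) (fun z => k n (L n z)) := fun n =>
    (hL n).comp (hpn n)
  have hpair0 : InvPair (fun z => KK ρ0 (hC z)) (fun z => gC (L0 z)) := hL0.comp hp
  have hconv : CTend m (fun n z => KK (ρ n) (h n z)) (fun z => KK ρ0 (hC z)) :=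
    (ctend_KK hρ hρpos hρ0pos).comp_right hh' (fun n => (hpn n).mf) hp.mf
  refine ⟨fun n z => KK (ρ n) (h n z), fun n z => k n (L n z), fun z => KK ρ0 (hC z),
    fun z => gC (L0 z), ?_, hpair0, hconv, ?_, hdet0, ?_⟩
  · intro n
    refine ⟨hpair n, ?_, ?_, hdet n⟩
    · rw [contDiffOn_infty]
      intro j
      exact (hKsm n j).comp (hsm' n j) (hpn n).mf
    · rw [contDiffOn_infty]
      intro j
      exact (ksm' n j).comp (hLsm n j) (hL n).mg
  · exact hconv.inverse hm hpair hpair0 (fun n z hz => by rw [hdet n z hz]; exact one_ne_zero)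
      (fun z hz => by rw [hdet0 z hz]; exact one_ne_zero)
  · -- the rotation
    have hdinv : ∀ z ∈ D, dt hC (F z) = dt hC z := by
      intro z hz
      have h2 : DifferentiableOn ℝ hC D := hC1.differentiableOn h1ne
      have h3 : dt (fun z => hC (F z)) z = dt hC (F z) * dt F z := dt_comp h2 hF mF z hz
      have h4 : dt (fun z => a * hC z) z = dt (fun w => a * w) (hC z) * dt hC z :=
        dt_comp (f := fun w => a * w) (by fun_prop) h2 hp.mf z hz
      have h5 : dt (fun z => hC (F z)) z = dt (fun z => a * hC z) z := by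
        unfold dt
        rw [fderivWithin_congr (fun w hw => hconj w hw) (hconj z hz)]
      rw [h3, h4, hdF z hz, dt_rot a ha _ (hp.mf hz), mul_one, one_mul] at h5
      exact h5
    have hinv : ∀ w ∈ D, ρ0 (a * w) = ρ0 w := by
      intro w hw
      change (dt hC (gC (a * w)))⁻¹ = (dt hC (gC w))⁻¹
      have h1 : a * w = hC (F (gC w)) := by
        rw [hconj _ (hp.mg hw), hp.fg w hw]
      rw [h1, hp.gf _ (mF (hp.mg hw)), hdinv _ (hp.mg hw)]
    intro z hz
    change KK ρ0 (hC (F z)) = a * KK ρ0 (hC z)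
    rw [hconj z hz]
    exact KK_rot hρ01.continuousOn a ha hinv _ (hp.mf hz)

end Pool.H44.PF
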