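import Pool.Agent.H44.PF.Out
import Pool.Agent.H44.PF.HMain

/-!
MODULE OutH (about 50 lines).  The statement of part H used by helper25 (interface Pool/Agent/H25/PR/Iface.lean), from `smooth_conj` with `a = e (1/Q)`.
-/

set_option autoImplicit false

open Set Filter Metric Topology

open scoped ContDiff

namespace Pool.H44.PF

open Pool.Agent.H25.PR (Dsk CTo CBd CNear DPair APair)

theorem out_H (m : ℕ) (hm : 1 ≤ m) (Q : ℕ) (hQ : 2 ≤ Q) (F F' : ℂ → ℂ)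
    (hF : APair (m + 1 : ℕ) F F') (h h' : ℂ → ℂ) (hh : DPair (m + 1 : ℕ) h h')
    (hdet : ∀ z ∈ Dsk, 0 < (fderivWithin ℝ h Dsk z).det)
    (hR : ∀ z ∈ Dsk, h (F z) = Pool.Agent.H25.PR.e (1 / Q) * h z) :
    ∃ (k k' : ℂ → ℂ) (kn kn' : ℕ → ℂ → ℂ), DPair m k k' ∧
      (∀ z ∈ Dsk, k (F z) = Pool.Agent.H25.PR.e (1 / Q) * k z) ∧
      (∀ n, APair ⊤ (kn n) (kn' n)) ∧ CTo m kn k ∧ CTo m kn' k' := by
  have hp : InvPair h h' := ⟨hh.maps, hh.maps', hh.left, hh.right⟩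
  have ha : ‖Pool.Agent.H25.PR.e (1 / Q)‖ = 1 := by rw [e_eq]; exact norm_e _
  have hs : ContDiffOn ℝ (m + 1 : ℕ) h D := by exact_mod_cast hh.smooth
  have hFs : ContDiffOn ℝ (m + 1 : ℕ) F D := by exact_mod_cast hF.smooth
  obtain ⟨kn, kn', k, k', h1, h2, h3, h4, h5, h6⟩ := smooth_conj hm hp hs hdet hF.maps
    (hFs.differentiableOn (by simp)) hF.area _ ha hR
  refine ⟨k, k', kn, kn', ⟨h2.mf, h2.mg, h2.gf, h2.fg, ?_, ?_⟩, h6, fun n => ?_, ?_, ?_⟩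
  · exact_mod_cast h3.2.1
  · exact_mod_cast h4.2.1
  · exact ⟨⟨(h1 n).pair.mf, (h1 n).pair.mg, (h1 n).pair.gf, (h1 n).pair.fg, (h1 n).sf,
      (h1 n).sg⟩, (h1 n).det⟩
  · exact (cto_iff m kn k h3.1 h3.2.1).mpr h3
  · exact (cto_iff m kn' k' h4.1 h4.2.1).mpr h4

end Pool.H44.PF
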