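import Pool.Agent.H44.PF.CompL

/-!
MODULE Alg (about 90 lines).  Sums, products, compositions of linear maps, determinants.
All statements follow from `CTend.prodMk`, `CTend.clm` and `CTend.comp_left` with `U = univ` and a smooth `Φ`
(`contDiff_fst`, `ContDiff.add`, `ContDiff.mul`, `ContDiff.smul`, `isBoundedBilinearMap_comp.contDiff`, ..);
the determinant of a real linear map of `ℂ` is a polynomial in its four entries: `(A 1).re * (A I).im - (A 1).im * (A I).re`
(`det_formula`: compute `LinearMap.det` in `Complex.basisOneI`).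
-/

set_option autoImplicit false

open Set Filter

open scoped ContDiff

namespace Pool.H44.PF

variable {F G H : Type} [NormedAddCommGroup F] [NormedSpace ℝ F] [NormedAddCommGroup G]
  [NormedSpace ℝ G] [NormedAddCommGroup H] [NormedSpace ℝ H]

private theorem alg_comp {m : ℕ} {f : ℕ → ℂ → F} {g : ℂ → F} (h : CTend m f g) {Φ : F → G}
    (hΦ : ContDiff ℝ m Φ) : CTend m (fun n z => Φ (f n z)) (fun z => Φ (g z)) :=
  h.comp_left isOpen_univ hΦ.contDiffOn (fun _ _ _ => mem_univ _) (fun _ _ => mem_univ _)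

theorem CTend.add {m : ℕ} {f f' : ℕ → ℂ → F} {g g' : ℂ → F} (h : CTend m f g)
    (h' : CTend m f' g') : CTend m (fun n z => f n z + f' n z) (fun z => g z + g' z) :=
  alg_comp (h.prodMk h') (Φ := fun p : F × F => p.1 + p.2) (contDiff_fst.add contDiff_snd)

theorem CTend.sub {m : ℕ} {f f' : ℕ → ℂ → F} {g g' : ℂ → F} (h : CTend m f g)
    (h' : CTend m f' g') : CTend m (fun n z => f n z - f' n z) (fun z => g z - g' z) :=
  alg_comp (h.prodMk h') (Φ := fun p : F × F => p.1 - p.2) (contDiff_fst.sub contDiff_snd)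

theorem CTend.mul {m : ℕ} {f f' : ℕ → ℂ → ℂ} {g g' : ℂ → ℂ} (h : CTend m f g)
    (h' : CTend m f' g') : CTend m (fun n z => f n z * f' n z) (fun z => g z * g' z) :=
  alg_comp (h.prodMk h') (Φ := fun p : ℂ × ℂ => p.1 * p.2) (contDiff_fst.mul contDiff_snd)

theorem CTend.rmul {m : ℕ} {f f' : ℕ → ℂ → ℝ} {g g' : ℂ → ℝ} (h : CTend m f g)
    (h' : CTend m f' g') : CTend m (fun n z => f n z * f' n z) (fun z => g z * g' z) :=
  alg_comp (h.prodMk h') (Φ := fun p : ℝ × ℝ => p.1 * p.2) (contDiff_fst.mul contDiff_snd)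

theorem CTend.smul {m : ℕ} {f : ℕ → ℂ → ℝ} {g : ℂ → ℝ} {f' : ℕ → ℂ → F} {g' : ℂ → F}
    (h : CTend m f g) (h' : CTend m f' g') :
    CTend m (fun n z => f n z • f' n z) (fun z => g z • g' z) :=
  alg_comp (h.prodMk h') (Φ := fun p : ℝ × F => p.1 • p.2) (contDiff_fst.smul contDiff_snd)

theorem CTend.ofReal {m : ℕ} {f : ℕ → ℂ → ℝ} {g : ℂ → ℝ} (h : CTend m f g) :
    CTend m (fun n z => (f n z : ℂ)) (fun z => (g z : ℂ)) :=
  h.clm Complex.ofRealCLM

theorem CTend.div {m : ℕ} {f f' : ℕ → ℂ → ℝ} {g g' : ℂ → ℝ} (h : CTend m f g)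
    (h' : CTend m f' g') (h0 : ∀ n, ∀ z ∈ D, f' n z ≠ 0) (h1 : ∀ z ∈ D, g' z ≠ 0) :
    CTend m (fun n z => f n z / f' n z) (fun z => g z / g' z) := by
  have hU : IsOpen {p : ℝ × ℝ | p.2 ≠ 0} := isOpen_ne_fun continuous_snd continuous_const
  refine (h.prodMk h').comp_left (Φ := fun p : ℝ × ℝ => p.1 / p.2) hU ?_ (fun n z hz => h0 n z hz)
    (fun z hz => h1 z hz)
  exact contDiff_fst.contDiffOn.div contDiff_snd.contDiffOn (fun p hp => hp)

theorem CTend.clm_comp {m : ℕ} {f : ℕ → ℂ → (G →L[ℝ] H)} {g : ℂ → (G →L[ℝ] H)}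
    {f' : ℕ → ℂ → (F →L[ℝ] G)} {g' : ℂ → (F →L[ℝ] G)} (h : CTend m f g)
    (h' : CTend m f' g') :
    CTend m (fun n z => (f n z).comp (f' n z)) (fun z => (g z).comp (g' z)) :=
  alg_comp (h.prodMk h') (Φ := fun p : (G →L[ℝ] H) × (F →L[ℝ] G) => p.1.comp p.2)
    (contDiff_fst.clm_comp contDiff_snd)

theorem det_formula (A : ℂ →L[ℝ] ℂ) :
    A.det = (A 1).re * (A Complex.I).im - (A 1).im * (A Complex.I).re := by
  rw [ContinuousLinearMap.det, ← LinearMap.det_toMatrix Complex.basisOneI, Matrix.det_fin_two]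
  simp only [LinearMap.toMatrix_apply, Complex.coe_basisOneI, Complex.coe_basisOneI_repr,
    Matrix.cons_val_zero, Matrix.cons_val_one, ContinuousLinearMap.coe_coe]
  ring

theorem CTend.det {m : ℕ} {f : ℕ → ℂ → (ℂ →L[ℝ] ℂ)} {g : ℂ → (ℂ →L[ℝ] ℂ)}
    (h : CTend m f g) : CTend m (fun n z => (f n z).det) (fun z => (g z).det) := by
  have a := h.clm (Complex.reCLM.comp (ContinuousLinearMap.apply ℝ ℂ (1 : ℂ)))
  have b := h.clm (Complex.imCLM.comp (ContinuousLinearMap.apply ℝ ℂ Complex.I))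
  have c := h.clm (Complex.imCLM.comp (ContinuousLinearMap.apply ℝ ℂ (1 : ℂ)))
  have d := h.clm (Complex.reCLM.comp (ContinuousLinearMap.apply ℝ ℂ Complex.I))
  have key := (a.rmul b).sub (c.rmul d)
  refine key.congr (fun n z _ => ?_) (fun z _ => ?_)
  · exact (det_formula (f n z)).symm
  · exact (det_formula (g z)).symm

/-- Determinants of the derivatives. -/
theorem ctend_dt {m : ℕ} {f : ℕ → ℂ → ℂ} {g : ℂ → ℂ} (h : CTend (m + 1) f g) :
    CTend m (fun n => dt (f n)) (dt g) :=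
  ((ctend_succ_iff m f g).1 h).2.2.2.det

end Pool.H44.PF
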