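import Pool.Agent.H44.PF.Basic

/-!
MODULE Asc (about 180 lines).  Compactness (paper F4).
PROOFS.
`hasFDerivWithinAt_of_lim`: for `z, w ∈ D`: `‖f n w - f n z - fderivWithin (f n) D z (w - z)‖ ≤ sup_{x in [z,w]} ‖fderivWithin (f n) D x - fderivWithin (f n) D z‖ ‖w - z‖`
(`Convex.norm_image_sub_le_of_norm_hasFDerivWithin_le'` on the convex set `D ∩ closedBall z ‖w-z‖` or on the segment); let `n → ∞`:
`‖f w - f z - g z (w - z)‖ ≤ sup_{x in [z,w]} ‖g x - g z‖ ‖w - z‖`, and `g` is continuous on `D` (uniform limit of continuous functions).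
`exists_subseq_unif` (Arzela-Ascoli for functions on the compact `D` with values in a finite dimensional space, with a common bound and a common
Lipschitz constant): use `BoundedContinuousFunction.arzela_ascoli₁` / `arzela_ascoli₂` on the compact space `D`, or a diagonal argument over a countable dense
subset of `D`.
`exists_subseq_ctend` by induction on `m` for all finite dimensional `F`: level 0 is `exists_subseq_unif` (Lipschitz constant `M`: `D` is convex and
`‖fderivWithin‖ ≤ M`).  Step: subsequence for `fderivWithin (f n) D` (`cbdd_succ`, limit `G` in `C^m`), further subsequence for `f n` (limit `g`,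
uniform); `hasFDerivWithinAt_of_lim` gives `fderivWithin g D = G` on `D`; conclude with `ctend_succ_iff` and `CTend.congr`.
-/

set_option autoImplicit false

open Set Filter

open scoped ContDiff

namespace Pool.H44.PF

variable {F : Type} [NormedAddCommGroup F] [NormedSpace ℝ F]

theorem hasFDerivWithinAt_of_lim {f : ℕ → ℂ → F} {g : ℂ → F} {G : ℂ → (ℂ →L[ℝ] F)}
    (hf : ∀ n, ContDiffOn ℝ 1 (f n) D) (h : TendstoUniformlyOn f g atTop D)
    (hG : TendstoUniformlyOn (fun n => fderivWithin ℝ (f n) D) G atTop D)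
    (z : ℂ) (hz : z ∈ D) : HasFDerivWithinAt g (G z) D z := by
  have hGc : ContinuousOn G D := hG.continuousOn (Frequently.of_forall fun n =>
    (hf n).continuousOn_fderivWithin D_unique le_rfl)
  rw [hasFDerivWithinAt_iff_isLittleO, Asymptotics.isLittleO_iff]
  intro c hc
  have h1 := Metric.continuousOn_iff.1 hGc z hz (c / 2) (by positivity)
  obtain ⟨δ, hδ, h2⟩ := h1
  have hmem : D ∩ Metric.ball z δ ∈ nhdsWithin z D :=
    inter_mem self_mem_nhdsWithin (mem_nhdsWithin_of_mem_nhds (Metric.ball_mem_nhds z hδ))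
  filter_upwards [hmem] with w hw
  have hlim : Tendsto (fun n => f n w - f n z - G z (w - z)) atTop
      (nhds (g w - g z - G z (w - z))) :=
    ((h.tendsto_at hw.1).sub (h.tendsto_at hz)).sub tendsto_const_nhds
  refine le_of_tendsto hlim.norm ?_
  have h3 := Metric.tendstoUniformlyOn_iff.1 hG (c / 2) (by positivity)
  filter_upwards [h3] with n hn
  refine Convex.norm_image_sub_le_of_norm_hasFDerivWithin_le' (𝕜 := ℝ)
    (s := D ∩ Metric.ball z δ) (f' := fun x => fderivWithin ℝ (f n) D x) (φ := G z) ?_ ?_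
    (D_convex.inter (convex_ball z δ)) ⟨hz, Metric.mem_ball_self hδ⟩ hw
  · intro x hx
    exact (((hf n).differentiableOn one_ne_zero x hx.1).hasFDerivWithinAt).mono
      inter_subset_left
  · intro x hx
    have h4 := hn x hx.1
    have h5 := h2 x hx.1 hx.2
    rw [dist_comm, dist_eq_norm] at h4
    rw [dist_eq_norm] at h5
    calc ‖fderivWithin ℝ (f n) D x - G z‖
        = ‖(fderivWithin ℝ (f n) D x - G x) + (G x - G z)‖ := by congr 1; abel
      _ ≤ ‖fderivWithin ℝ (f n) D x - G x‖ + ‖G x - G z‖ := norm_add_le _ _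
      _ ≤ c := by linarith

theorem exists_subseq_unif [FiniteDimensional ℝ F] (f : ℕ → ℂ → F) (M : ℝ)
    (hb : ∀ n, ∀ z ∈ D, ‖f n z‖ ≤ M)
    (hl : ∀ n, ∀ z ∈ D, ∀ w ∈ D, ‖f n z - f n w‖ ≤ M * ‖z - w‖) :
    ∃ φ : ℕ → ℕ, StrictMono φ ∧ ∃ g : ℂ → F,
      TendstoUniformlyOn (fun n => f (φ n)) g atTop D := by
  classical
  have : ProperSpace F := FiniteDimensional.proper ℝ F
  have hcs : CompactSpace D := isCompact_iff_compactSpace.1 D_compact
  have h0 : (0 : ℂ) ∈ D := Metric.mem_closedBall_self zero_le_one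
  have hM : 0 ≤ M := (norm_nonneg _).trans (hb 0 0 h0)
  have hlip : ∀ n, LipschitzWith ⟨M, hM⟩ (fun z : D => f n z) := by
    intro n
    refine LipschitzWith.of_dist_le_mul fun z w => ?_
    rw [dist_eq_norm, Subtype.dist_eq, dist_eq_norm]
    exact hl n z z.2 w w.2
  let A : ℕ → BoundedContinuousFunction D F := fun n =>
    BoundedContinuousFunction.mkOfCompact ⟨fun z : D => f n z, (hlip n).continuous⟩
  have hK : IsCompact (closure (range A)) := by
    refine BoundedContinuousFunction.arzela_ascoli (Metric.closedBall 0 M)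
      (isCompact_closedBall 0 M) (range A) ?_ ?_
    · rintro _ z ⟨n, rfl⟩
      rw [mem_closedBall_zero_iff]
      exact hb n z z.2
    · refine UniformEquicontinuous.equicontinuous ?_
      refine LipschitzWith.uniformEquicontinuous _ ⟨M, hM⟩ ?_
      rintro ⟨_, n, rfl⟩
      exact hlip n
  obtain ⟨a, -, φ, hφ, hlim⟩ := hK.tendsto_subseq (x := A) fun n => subset_closure ⟨n, rfl⟩
  refine ⟨φ, hφ, fun z => if hz : z ∈ D then a ⟨z, hz⟩ else 0, ?_⟩
  rw [BoundedContinuousFunction.tendsto_iff_tendstoUniformly] at hlim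
  rw [tendstoUniformlyOn_iff_tendstoUniformly_comp_coe]
  have e : (fun z => if hz : z ∈ D then a ⟨z, hz⟩ else 0) ∘ Subtype.val = ⇑a := by
    funext z
    change (if hz : (z : ℂ) ∈ D then a ⟨z, hz⟩ else 0) = a z
    rw [dif_pos z.2]
  rw [e]
  exact hlim

private theorem asc_lip {m : ℕ} {M : ℝ} {f : ℂ → F} (h : CBdd (m + 1) M f) (z : ℂ) (hz : z ∈ D)
    (w : ℂ) (hw : w ∈ D) : ‖f z - f w‖ ≤ M * ‖z - w‖ := by
  refine Convex.norm_image_sub_le_of_norm_fderivWithin_le (𝕜 := ℝ) (s := D) ?_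
    (fun x hx => cbdd_one h x hx) D_convex hw hz
  exact h.1.differentiableOn (by
    rw [Nat.cast_add, Nat.cast_one]
    simp)

theorem exists_subseq_ctend [FiniteDimensional ℝ F] (m : ℕ) (M : ℝ) (f : ℕ → ℂ → F)
    (h : ∀ n, CBdd (m + 1) M (f n)) :
    ∃ φ : ℕ → ℕ, StrictMono φ ∧ ∃ g : ℂ → F, CTend m (fun n => f (φ n)) g := by
  induction m generalizing F with
  | zero =>
    obtain ⟨φ, hφ, g, hg⟩ := exists_subseq_unif f M (fun n z hz => cbdd_zero (h n) z hz)
      (fun n z hz w hw => asc_lip (h n) z hz w hw)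
    have hc : ∀ n, ContinuousOn (f (φ n)) D := fun n => (h (φ n)).1.continuousOn
    exact ⟨φ, hφ, g, (ctend_zero_iff _ _).2
      ⟨hc, hg.continuousOn (Frequently.of_forall hc), hg⟩⟩
  | succ m ih =>
    obtain ⟨φ₁, hφ₁, G, hG⟩ := ih (fun n => fderivWithin ℝ (f n) D) fun n => cbdd_succ (h n)
    obtain ⟨φ₂, hφ₂, g, hg⟩ := exists_subseq_unif (fun n => f (φ₁ n)) M
      (fun n z hz => cbdd_zero (h _) z hz) (fun n z hz w hw => asc_lip (h _) z hz w hw)
    have hG' := hG.comp_tendsto hφ₂.tendsto_atTop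
    have hC : ∀ n, ContDiffOn ℝ 1 (f (φ₁ (φ₂ n))) D := fun n =>
      (h (φ₁ (φ₂ n))).1.of_le (by
        have : (1 : WithTop ℕ∞) = ((1 : ℕ) : WithTop ℕ∞) := by simp
        rw [this]
        exact_mod_cast (by omega : 1 ≤ m + 1 + 1))
    have hd := hasFDerivWithinAt_of_lim hC hg hG'.unif
    refine ⟨fun n => φ₁ (φ₂ n), hφ₁.comp hφ₂, g, (ctend_succ_iff _ _ _).2
      ⟨fun n => (hC n).differentiableOn one_ne_zero, fun z hz => (hd z hz).differentiableWithinAt,
        hg, hG'.congr (fun n => eqOn_refl _ _) fun z hz => ?_⟩⟩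
    exact ((hd z hz).fderivWithin (D_unique z hz)).symm

end Pool.H44.PF
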