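import Pool.Agent.H44.PF.CompR
import Pool.Agent.H44.PF.InvReg

/-!
MODULE InvT (about 100 lines).  Convergence of the inverses (paper F3).
PROOF.  Uniform convergence: put `z_n = g_n w`, `w = f_n z_n`, `|f' z_n - w| = |f' z_n - f_n z_n|` is uniformly small, `g'` is uniformly
continuous on `D`, `g' (f' z_n) = z_n`.  So `g_n → g'` uniformly on `D`.  Then by induction on `k ≤ m`: `CTend k g g'`.  For `k + 1 ≤ m`:
`ctend_succ_iff`; `fderivWithin (g n) D w = inverse (fderivWithin (f n) D (g n w))` (`InvPair.fderivWithin_right`);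
`fderivWithin (f n) D ∘ g n` converges in `C^k` (`CTend.comp_right`, `ctend_succ_iff`, `CTend.mono`); the map
`ContinuousLinearMap.inverse` is smooth on the open set of invertible maps (`CTend.comp_left`; the open set can be `{A | A.det ≠ 0}`,
continuity of det from `det_formula`; `contDiffAt_map_inverse`).
-/

set_option autoImplicit false

open Set Filter

open scoped ContDiff

namespace Pool.H44.PF

private theorem InvT_det_continuous : Continuous (fun A : ℂ →L[ℝ] ℂ => A.det) := by
  have h : (fun A : ℂ →L[ℝ] ℂ => A.det) = fun A : ℂ →L[ℝ] ℂ =>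
      (A 1).re * (A Complex.I).im - (A 1).im * (A Complex.I).re := by
    funext A
    exact det_formula A
  rw [h]
  have h1 : Continuous (fun A : ℂ →L[ℝ] ℂ => A 1) := by fun_prop
  have h2 : Continuous (fun A : ℂ →L[ℝ] ℂ => A Complex.I) := by fun_prop
  exact ((Complex.continuous_re.comp h1).mul (Complex.continuous_im.comp h2)).sub
    ((Complex.continuous_im.comp h1).mul (Complex.continuous_re.comp h2))

private theorem InvT_unif {m : ℕ} {f g : ℕ → ℂ → ℂ} {f' g' : ℂ → ℂ} (h : CTend m f f')
    (hp : ∀ n, InvPair (f n) (g n)) (hp' : InvPair f' g') :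
    TendstoUniformlyOn g g' atTop D := by
  have hc : ContinuousOn g' D := hp'.continuousOn_right h.2.1.continuousOn
  have hu : UniformContinuousOn g' D := D_compact.uniformContinuousOn_of_continuous hc
  rw [Metric.tendstoUniformlyOn_iff]
  intro ε hε
  obtain ⟨δ, hδ, hδ'⟩ := Metric.uniformContinuousOn_iff.1 hu ε hε
  filter_upwards [Metric.tendstoUniformlyOn_iff.1 h.unif δ hδ] with n hn w hw
  have hz : g n w ∈ D := (hp n).mg hw
  have h1 := hn (g n w) hz
  rw [(hp n).fg w hw] at h1
  have h2 := hδ' w hw (f' (g n w)) (hp'.mf hz) (by rwa [dist_comm])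
  rwa [hp'.gf _ hz] at h2

theorem CTend.inverse {m : ℕ} {f g : ℕ → ℂ → ℂ} {f' g' : ℂ → ℂ} (h : CTend m f f')
    (hm : 1 ≤ m) (hp : ∀ n, InvPair (f n) (g n)) (hp' : InvPair f' g')
    (hd : ∀ n, ∀ z ∈ D, dt (f n) z ≠ 0) (hd' : ∀ z ∈ D, dt f' z ≠ 0) :
    CTend m g g' := by
  have hu := InvT_unif h hp hp'
  have hm' : ((m : ℕ) : WithTop ℕ∞) ≠ 0 := by
    have : m ≠ 0 := by omega
    exact_mod_cast this
  have hm1 : (1 : WithTop ℕ∞) ≤ ((m : ℕ) : WithTop ℕ∞) := by exact_mod_cast hm
  have key : ∀ k ≤ m, CTend k g g' := by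
    intro k
    induction k with
    | zero =>
      intro _
      rw [ctend_zero_iff]
      exact ⟨fun n => (hp n).continuousOn_right (h.1 n).continuousOn,
        hp'.continuousOn_right h.2.1.continuousOn, hu⟩
    | succ k ih =>
      intro hk
      rw [ctend_succ_iff]
      refine ⟨fun n => ((hp n).contDiffOn_right hm (h.1 n) (hd n)).differentiableOn hm',
        (hp'.contDiffOn_right hm h.2.1 hd').differentiableOn hm', hu, ?_⟩
      obtain ⟨m', rfl⟩ : ∃ m', m = m' + 1 := ⟨m - 1, by omega⟩
      have h1 : CTend m' (fun n => fderivWithin ℝ (f n) D) (fderivWithin ℝ f' D) :=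
        ((ctend_succ_iff m' f f').1 h).2.2.2
      have h2 : CTend k (fun n w => fderivWithin ℝ (f n) D (g n w))
          (fun w => fderivWithin ℝ f' D (g' w)) :=
        (h1.mono (by omega)).comp_right (ih (by omega)) (fun n => (hp n).mg) hp'.mg
      have hU : IsOpen {A : ℂ →L[ℝ] ℂ | A.det ≠ 0} :=
        isOpen_ne_fun InvT_det_continuous continuous_const
      have hΦ : ContDiffOn ℝ (k : WithTop ℕ∞)
          (ContinuousLinearMap.inverse : (ℂ →L[ℝ] ℂ) → (ℂ →L[ℝ] ℂ))
          {A : ℂ →L[ℝ] ℂ | A.det ≠ 0} := by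
        intro A hA
        obtain ⟨e, he⟩ := isInvertible_of_det A hA
        rw [← he]
        exact (contDiffAt_map_inverse e).contDiffWithinAt
      have h3 := h2.comp_left hU hΦ (fun n w hw => hd n (g n w) ((hp n).mg hw))
        (fun w hw => hd' (g' w) (hp'.mg hw))
      refine h3.congr (fun n w hw => ?_) (fun w hw => ?_)
      · exact ((hp n).fderivWithin_right ((h.1 n).of_le hm1) (hd n) w hw).symm
      · exact (hp'.fderivWithin_right (h.2.1.of_le hm1) hd' w hw).symm
  exact key m le_rfl

end Pool.H44.PF
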