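import Pool.Agent.H44.PF.Asc
import Pool.Agent.H44.PF.InvT

/-!
MODULE AscP (about 80 lines).  Compactness for pairs of inverse maps (paper F4, used in I1, I2).
PROOF: two applications of `exists_subseq_ctend`; limits of inverse pairs are inverse pairs: `f (φ n) (g (φ n) z) = z` and uniform convergence
(`f (φ n) (g (φ n) z) → f' (g' z)`: as in `CTend.comp_right` level 0); `D` is closed.  `dt f' z = lim dt (f (φ n)) z` by `ctend_dt` (needs `m ≥ 1`).
-/

set_option autoImplicit false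

open Set Filter

open scoped ContDiff

namespace Pool.H44.PF

private theorem AscP_maps {f : ℕ → ℂ → ℂ} {f' : ℂ → ℂ} (hf : CTend 0 f f')
    (mf : ∀ n, MapsTo (f n) D D) : MapsTo f' D D := by
  intro z hz
  exact D_compact.isClosed.mem_of_tendsto (hf.unif.tendsto_at hz)
    (Filter.Eventually.of_forall fun n => mf n hz)

private theorem AscP_comp {f g : ℕ → ℂ → ℂ} {f' g' : ℂ → ℂ} (mf : ∀ n, MapsTo (f n) D D)
    (gf : ∀ n, ∀ z ∈ D, g n (f n z) = z)
    (hf : CTend 0 f f') (hg : CTend 0 g g') : ∀ z ∈ D, g' (f' z) = z := by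
  intro z hz
  have h1 := (hg.comp_right hf mf (AscP_maps hf mf)).unif.tendsto_at hz
  refine tendsto_nhds_unique h1 ?_
  refine tendsto_const_nhds.congr fun n => ?_
  exact (gf n z hz).symm

theorem invPair_lim {f g : ℕ → ℂ → ℂ} {f' g' : ℂ → ℂ} (hp : ∀ n, InvPair (f n) (g n))
    (hf : CTend 0 f f') (hg : CTend 0 g g') : InvPair f' g' :=
  ⟨AscP_maps hf fun n => (hp n).mf, AscP_maps hg fun n => (hp n).mg,
    AscP_comp (fun n => (hp n).mf) (fun n => (hp n).gf) hf hg,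
    AscP_comp (fun n => (hp n).mg) (fun n => (hp n).fg) hg hf⟩

theorem exists_subseq_pair (m : ℕ) (hm : 1 ≤ m) (M : ℝ) (f g : ℕ → ℂ → ℂ)
    (hp : ∀ n, InvPair (f n) (g n)) (hf : ∀ n, CBdd (m + 1) M (f n))
    (hg : ∀ n, CBdd (m + 1) M (g n)) (hd : ∀ n, ∀ z ∈ D, dt (f n) z = 1) :
    ∃ φ : ℕ → ℕ, StrictMono φ ∧ ∃ f' g' : ℂ → ℂ, InvPair f' g' ∧
      CTend m (fun n => f (φ n)) f' ∧ CTend m (fun n => g (φ n)) g' ∧
      ∀ z ∈ D, dt f' z = 1 := by
  obtain ⟨φ, hφ, f', hf'⟩ := exists_subseq_ctend m M f hf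
  obtain ⟨ψ, hψ, g', hg'⟩ := exists_subseq_ctend m M (fun n => g (φ n)) fun n => hg (φ n)
  have hf2 : CTend m (fun n => f (φ (ψ n))) f' := hf'.comp_tendsto hψ.tendsto_atTop
  refine ⟨φ ∘ ψ, hφ.comp hψ, f', g', ?_, hf2, hg', ?_⟩
  · exact invPair_lim (fun n => hp (φ (ψ n))) (hf2.mono (Nat.zero_le _)) (hg'.mono (Nat.zero_le _))
  · intro z hz
    have h0 : CTend (0 + 1) (fun n => f (φ (ψ n))) f' := hf2.mono (by omega)
    have h1 := (ctend_dt h0).unif.tendsto_at hz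
    refine tendsto_nhds_unique h1 ?_
    refine tendsto_const_nhds.congr fun n => ?_
    exact (hd _ z hz).symm

end Pool.H44.PF
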