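import Pool.Agent.H44.PF.AvD

/-!
MODULE AvC (about 60 lines).  Averages and `C^m` convergence.
PROOF: induction on `m` for all `F`, `G`, `L`: level 0: `av_cont`, `av_unif`; step: `ctend_succ_iff`, `av_hasFDeriv` (derivatives within `D` are
unique: `HasFDerivWithinAt.fderivWithin` with `D_unique`) and the induction hypothesis for `LL L a` (`LL_ok`), `CTend.congr`.
-/

set_option autoImplicit false

open Set Filter MeasureTheory

open scoped ContDiff

namespace Pool.H44.PF

variable {F G : Type} [NormedAddCommGroup F] [NormedSpace ℝ F] [NormedAddCommGroup G]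
  [NormedSpace ℝ G] [CompleteSpace G] {T : Type} [TopologicalSpace T] [MeasurableSpace T]
  [OpensMeasurableSpace T] [T2Space T]

private theorem AvC_aux (μ : Measure T) [IsFiniteMeasureOnCompacts μ] {K : Set T} {a b : T → ℂ}
    (m : ℕ) : ∀ (F G : Type) [NormedAddCommGroup F] [NormedSpace ℝ F] [NormedAddCommGroup G]
    [NormedSpace ℝ G] [CompleteSpace G] (L : T → F →L[ℝ] G) (f : ℕ → ℂ → F) (g : ℂ → F),
    CTend m f g → AvOK K L a b → CTend m (fun n => Av μ K L a b (f n)) (Av μ K L a b g) := by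
  induction m with
  | zero =>
    intro F G _ _ _ _ _ L f g h hL
    obtain ⟨h1, h2, h3⟩ := (ctend_zero_iff f g).mp h
    exact (ctend_zero_iff _ _).mpr ⟨fun n => av_cont μ hL (h1 n), av_cont μ hL h2,
      av_unif μ hL h1 h2 h3⟩
  | succ m ih =>
    intro F G _ _ _ _ _ L f g h hL
    obtain ⟨h1, h2, h3, h4⟩ := (ctend_succ_iff m f g).mp h
    have hle : (1 : WithTop ℕ∞) ≤ ((m + 1 : ℕ) : WithTop ℕ∞) := by
      exact_mod_cast Nat.succ_le_succ (Nat.zero_le m)
    have hf1 : ∀ n, ContDiffOn ℝ 1 (f n) D := fun n => (h.1 n).of_le hle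
    have hg1 : ContDiffOn ℝ 1 g D := h.2.1.of_le hle
    refine (ctend_succ_iff m _ _).mpr ⟨fun n z hz => ?_, fun z hz => ?_,
      av_unif μ hL (fun n => (hf1 n).continuousOn) hg1.continuousOn h3, ?_⟩
    · exact (av_hasFDeriv μ hL (hf1 n) z hz).differentiableWithinAt
    · exact (av_hasFDeriv μ hL hg1 z hz).differentiableWithinAt
    · have h5 := ih (ℂ →L[ℝ] F) (ℂ →L[ℝ] G) (LL L a) _ _ h4 (LL_ok hL)
      refine h5.congr (fun n z hz => ?_) (fun z hz => ?_)
      · exact ((av_hasFDeriv μ hL (hf1 n) z hz).fderivWithin (D_unique z hz)).symm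
      · exact ((av_hasFDeriv μ hL hg1 z hz).fderivWithin (D_unique z hz)).symm

theorem CTend.av {m : ℕ} {f : ℕ → ℂ → F} {g : ℂ → F} (h : CTend m f g) (μ : Measure T)
    [IsFiniteMeasureOnCompacts μ] {K : Set T} {L : T → F →L[ℝ] G} {a b : T → ℂ}
    (hL : AvOK K L a b) :
    CTend m (fun n => Av μ K L a b (f n)) (Av μ K L a b g) := by
  exact AvC_aux μ m F G L f g h hL

end Pool.H44.PF
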