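import Pool.Agent.H44.PF.Basic

/-!
MODULE AvD (about 130 lines).  Derivatives of averages (paper H1, H2).
PROOF of `av_hasFDeriv`: the integrands are continuous on the compact `K`, hence integrable (`ContinuousOn.integrableOn_compact`).  For `z, w ∈ D` and `s ∈ K` put
`z' = a s z + b s`, `w' = a s w + b s` (in `D`): `‖g w' - g z' - fderivWithin g D z' (w' - z')‖ ≤ ω(‖w' - z'‖) ‖w' - z'‖` with `ω` a modulus of
continuity of `fderivWithin g D` on the compact `D` (uniformly continuous: for `ε` there is `δ`), by the mean value inequality on the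
convex set `D ∩ closedBall z' δ`.  `|a s| ≤ 1` is NOT assumed but `a` is bounded on `K`, so `‖w' - z'‖ ≤ A ‖w - z‖`.  Integrate:
the remainder is `≤ C ε ‖w - z‖`.  The integral of the linear part is the linear map given by the integral
(`ContinuousLinearMap.integral_comp_comm` / `integral_apply`).
`LL L a s T = (L s).comp (T.comp (multiplication by a s))` is a continuous function of `s`.
-/

set_option autoImplicit false

open Set Filter MeasureTheory

open scoped ContDiff

namespace Pool.H44.PF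

variable {F G : Type} [NormedAddCommGroup F] [NormedSpace ℝ F] [NormedAddCommGroup G]
  [NormedSpace ℝ G] [CompleteSpace G] {T : Type} [TopologicalSpace T] [MeasurableSpace T]
  [OpensMeasurableSpace T] [T2Space T]

/-- The operators of the derivative of an average. -/
noncomputable def LL (L : T → F →L[ℝ] G) (a : T → ℂ) (s : T) :
    (ℂ →L[ℝ] F) →L[ℝ] (ℂ →L[ℝ] G) :=
  (ContinuousLinearMap.compL ℝ ℂ F G (L s)).comp
    ((ContinuousLinearMap.compL ℝ ℂ ℂ F).flip (ContinuousLinearMap.mul ℝ ℂ (a s)))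

omit [CompleteSpace G] [MeasurableSpace T] [OpensMeasurableSpace T] [T2Space T] in
theorem LL_ok {K : Set T} {L : T → F →L[ℝ] G} {a b : T → ℂ} (h : AvOK K L a b) :
    AvOK K (LL L a) a b := by
  refine ⟨h.comp, ?_, h.ca, h.cb, h.maps⟩
  have h1 : ContinuousOn (fun s => ContinuousLinearMap.compL ℝ ℂ F G (L s)) K :=
    (ContinuousLinearMap.compL ℝ ℂ F G).continuous.comp_continuousOn h.cL
  have h2 : ContinuousOn (fun s => (ContinuousLinearMap.compL ℝ ℂ ℂ F).flip
      (ContinuousLinearMap.mul ℝ ℂ (a s))) K :=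
    ((ContinuousLinearMap.compL ℝ ℂ ℂ F).flip.continuous.comp
      (ContinuousLinearMap.mul ℝ ℂ).continuous).comp_continuousOn h.ca
  exact h1.clm_comp h2

omit [CompleteSpace G] [MeasurableSpace T] [OpensMeasurableSpace T] [T2Space T] in
private theorem AvD_bound {K : Set T} {L : T → F →L[ℝ] G} {a b : T → ℂ} (h : AvOK K L a b) :
    ∃ B A : ℝ, 0 ≤ B ∧ 0 ≤ A ∧ (∀ s ∈ K, ‖L s‖ ≤ B) ∧ ∀ s ∈ K, ‖a s‖ ≤ A := by
  obtain ⟨B, hB⟩ := h.comp.exists_bound_of_continuousOn h.cL
  obtain ⟨A, hA⟩ := h.comp.exists_bound_of_continuousOn h.ca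
  exact ⟨max B 0, max A 0, le_max_right _ _, le_max_right _ _,
    fun s hs => (hB s hs).trans (le_max_left _ _), fun s hs => (hA s hs).trans (le_max_left _ _)⟩

omit [CompleteSpace G] [MeasurableSpace T] [OpensMeasurableSpace T] [T2Space T] in
private theorem AvD_contOn {K : Set T} {L : T → F →L[ℝ] G} {a b : T → ℂ} (h : AvOK K L a b)
    {g : ℂ → F} (hg : ContinuousOn g D) {z : ℂ} (hz : z ∈ D) :
    ContinuousOn (fun s => L s (g (a s * z + b s))) K := by
  have h1 : ContinuousOn (fun s => a s * z + b s) K := (h.ca.mul continuousOn_const).add h.cb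
  exact h.cL.clm_apply (hg.comp h1 fun s hs => h.maps s hs z hz)

omit [CompleteSpace G] in
private theorem AvD_int (μ : Measure T) [IsFiniteMeasureOnCompacts μ] {K : Set T}
    {L : T → F →L[ℝ] G} {a b : T → ℂ} (h : AvOK K L a b) {g : ℂ → F} (hg : ContinuousOn g D)
    {z : ℂ} (hz : z ∈ D) : IntegrableOn (fun s => L s (g (a s * z + b s))) K μ :=
  (AvD_contOn h hg hz).integrableOn_compact h.comp

omit [CompleteSpace G] in
/-- the difference of two averages -/
private theorem AvD_sub (μ : Measure T) [IsFiniteMeasureOnCompacts μ] {K : Set T}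
    {L : T → F →L[ℝ] G} {a b : T → ℂ} (h : AvOK K L a b) {f g : ℂ → F} (hf : ContinuousOn f D)
    (hg : ContinuousOn g D) {w z : ℂ} (hw : w ∈ D) (hz : z ∈ D) :
    Av μ K L a b f w - Av μ K L a b g z
      = ∫ s in K, L s (f (a s * w + b s) - g (a s * z + b s)) ∂μ := by
  rw [Av, Av, ← integral_sub (AvD_int μ h hf hw) (AvD_int μ h hg hz)]
  refine integral_congr_ae (Eventually.of_forall fun s => ?_)
  exact (map_sub (L s) _ _).symm

/-- the mean value inequality for `g` -/
private theorem AvD_mean {g : ℂ → F} (hg : ContDiffOn ℝ 1 g D) {ε : ℝ} (hε : 0 < ε) :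
    ∃ δ > 0, ∀ z ∈ D, ∀ w ∈ D, ‖w - z‖ < δ →
      ‖g w - g z - fderivWithin ℝ g D z (w - z)‖ ≤ ε * ‖w - z‖ := by
  have h1 : ContinuousOn (fderivWithin ℝ g D) D :=
    hg.continuousOn_fderivWithin D_unique le_rfl
  have h2 : UniformContinuousOn (fderivWithin ℝ g D) D :=
    D_compact.uniformContinuousOn_of_continuous h1
  obtain ⟨δ, hδ, h3⟩ := Metric.uniformContinuousOn_iff.mp h2 ε hε
  refine ⟨δ, hδ, fun z hz w hw hwz => ?_⟩
  have hd : DifferentiableOn ℝ g D := hg.differentiableOn one_ne_zero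
  refine Convex.norm_image_sub_le_of_norm_hasFDerivWithin_le' (𝕜 := ℝ)
    (s := D ∩ Metric.ball z δ) (f' := fderivWithin ℝ g D) (fun x hx => ?_) (fun x hx => ?_)
    (D_convex.inter (convex_ball z δ)) ⟨hz, Metric.mem_ball_self hδ⟩
    ⟨hw, by rwa [Metric.mem_ball, dist_eq_norm]⟩
  · exact ((hd x hx.1).hasFDerivWithinAt).mono inter_subset_left
  · have h4 := h3 x hx.1 z hz hx.2
    rw [dist_eq_norm] at h4
    exact h4.le

theorem av_hasFDeriv (μ : Measure T) [IsFiniteMeasureOnCompacts μ] {K : Set T}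
    {L : T → F →L[ℝ] G} {a b : T → ℂ} (h : AvOK K L a b) {g : ℂ → F}
    (hg : ContDiffOn ℝ 1 g D) (z : ℂ) (hz : z ∈ D) :
    HasFDerivWithinAt (Av μ K L a b g) (Av μ K (LL L a) a b (fderivWithin ℝ g D) z) D z := by
  obtain ⟨B, A, hB0, hA0, hB, hA⟩ := AvD_bound h
  have hg' : ContinuousOn (fderivWithin ℝ g D) D :=
    hg.continuousOn_fderivWithin D_unique le_rfl
  have hgc := hg.continuousOn
  have hfin : μ K < ⊤ := h.comp.measure_lt_top
  refine HasFDerivWithinAt.of_isLittleO (Asymptotics.isLittleO_iff.mpr fun c hc => ?_)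
  -- the choice of the parameters
  set ε : ℝ := c / (B * A * μ.real K + 1) with hε
  have hden : 0 < B * A * μ.real K + 1 := by
    have : 0 ≤ μ.real K := measureReal_nonneg
    positivity
  have hε0 : 0 < ε := div_pos hc hden
  obtain ⟨δ, hδ, hmean⟩ := AvD_mean hg hε0
  have hA1 : 0 < A + 1 := by linarith
  have hnhds : Metric.ball z (δ / (A + 1)) ∩ D ∈ nhdsWithin z D :=
    inter_mem (mem_nhdsWithin_of_mem_nhds (Metric.ball_mem_nhds z (div_pos hδ hA1)))
      self_mem_nhdsWithin
  refine Filter.mem_of_superset hnhds fun w hw => ?_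
  obtain ⟨hwb, hwD⟩ := hw
  rw [Metric.mem_ball, dist_eq_norm] at hwb
  change ‖Av μ K L a b g w - Av μ K L a b g z
    - (Av μ K (LL L a) a b (fderivWithin ℝ g D) z) (w - z)‖ ≤ c * ‖w - z‖
  have hint := AvD_int μ (LL_ok h) hg' hz
  have e1 : (Av μ K (LL L a) a b (fderivWithin ℝ g D) z) (w - z)
      = ∫ s in K, L s (fderivWithin ℝ g D (a s * z + b s) (a s * (w - z))) ∂μ := by
    rw [Av, ContinuousLinearMap.integral_apply hint]
    rfl
  have hI1 : IntegrableOn (fun s => L s (g (a s * w + b s) - g (a s * z + b s))) K μ := by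
    have h1 := (AvD_int μ h hgc hwD).sub (AvD_int μ h hgc hz)
    refine h1.congr (Eventually.of_forall fun s => ?_)
    exact (map_sub (L s) _ _).symm
  have hI2 : IntegrableOn (fun s => L s (fderivWithin ℝ g D (a s * z + b s) (a s * (w - z)))) K
      μ := by
    have h1 := (ContinuousLinearMap.apply ℝ G (w - z)).integrable_comp hint
    exact h1
  rw [AvD_sub μ h hgc hgc hwD hz, e1, ← integral_sub hI1 hI2]
  have hbd : ∀ s ∈ K, ‖L s (g (a s * w + b s) - g (a s * z + b s))
      - L s (fderivWithin ℝ g D (a s * z + b s) (a s * (w - z)))‖ ≤ B * (ε * (A * ‖w - z‖)) := by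
    intro s hs
    have hz' := h.maps s hs z hz
    have hw' := h.maps s hs w hwD
    have e2 : a s * w + b s - (a s * z + b s) = a s * (w - z) := by ring
    have hn : ‖a s * (w - z)‖ ≤ A * ‖w - z‖ := by
      rw [norm_mul]
      exact mul_le_mul_of_nonneg_right (hA s hs) (norm_nonneg _)
    have hlt : ‖a s * w + b s - (a s * z + b s)‖ < δ := by
      rw [e2]
      refine hn.trans_lt ?_
      have h5 : A * ‖w - z‖ ≤ (A + 1) * ‖w - z‖ :=
        mul_le_mul_of_nonneg_right (by linarith) (norm_nonneg _)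
      refine h5.trans_lt ?_
      rw [mul_comm]
      exact (lt_div_iff₀ hA1).mp hwb
    have h6 := hmean _ hz' _ hw' hlt
    rw [e2] at h6
    rw [← map_sub]
    refine ((L s).le_opNorm _).trans ?_
    refine mul_le_mul (hB s hs) (h6.trans ?_) (norm_nonneg _) hB0
    exact mul_le_mul_of_nonneg_left hn hε0.le
  refine (norm_setIntegral_le_of_norm_le_const hfin hbd).trans ?_
  have h7 : B * (ε * (A * ‖w - z‖)) * μ.real K = ε * (B * A * μ.real K) * ‖w - z‖ := by ring
  rw [h7]
  refine mul_le_mul_of_nonneg_right ?_ (norm_nonneg _)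
  rw [hε, div_mul_eq_mul_div, div_le_iff₀ hden]
  have : 0 ≤ c := hc.le
  nlinarith

/-- Averages of uniformly convergent sequences. -/
theorem av_unif (μ : Measure T) [IsFiniteMeasureOnCompacts μ] {K : Set T}
    {L : T → F →L[ℝ] G} {a b : T → ℂ} (h : AvOK K L a b) {f : ℕ → ℂ → F} {g : ℂ → F}
    (hf : ∀ n, ContinuousOn (f n) D) (hg : ContinuousOn g D)
    (hu : TendstoUniformlyOn f g atTop D) :
    TendstoUniformlyOn (fun n => Av μ K L a b (f n)) (Av μ K L a b g) atTop D := by
  obtain ⟨B, A, hB0, hA0, hB, hA⟩ := AvD_bound h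
  have hfin : μ K < ⊤ := h.comp.measure_lt_top
  have hμ0 : 0 ≤ μ.real K := measureReal_nonneg
  rw [Metric.tendstoUniformlyOn_iff] at hu ⊢
  intro ε hε
  have hden : 0 < B * μ.real K + 1 := by positivity
  filter_upwards [hu (ε / (B * μ.real K + 1)) (div_pos hε hden)] with n hn z hz
  rw [dist_eq_norm, AvD_sub μ h hg (hf n) hz hz]
  have hbd : ∀ s ∈ K, ‖L s (g (a s * z + b s) - f n (a s * z + b s))‖
      ≤ B * (ε / (B * μ.real K + 1)) := by
    intro s hs
    have h1 := hn _ (h.maps s hs z hz)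
    rw [dist_eq_norm] at h1
    refine ((L s).le_opNorm _).trans ?_
    exact mul_le_mul (hB s hs) h1.le (norm_nonneg _) hB0
  refine (norm_setIntegral_le_of_norm_le_const hfin hbd).trans_lt ?_
  have h7 : B * (ε / (B * μ.real K + 1)) * μ.real K = ε * (B * μ.real K) / (B * μ.real K + 1) := by
    ring
  rw [h7, div_lt_iff₀ hden]
  nlinarith

theorem av_cont (μ : Measure T) [IsFiniteMeasureOnCompacts μ] {K : Set T}
    {L : T → F →L[ℝ] G} {a b : T → ℂ} (h : AvOK K L a b) {g : ℂ → F}
    (hg : ContinuousOn g D) : ContinuousOn (Av μ K L a b g) D := by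
  obtain ⟨B, A, hB0, hA0, hB, hA⟩ := AvD_bound h
  have hfin : μ K < ⊤ := h.comp.measure_lt_top
  have hμ0 : 0 ≤ μ.real K := measureReal_nonneg
  have h2 : UniformContinuousOn g D := D_compact.uniformContinuousOn_of_continuous hg
  rw [Metric.continuousOn_iff]
  intro z hz ε hε
  have hden : 0 < B * μ.real K + 1 := by positivity
  have hA1 : 0 < A + 1 := by linarith
  obtain ⟨δ, hδ, h3⟩ := Metric.uniformContinuousOn_iff.mp h2 (ε / (B * μ.real K + 1))
    (div_pos hε hden)
  refine ⟨δ / (A + 1), div_pos hδ hA1, fun w hw hwz => ?_⟩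
  rw [dist_eq_norm, AvD_sub μ h hg hg hw hz]
  have hbd : ∀ s ∈ K, ‖L s (g (a s * w + b s) - g (a s * z + b s))‖
      ≤ B * (ε / (B * μ.real K + 1)) := by
    intro s hs
    have hlt : dist (a s * w + b s) (a s * z + b s) < δ := by
      rw [dist_eq_norm, show a s * w + b s - (a s * z + b s) = a s * (w - z) by ring, norm_mul]
      have h5 : ‖a s‖ * ‖w - z‖ ≤ (A + 1) * ‖w - z‖ :=
        mul_le_mul_of_nonneg_right ((hA s hs).trans (by linarith)) (norm_nonneg _)
      refine h5.trans_lt ?_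
      rw [mul_comm]
      rw [dist_eq_norm] at hwz
      exact (lt_div_iff₀ hA1).mp hwz
    have h1 := h3 _ (h.maps s hs w hw) _ (h.maps s hs z hz) hlt
    rw [dist_eq_norm] at h1
    refine ((L s).le_opNorm _).trans ?_
    exact mul_le_mul (hB s hs) h1.le (norm_nonneg _) hB0
  refine (norm_setIntegral_le_of_norm_le_const hfin hbd).trans_lt ?_
  have h7 : B * (ε / (B * μ.real K + 1)) * μ.real K = ε * (B * μ.real K) / (B * μ.real K + 1) := by
    ring
  rw [h7, div_lt_iff₀ hden]
  nlinarith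

end Pool.H44.PF
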