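import Pool.Agent.H44.PF.Defs

/-!
MODULE Basic (about 130 lines).  First properties of `D`, `CTend`, `CBdd`, `CClose`.
PROOFS.  `D` is convex with nonempty interior: `(convex_closedBall 0 1)`, `uniqueDiffOn_convex`; compact: `isCompact_closedBall`.
`ctend_zero_iff`: `iteratedFDerivWithin 0` is `f` up to the isometry `continuousMultilinearCurryFin0`
(`iteratedFDerivWithin_zero_eq_comp`); a linear isometry (equivalence) preserves and reflects uniform convergence
(compare norms: `‖I a - I b‖ = ‖a - b‖`; use `Metric.tendstoUniformlyOn_iff` and `dist_eq_norm`).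
`ctend_succ_iff`: `contDiffOn_succ_iff_fderivWithin` (the extra clause on `ω` is void since `m` is a natural number) and, for `z` in `D`,
`iteratedFDerivWithin_succ_eq_comp_right` : `iteratedFDerivWithin (j+1) f D z = I (iteratedFDerivWithin j (fderivWithin f D) D z)`, `I` a
linear isometry equivalence; the case `j = 0` of `CTend (m+1)` is the uniform convergence of `f n`.
`CTend.lim_zero` etc. are special cases.  `cbdd_succ`: `norm_iteratedFDerivWithin_fderivWithin`.
-/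

set_option autoImplicit false

open Set Filter

open scoped ContDiff

namespace Pool.H44.PF

variable {F : Type} [NormedAddCommGroup F] [NormedSpace ℝ F]

theorem D_convex : Convex ℝ D := convex_closedBall 0 1

theorem D_unique : UniqueDiffOn ℝ D := by
  refine uniqueDiffOn_convex D_convex ?_
  rw [interior_closedBall (0 : ℂ) one_ne_zero]
  exact ⟨0, by simp⟩

theorem D_compact : IsCompact D := isCompact_closedBall 0 1

private theorem Basic_cd {m : ℕ} {f : ℂ → F} : ContDiffOn ℝ ((m + 1 : ℕ) : WithTop ℕ∞) f D ↔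
    DifferentiableOn ℝ f D ∧ ContDiffOn ℝ m (fderivWithin ℝ f D) D := by
  rw [Nat.cast_succ, contDiffOn_succ_iff_fderivWithin D_unique]
  constructor
  · rintro ⟨h1, -, h2⟩
    exact ⟨h1, h2⟩
  · rintro ⟨h1, h2⟩
    refine ⟨h1, fun h => ?_, h2⟩
    exact absurd h (by simp)

private theorem Basic_zero (f : ℕ → ℂ → F) (g : ℂ → F) :
    TendstoUniformlyOn (fun n => iteratedFDerivWithin ℝ 0 (f n) D)
      (iteratedFDerivWithin ℝ 0 g D) atTop D ↔ TendstoUniformlyOn f g atTop D := by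
  rw [Metric.tendstoUniformlyOn_iff, Metric.tendstoUniformlyOn_iff]
  simp only [iteratedFDerivWithin_zero_eq_comp, Function.comp_apply, LinearIsometryEquiv.dist_map]

private theorem Basic_succ (j : ℕ) (f : ℕ → ℂ → F) (g : ℂ → F) :
    TendstoUniformlyOn (fun n => iteratedFDerivWithin ℝ (j + 1) (f n) D)
      (iteratedFDerivWithin ℝ (j + 1) g D) atTop D ↔
    TendstoUniformlyOn (fun n => iteratedFDerivWithin ℝ j (fderivWithin ℝ (f n) D) D)
      (iteratedFDerivWithin ℝ j (fderivWithin ℝ g D) D) atTop D := by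
  rw [Metric.tendstoUniformlyOn_iff, Metric.tendstoUniformlyOn_iff]
  have h : ∀ n, ∀ z ∈ D, dist (iteratedFDerivWithin ℝ (j + 1) g D z)
      (iteratedFDerivWithin ℝ (j + 1) (f n) D z) =
      dist (iteratedFDerivWithin ℝ j (fderivWithin ℝ g D) D z)
        (iteratedFDerivWithin ℝ j (fderivWithin ℝ (f n) D) D z) := by
    intro n z hz
    rw [iteratedFDerivWithin_succ_eq_comp_right D_unique hz,
      iteratedFDerivWithin_succ_eq_comp_right D_unique hz, Function.comp_apply,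
      Function.comp_apply, LinearIsometryEquiv.dist_map]
  constructor
  · intro h1 ε hε
    filter_upwards [h1 ε hε] with n hn z hz
    rw [← h n z hz]
    exact hn z hz
  · intro h1 ε hε
    filter_upwards [h1 ε hε] with n hn z hz
    rw [h n z hz]
    exact hn z hz

theorem ctend_zero_iff (f : ℕ → ℂ → F) (g : ℂ → F) : CTend 0 f g ↔
    (∀ n, ContinuousOn (f n) D) ∧ ContinuousOn g D ∧ TendstoUniformlyOn f g atTop D := by
  unfold CTend
  simp only [Nat.cast_zero, contDiffOn_zero, Nat.le_zero]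
  constructor
  · rintro ⟨h1, h2, h3⟩
    exact ⟨h1, h2, (Basic_zero f g).1 (h3 0 rfl)⟩
  · rintro ⟨h1, h2, h3⟩
    refine ⟨h1, h2, ?_⟩
    rintro j rfl
    exact (Basic_zero f g).2 h3

theorem ctend_succ_iff (m : ℕ) (f : ℕ → ℂ → F) (g : ℂ → F) : CTend (m + 1) f g ↔
    (∀ n, DifferentiableOn ℝ (f n) D) ∧ DifferentiableOn ℝ g D ∧
      TendstoUniformlyOn f g atTop D ∧
      CTend m (fun n => fderivWithin ℝ (f n) D) (fderivWithin ℝ g D) := by
  unfold CTend
  constructor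
  · rintro ⟨h1, h2, h3⟩
    refine ⟨fun n => (Basic_cd.1 (h1 n)).1, (Basic_cd.1 h2).1, ?_, fun n =>
      (Basic_cd.1 (h1 n)).2, (Basic_cd.1 h2).2, ?_⟩
    · exact (Basic_zero f g).1 (h3 0 (Nat.zero_le _))
    · intro j hj
      exact (Basic_succ j f g).1 (h3 (j + 1) (Nat.succ_le_succ hj))
  · rintro ⟨h1, h2, h3, h4, h5, h6⟩
    refine ⟨fun n => Basic_cd.2 ⟨h1 n, h4 n⟩, Basic_cd.2 ⟨h2, h5⟩, ?_⟩
    intro j hj
    rcases j with _ | j
    · exact (Basic_zero f g).2 h3
    · exact (Basic_succ j f g).2 (h6 j (Nat.le_of_succ_le_succ hj))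

theorem CTend.mono {m k : ℕ} {f : ℕ → ℂ → F} {g : ℂ → F} (h : CTend m f g) (hk : k ≤ m) :
    CTend k f g := by
  obtain ⟨h1, h2, h3⟩ := h
  have hk' : (k : WithTop ℕ∞) ≤ m := by exact_mod_cast hk
  exact ⟨fun n => (h1 n).of_le hk', h2.of_le hk', fun j hj => h3 j (hj.trans hk)⟩

theorem CTend.unif {m : ℕ} {f : ℕ → ℂ → F} {g : ℂ → F} (h : CTend m f g) :
    TendstoUniformlyOn f g atTop D :=
  (Basic_zero f g).1 (h.2.2 0 (Nat.zero_le _))

theorem CTend.comp_tendsto {m : ℕ} {f : ℕ → ℂ → F} {g : ℂ → F} (h : CTend m f g)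
    {φ : ℕ → ℕ} (hφ : Tendsto φ atTop atTop) : CTend m (fun n => f (φ n)) g := by
  obtain ⟨h1, h2, h3⟩ := h
  refine ⟨fun n => h1 _, h2, fun j hj => ?_⟩
  intro u hu
  exact hφ.eventually (h3 j hj u hu)

theorem CTend.congr {m : ℕ} {f f' : ℕ → ℂ → F} {g g' : ℂ → F} (h : CTend m f g)
    (hf : ∀ n, EqOn (f n) (f' n) D) (hg : EqOn g g' D) : CTend m f' g' := by
  obtain ⟨h1, h2, h3⟩ := h
  refine ⟨fun n => (h1 n).congr (hf n).symm, h2.congr hg.symm, fun j hj => ?_⟩
  have h4 := h3 j hj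
  rw [Metric.tendstoUniformlyOn_iff] at h4 ⊢
  intro ε hε
  filter_upwards [h4 ε hε] with n hn z hz
  rw [iteratedFDerivWithin_congr (hf n).symm hz j, iteratedFDerivWithin_congr hg.symm hz j]
  exact hn z hz

theorem ctend_const {m : ℕ} {g : ℂ → F} (hg : ContDiffOn ℝ m g D) :
    CTend m (fun _ => g) g := by
  refine ⟨fun _ => hg, hg, fun j _ => ?_⟩
  rw [Metric.tendstoUniformlyOn_iff]
  intro ε hε
  filter_upwards with n z hz
  rw [dist_self]
  exact hε

/-- Constant functions (of `z`) that converge. -/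
theorem ctend_of_tendsto {m : ℕ} {c : ℕ → F} {d : F} (h : Tendsto c atTop (nhds d)) :
    CTend m (fun n _ => c n) (fun _ => d) := by
  refine ⟨fun _ => contDiffOn_const, contDiffOn_const, fun j _ => ?_⟩
  rcases Nat.eq_zero_or_pos j with rfl | hj
  · rw [Basic_zero (fun n _ => c n) (fun _ => d), Metric.tendstoUniformlyOn_iff]
    intro ε hε
    filter_upwards [(Metric.tendsto_nhds.1 h) ε hε] with n hn z _
    rw [dist_comm]
    exact hn
  · rw [Metric.tendstoUniformlyOn_iff]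
    intro ε hε
    filter_upwards with n z _
    rw [iteratedFDerivWithin_const_of_ne hj.ne' d, iteratedFDerivWithin_const_of_ne hj.ne' (c n)]
    simpa using hε

theorem ctend_of_eventually {m : ℕ} {f : ℕ → ℂ → F} {g : ℂ → F}
    (hf : ∀ n, ContDiffOn ℝ m (f n) D) (N : ℕ) (h : CTend m (fun n => f (n + N)) g) :
    CTend m f g := by
  obtain ⟨-, h2, h3⟩ := h
  refine ⟨hf, h2, fun j hj => ?_⟩
  intro u hu
  have h4 := h3 j hj u hu
  rw [Filter.eventually_atTop] at h4 ⊢
  obtain ⟨a, ha⟩ := h4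
  refine ⟨a + N, fun b hb z hz => ?_⟩
  have h5 := ha (b - N) (by omega) z hz
  have h6 : b - N + N = b := by omega
  simpa [h6] using h5

/-- The limit is unique on `D`. -/
theorem CTend.eqOn {m k : ℕ} {f : ℕ → ℂ → F} {g g' : ℂ → F} (h : CTend m f g)
    (h' : CTend k f g') : EqOn g g' D := by
  intro z hz
  exact tendsto_nhds_unique (h.unif.tendsto_at hz) (h'.unif.tendsto_at hz)

theorem cbdd_succ {m : ℕ} {M : ℝ} {f : ℂ → F} (h : CBdd (m + 1) M f) :
    CBdd m M (fderivWithin ℝ f D) := by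
  obtain ⟨h1, h2⟩ := h
  refine ⟨(Basic_cd.1 h1).2, fun j hj z hz => ?_⟩
  rw [norm_iteratedFDerivWithin_fderivWithin D_unique hz]
  exact h2 (j + 1) (Nat.succ_le_succ hj) z hz

theorem cbdd_zero {m : ℕ} {M : ℝ} {f : ℂ → F} (h : CBdd m M f) (z : ℂ) (hz : z ∈ D) :
    ‖f z‖ ≤ M := by
  have h1 := h.2 0 (Nat.zero_le _) z hz
  rwa [norm_iteratedFDerivWithin_zero] at h1

theorem cbdd_one {m : ℕ} {M : ℝ} {f : ℂ → F} (h : CBdd (m + 1) M f) (z : ℂ) (hz : z ∈ D) :
    ‖fderivWithin ℝ f D z‖ ≤ M := cbdd_zero (cbdd_succ h) z hz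

theorem CBdd.mono {m k : ℕ} {M M' : ℝ} {f : ℂ → F} (h : CBdd m M f) (hk : k ≤ m)
    (hM : M ≤ M') : CBdd k M' f := by
  have hk' : (k : WithTop ℕ∞) ≤ m := by exact_mod_cast hk
  exact ⟨h.1.of_le hk', fun j hj z hz => (h.2 j (hj.trans hk) z hz).trans hM⟩

/-- A `C^m` function has bounded derivatives. -/
theorem exists_cbdd {m : ℕ} {f : ℂ → F} (h : ContDiffOn ℝ m f D) :
    ∃ M : ℝ, CBdd m M f := by
  have h1 : ∀ j : ℕ, ∃ C : ℝ, j ≤ m → ∀ z ∈ D, ‖iteratedFDerivWithin ℝ j f D z‖ ≤ C := by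
    intro j
    by_cases hj : j ≤ m
    · have hj' : (j : WithTop ℕ∞) ≤ m := by exact_mod_cast hj
      have h2 : ContinuousOn (iteratedFDerivWithin ℝ j f D) D :=
        h.continuousOn_iteratedFDerivWithin hj' D_unique
      obtain ⟨C, hC⟩ := D_compact.exists_bound_of_continuousOn h2
      exact ⟨C, fun _ => hC⟩
    · exact ⟨0, fun h => absurd h hj⟩
  choose C hC using h1
  refine ⟨∑ j ∈ Finset.range (m + 1), |C j|, h, fun j hj z hz => ?_⟩
  calc ‖iteratedFDerivWithin ℝ j f D z‖ ≤ C j := hC j hj z hz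
    _ ≤ |C j| := le_abs_self _
    _ ≤ _ := Finset.single_le_sum (f := fun j => |C j|) (fun _ _ => abs_nonneg _)
        (Finset.mem_range.2 (Nat.lt_succ_of_le hj))

theorem CTend.cbdd {m : ℕ} {M : ℝ} {f : ℕ → ℂ → F} {g : ℂ → F} (h : CTend m f g)
    (hb : ∀ n, CBdd m M (f n)) : CBdd m M g := by
  refine ⟨h.2.1, fun j hj z hz => ?_⟩
  have h1 := (h.2.2 j hj).tendsto_at hz
  exact le_of_tendsto h1.norm (Filter.Eventually.of_forall fun n => (hb n).2 j hj z hz)

/-- A convergent sequence is eventually close. -/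
theorem CTend.close {m : ℕ} {f : ℕ → ℂ → F} {g : ℂ → F} (h : CTend m f g) (ε : ℝ)
    (hε : 0 < ε) : ∀ᶠ n in atTop, CClose m ε (f n) g := by
  have h1 : ∀ j ∈ Finset.range (m + 1), ∀ᶠ n in atTop, ∀ z ∈ D,
      ‖iteratedFDerivWithin ℝ j (f n) D z - iteratedFDerivWithin ℝ j g D z‖ < ε := by
    intro j hj
    have h2 := h.2.2 j (Nat.le_of_lt_succ (Finset.mem_range.1 hj))
    rw [Metric.tendstoUniformlyOn_iff] at h2
    filter_upwards [h2 ε hε] with n hn z hz
    have h3 := hn z hz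
    rwa [dist_comm, dist_eq_norm] at h3
  filter_upwards [(Filter.eventually_all_finset _).2 h1] with n hn j hj z hz
  exact hn j (Finset.mem_range.2 (Nat.lt_succ_of_le hj)) z hz

theorem ctend_of_close {m : ℕ} {f : ℕ → ℂ → F} {g : ℂ → F}
    (hf : ∀ n, ContDiffOn ℝ m (f n) D) (hg : ContDiffOn ℝ m g D)
    (h : ∀ ε : ℝ, 0 < ε → ∀ᶠ n in atTop, CClose m ε (f n) g) : CTend m f g := by
  refine ⟨hf, hg, fun j hj => ?_⟩
  rw [Metric.tendstoUniformlyOn_iff]
  intro ε hε
  filter_upwards [h ε hε] with n hn z hz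
  rw [dist_comm, dist_eq_norm]
  exact hn j hj z hz

end Pool.H44.PF
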