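import Pool.Agent.H44.PF.InvReg

/-!
MODULE Bdry (about 80 lines).  A `C^1` diffeomorphism of `D` maps the circle onto the circle.
PROOF.  Let `(f, g)` be an `InvPair`, `f` of class `C^1` on `D`, `dt f ≠ 0`.  If `‖z‖ < 1` then `f` is `C^1` near `z` with invertible derivative, so `f` maps neighbourhoods of `z` to neighbourhoods of
`f z` (`HasStrictFDerivAt.map_nhds_eq_of_equiv`), and small neighbourhoods of `z` lie in `D`, their images in `D`: `f z` is in the interior of `D`, `‖f z‖ < 1`.  The same for `g`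
(`InvPair.contDiffOn_right`, `InvPair.dt_right`): so `‖z‖ = 1` implies `‖f z‖ = 1`.
-/

set_option autoImplicit false

open Set Filter MeasureTheory

open scoped ContDiff

namespace Pool.H44.PF

private theorem Bdry_D_nhds (z : ℂ) (hz : ‖z‖ < 1) : D ∈ nhds z := by
  have h1 : z ∈ Metric.ball (0 : ℂ) 1 := by simpa using hz
  exact mem_of_superset (Metric.isOpen_ball.mem_nhds h1) Metric.ball_subset_closedBall

theorem InvPair.norm_lt {f g : ℂ → ℂ} (h : InvPair f g) (hf : ContDiffOn ℝ 1 f D)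
    (hd : ∀ z ∈ D, dt f z ≠ 0) (z : ℂ) (hz : ‖z‖ < 1) : ‖f z‖ < 1 := by
  have hDn : D ∈ nhds z := Bdry_D_nhds z hz
  have hzD : z ∈ D := mem_of_mem_nhds hDn
  have hc : ContDiffAt ℝ 1 f z := hf.contDiffAt hDn
  obtain ⟨A, hA⟩ := isInvertible_of_det _ (hd z hzD)
  have h1 : fderivWithin ℝ f D z = fderiv ℝ f z := fderivWithin_of_mem_nhds hDn
  have h2 : HasStrictFDerivAt f (A : ℂ →L[ℝ] ℂ) z := by
    rw [hA, h1]
    exact hc.hasStrictFDerivAt one_ne_zero
  have h3 : map f (nhds z) = nhds (f z) := h2.map_nhds_eq_of_equiv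
  have h4 : D ∈ nhds (f z) := by
    rw [← h3, mem_map]
    exact mem_of_superset hDn fun w hw => h.mf hw
  have h5 : f z ∈ interior D := mem_interior_iff_mem_nhds.2 h4
  have h6 : interior D = Metric.ball (0 : ℂ) 1 := interior_closedBall (0 : ℂ) one_ne_zero
  rw [h6] at h5
  simpa using h5

theorem InvPair.norm_eq {f g : ℂ → ℂ} (h : InvPair f g) (hf : ContDiffOn ℝ 1 f D)
    (hd : ∀ z ∈ D, dt f z ≠ 0) (z : ℂ) (hz : ‖z‖ = 1) : ‖f z‖ = 1 := by
  have hzD : z ∈ D := by
    simp [D, hz]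
  have h0 : f z ∈ D := h.mf hzD
  have h1 : ‖f z‖ ≤ 1 := by simpa [D] using h0
  refine le_antisymm h1 (not_lt.1 fun h2 => ?_)
  have hsym : InvPair g f := ⟨h.mg, h.mf, h.fg, h.gf⟩
  have hg : ContDiffOn ℝ 1 g D := by
    have := h.contDiffOn_right (m := 1) le_rfl (by exact_mod_cast hf) hd
    exact_mod_cast this
  have hgd : ∀ w ∈ D, dt g w ≠ 0 := by
    intro w hw
    rw [h.dt_right hf hd w hw]
    exact inv_ne_zero (hd _ (h.mg hw))
  have h3 := hsym.norm_lt hg hgd (f z) h2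
  rw [h.gf z hzD, hz] at h3
  exact lt_irrefl _ h3

end Pool.H44.PF
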