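import Pool.Agent.H44.PF.AvC
import Pool.Agent.H44.PF.Alg

/-!
MODULE Circ (about 150 lines).  `C^m` convergence of `rb`, `rt`, `uu`, `MM`, `KK` (paper H1).
PROOFS.  Write the interval integrals as set integrals over `Icc 0 1` (`intervalIntegral.integral_of_le`,
`integral_Icc_eq_integral_Ioc`): `rb ρ z = Av volume (Icc 0 1) (fun _ => id) e 0 ρ z`; `uu = 2 π Av .. (fun s => (s - 1/2) • id) e 0 (rt ρ)`;
`MM = Av .. (fun s => (2 s) • id) (fun s => s) 0 (rb ρ)`.  `|e s z| = |z|`, `|s z| ≤ |z|`.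
Positivity: `rb` is an integral of a continuous positive function; same for `MM` (`MM ρ z ≥ min rb`, `∫ 2 τ = 1`).
`rt = ρ / rb - 1` : `CTend.div`.  `KK`: `CTend.comp_left` with the smooth function `(z,(M,u)) ↦ z * sqrt M * exp(iu)` on the open set `M > 0`.
Regularity for a single `ρ`: constant sequences (`ctend_const`).
-/

set_option autoImplicit false

open Set Filter MeasureTheory

open scoped ContDiff

namespace Pool.H44.PF

theorem norm_e (t : ℝ) : ‖e t‖ = 1 := Complex.norm_exp_ofReal_mul_I _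

theorem e_add (s t : ℝ) : e (s + t) = e s * e t := by
  unfold e
  rw [← Complex.exp_add]
  congr 1
  push_cast
  ring

theorem e_one : e 1 = 1 := by
  unfold e
  rw [mul_one]
  push_cast
  exact Complex.exp_two_pi_mul_I

theorem e_eq_one_iff (t : ℝ) : e t = 1 ↔ ∃ n : ℤ, t = n := by
  unfold e
  rw [Complex.exp_eq_one_iff]
  have hπ : (Real.pi : ℂ) ≠ 0 := by exact_mod_cast Real.pi_ne_zero
  constructor
  · rintro ⟨n, hn⟩
    refine ⟨n, ?_⟩
    have h2 : ((2 * Real.pi * t : ℝ) : ℂ) = n * (2 * Real.pi) := by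
      apply mul_right_cancel₀ Complex.I_ne_zero
      rw [hn]; ring
    have h3 : (2 * Real.pi * t : ℝ) = n * (2 * Real.pi) := by exact_mod_cast h2
    have h4 : (2 * Real.pi) * t = (2 * Real.pi) * n := by rw [h3]; ring
    exact mul_left_cancel₀ (by positivity) h4
  · rintro ⟨n, rfl⟩
    refine ⟨n, ?_⟩
    push_cast
    ring

theorem contDiff_e : ContDiff ℝ ∞ e := by
  unfold e
  have h1 : ContDiff ℝ ∞ (fun t : ℝ => ((2 * Real.pi * t : ℝ) : ℂ) * Complex.I) := by
    have : ContDiff ℝ ∞ (fun t : ℝ => ((2 * Real.pi * t : ℝ) : ℂ)) :=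
      Complex.ofRealCLM.contDiff.comp (contDiff_const.mul contDiff_id)
    exact this.mul contDiff_const
  exact h1.cexp

theorem hasDerivAt_e (t : ℝ) :
    HasDerivAt e (2 * Real.pi * Complex.I * e t) t := by
  unfold e
  have h1 : HasDerivAt (fun t : ℝ => 2 * Real.pi * t) (2 * Real.pi) t := by
    simpa using (hasDerivAt_id t).const_mul (2 * Real.pi)
  have h2 : HasDerivAt (fun t : ℝ => ((2 * Real.pi * t : ℝ) : ℂ) * Complex.I)
      (((2 * Real.pi : ℝ) : ℂ) * Complex.I) t := h1.ofReal_comp.mul_const _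
  have h3 := h2.cexp
  refine h3.congr_deriv ?_
  push_cast
  ring

private theorem Circ_e_mem (s : ℝ) {z : ℂ} (hz : z ∈ D) : e s * z ∈ D := by
  rw [mem_closedBall_zero_iff] at hz ⊢
  rw [norm_mul, norm_e, one_mul]
  exact hz

private theorem Circ_r_mem {s : ℝ} (hs : s ∈ Icc (0 : ℝ) 1) {z : ℂ} (hz : z ∈ D) :
    (s : ℂ) * z ∈ D := by
  rw [mem_closedBall_zero_iff] at hz ⊢
  rw [norm_mul, Complex.norm_real, Real.norm_of_nonneg hs.1]
  calc s * ‖z‖ ≤ 1 * 1 := mul_le_mul hs.2 hz (norm_nonneg _) zero_le_one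
    _ = 1 := one_mul _

private noncomputable def Circ_L (c : ℝ → ℝ) (s : ℝ) : ℝ →L[ℝ] ℝ :=
  c s • ContinuousLinearMap.id ℝ ℝ

private theorem Circ_ok {c : ℝ → ℝ} (hc : Continuous c) :
    AvOK (Icc (0 : ℝ) 1) (Circ_L c) e (fun _ => 0) where
  comp := isCompact_Icc
  cL := (hc.smul continuous_const).continuousOn
  ca := contDiff_e.continuous.continuousOn
  cb := continuousOn_const
  maps := fun s _ z hz => by
    rw [add_zero]
    exact Circ_e_mem s hz

private theorem Circ_ok' {c : ℝ → ℝ} (hc : Continuous c) :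
    AvOK (Icc (0 : ℝ) 1) (Circ_L c) (fun s => (s : ℂ)) (fun _ => 0) where
  comp := isCompact_Icc
  cL := (hc.smul continuous_const).continuousOn
  ca := Complex.continuous_ofReal.continuousOn
  cb := continuousOn_const
  maps := fun s hs z hz => by
    rw [add_zero]
    exact Circ_r_mem hs hz

private theorem Circ_int (c : ℝ → ℝ) (a : ℝ → ℂ) (g : ℂ → ℝ) (z : ℂ) :
    Av volume (Icc (0 : ℝ) 1) (Circ_L c) a (fun _ => 0) g z
      = ∫ s in (0 : ℝ)..1, c s * g (a s * z) := by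
  rw [intervalIntegral.integral_of_le zero_le_one, ← integral_Icc_eq_integral_Ioc]
  unfold Av Circ_L
  simp only [add_zero, _root_.smul_apply, ContinuousLinearMap.id_apply, smul_eq_mul]

private theorem Circ_rb (ρ : ℂ → ℝ) :
    Av volume (Icc (0 : ℝ) 1) (Circ_L fun _ => 1) e (fun _ => 0) ρ = rb ρ := by
  funext z
  rw [Circ_int]
  unfold rb
  simp only [one_mul]

private theorem Circ_MM (ρ : ℂ → ℝ) :
    Av volume (Icc (0 : ℝ) 1) (Circ_L fun s => 2 * s) (fun s => (s : ℂ)) (fun _ => 0) (rb ρ)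
      = MM ρ := by
  funext z
  rw [Circ_int]
  rfl

private theorem Circ_uu (ρ : ℂ → ℝ) (z : ℂ) :
    uu ρ z = 2 * Real.pi *
      Av volume (Icc (0 : ℝ) 1) (Circ_L fun s => s - 1 / 2) e (fun _ => 0) (rt ρ) z := by
  rw [Circ_int]
  rfl

theorem ctend_rb {m : ℕ} {f : ℕ → ℂ → ℝ} {g : ℂ → ℝ} (h : CTend m f g) :
    CTend m (fun n => rb (f n)) (rb g) := by
  have h1 := h.av volume (Circ_ok (c := fun _ => 1) continuous_const)
  simp only [Circ_rb] at h1
  exact h1

theorem rb_pos {ρ : ℂ → ℝ} (hc : ContinuousOn ρ D) (hp : ∀ z ∈ D, 0 < ρ z) (z : ℂ)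
    (hz : z ∈ D) : 0 < rb ρ z := by
  unfold rb
  refine intervalIntegral.intervalIntegral_pos_of_pos_on ?_
    (fun s _ => hp _ (Circ_e_mem s hz)) zero_lt_one
  exact (hc.comp_continuous (contDiff_e.continuous.mul continuous_const)
    (fun s => Circ_e_mem s hz)).intervalIntegrable _ _

private theorem Circ_rb_cont {ρ : ℂ → ℝ} (hc : ContinuousOn ρ D) : ContinuousOn (rb ρ) D := by
  rw [← Circ_rb]
  exact av_cont volume (Circ_ok (c := fun _ => 1) continuous_const) hc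

theorem MM_pos {ρ : ℂ → ℝ} (hc : ContinuousOn ρ D) (hp : ∀ z ∈ D, 0 < ρ z) (z : ℂ)
    (hz : z ∈ D) : 0 < MM ρ z := by
  unfold MM
  refine intervalIntegral.intervalIntegral_pos_of_pos_on ?_ (fun s hs => ?_) zero_lt_one
  · apply ContinuousOn.intervalIntegrable
    rw [uIcc_of_le zero_le_one]
    refine (continuousOn_const.mul continuousOn_id).mul ?_
    exact (Circ_rb_cont hc).comp
      (Complex.continuous_ofReal.mul continuous_const).continuousOn
      (fun s hs => Circ_r_mem hs hz)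
  · exact mul_pos (mul_pos two_pos hs.1)
      (rb_pos hc hp _ (Circ_r_mem ⟨hs.1.le, hs.2.le⟩ hz))

theorem ctend_rt {m : ℕ} {f : ℕ → ℂ → ℝ} {g : ℂ → ℝ} (h : CTend m f g)
    (hf : ∀ n, ∀ z ∈ D, 0 < f n z) (hg : ∀ z ∈ D, 0 < g z) :
    CTend m (fun n => rt (f n)) (rt g) := by
  have h1 := CTend.div h (ctend_rb h)
    (fun n z hz => (rb_pos (h.1 n).continuousOn (hf n) z hz).ne')
    (fun z hz => (rb_pos h.2.1.continuousOn hg z hz).ne')
  exact CTend.sub h1 (ctend_const (g := fun _ => (1 : ℝ)) contDiffOn_const)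

theorem ctend_uu {m : ℕ} {f : ℕ → ℂ → ℝ} {g : ℂ → ℝ} (h : CTend m f g)
    (hf : ∀ n, ∀ z ∈ D, 0 < f n z) (hg : ∀ z ∈ D, 0 < g z) :
    CTend m (fun n => uu (f n)) (uu g) := by
  have h1 := (ctend_rt h hf hg).av volume
    (Circ_ok (c := fun s => s - 1 / 2) (continuous_id.sub continuous_const))
  have h2 := h1.clm ((2 * Real.pi) • ContinuousLinearMap.id ℝ ℝ)
  exact h2.congr (fun n z _ => (Circ_uu (f n) z).symm) (fun z _ => (Circ_uu g z).symm)

theorem ctend_MM {m : ℕ} {f : ℕ → ℂ → ℝ} {g : ℂ → ℝ} (h : CTend m f g) :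
    CTend m (fun n => MM (f n)) (MM g) := by
  have h1 := (ctend_rb h).av volume
    (Circ_ok' (c := fun s => 2 * s) (continuous_const.mul continuous_id))
  simp only [Circ_MM] at h1
  exact h1

theorem ctend_KK {m : ℕ} {f : ℕ → ℂ → ℝ} {g : ℂ → ℝ} (h : CTend m f g)
    (hf : ∀ n, ∀ z ∈ D, 0 < f n z) (hg : ∀ z ∈ D, 0 < g z) :
    CTend m (fun n => KK (f n)) (KK g) := by
  have h0 : CTend m (fun _ : ℕ => fun z : ℂ => z) (fun z => z) := ctend_const contDiffOn_id
  have h1 := h0.prodMk ((ctend_MM h).prodMk (ctend_uu h hf hg))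
  have hU : IsOpen {p : ℂ × (ℝ × ℝ) | 0 < p.2.1} :=
    isOpen_lt continuous_const (continuous_fst.comp continuous_snd)
  have h2 := h1.comp_left (Φ := fun p : ℂ × (ℝ × ℝ) =>
      p.1 * (Real.sqrt p.2.1 : ℂ) * Complex.exp ((p.2.2 : ℂ) * Complex.I)) hU ?_
      (fun n z hz => MM_pos (h.1 n).continuousOn (hf n) z hz)
      (fun z hz => MM_pos h.2.1.continuousOn hg z hz)
  · exact h2
  · have h3 : ContDiffOn ℝ m (fun p : ℂ × (ℝ × ℝ) => Real.sqrt p.2.1)
        {p : ℂ × (ℝ × ℝ) | 0 < p.2.1} :=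
      ContDiffOn.sqrt (contDiff_fst.comp contDiff_snd).contDiffOn (fun p hp => ne_of_gt hp)
    have h4 : ContDiffOn ℝ m (fun p : ℂ × (ℝ × ℝ) => (Real.sqrt p.2.1 : ℂ))
        {p : ℂ × (ℝ × ℝ) | 0 < p.2.1} := Complex.ofRealCLM.contDiff.comp_contDiffOn h3
    have h5 : ContDiffOn ℝ m (fun p : ℂ × (ℝ × ℝ) => Complex.exp ((p.2.2 : ℂ) * Complex.I))
        {p : ℂ × (ℝ × ℝ) | 0 < p.2.1} := by
      refine ContDiff.contDiffOn (ContDiff.cexp (ContDiff.mul ?_ contDiff_const))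
      exact Complex.ofRealCLM.contDiff.comp (contDiff_snd.comp contDiff_snd)
    exact (contDiffOn_fst.mul h4).mul h5

end Pool.H44.PF
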