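import Pool.Agent.H44.PF.Basic

/-!
MODULE CompL (about 120 lines).  `C^m` convergence and smooth outer functions.
PROOF of `CTend.comp_left` by induction on `m`, for all `F`, `G`, `Φ` at once.
Level 0: `g(D)` is a compact subset of the open set `U`; by `IsCompact.uniformContinuousAt_of_continuousAt` for every `ε` there is `δ`
with `‖Φ x - Φ y‖ < ε` for `x ∈ g(D)`, `‖x - y‖ < δ`.
Step: for `z ∈ D`, `fderivWithin (Φ ∘ f) D z = (fderiv Φ (f z)).comp (fderivWithin f D z)` (`HasFDerivAt.comp_hasFDerivWithinAt`, `Φ` is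
differentiable at the points of the open set `U`).  `fderiv ℝ Φ` is `C^m` on `U` (`contDiffOn_succ_iff_fderiv_of_isOpen`), so
`fderiv Φ (f n z)` converges in `C^m` by the induction hypothesis; `fderivWithin (f n) D` converges in `C^m`; so does the pair
(`CTend.prodMk`), and the composition of linear maps is a smooth (bilinear) function of the pair, defined on the open set `univ`:
induction hypothesis again (`isBoundedBilinearMap_comp.contDiff`).
`prodMk`: by induction on `m`, with `fderivWithin (z ↦ (f z, f' z)) = (fderivWithin f).prod (fderivWithin f')`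
(`DifferentiableWithinAt.fderivWithin_prodMk`); `.prod` is the image of the pair under the
linear isometry `ContinuousLinearMap.prodₗᵢ`, so prove first `CTend.clm` (composition with a continuous linear map `L`, by induction:
`fderivWithin (L ∘ f) = L ∘ fderivWithin f = (compL L) (fderivWithin f)`).
-/

set_option autoImplicit false

open Set Filter

open scoped ContDiff

namespace Pool.H44.PF

private theorem CompL_clm (m : ℕ) : ∀ {F G : Type} [NormedAddCommGroup F] [NormedSpace ℝ F]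
    [NormedAddCommGroup G] [NormedSpace ℝ G] {f : ℕ → ℂ → F} {g : ℂ → F}
    (_ : CTend m f g) (L : F →L[ℝ] G),
    CTend m (fun n z => L (f n z)) (fun z => L (g z)) := by
  induction m with
  | zero =>
    intro F G _ _ _ _ f g h L
    rw [ctend_zero_iff] at h ⊢
    refine ⟨fun n => L.continuous.comp_continuousOn (h.1 n),
      L.continuous.comp_continuousOn h.2.1, ?_⟩
    exact L.uniformContinuous.comp_tendstoUniformlyOn h.2.2
  | succ m ih =>
    intro F G _ _ _ _ f g h L
    rw [ctend_succ_iff] at h ⊢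
    obtain ⟨h1, h2, h3, h4⟩ := h
    refine ⟨fun n => L.differentiable.comp_differentiableOn (h1 n),
      L.differentiable.comp_differentiableOn h2,
      L.uniformContinuous.comp_tendstoUniformlyOn h3, ?_⟩
    have key : ∀ φ : ℂ → F, DifferentiableOn ℝ φ D →
        EqOn (fun z => (ContinuousLinearMap.compL ℝ ℂ F G L) (fderivWithin ℝ φ D z))
          (fderivWithin ℝ (fun z => L (φ z)) D) D := by
      intro φ hφ z hz
      have h5 : HasFDerivWithinAt (fun z => L (φ z)) (L.comp (fderivWithin ℝ φ D z)) D z :=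
        L.hasFDerivAt.comp_hasFDerivWithinAt z (hφ z hz).hasFDerivWithinAt
      exact (h5.fderivWithin (D_unique z hz)).symm
    exact (ih h4 (ContinuousLinearMap.compL ℝ ℂ F G L)).congr (fun n => key _ (h1 n))
      (key _ h2)

private theorem CompL_prod (m : ℕ) : ∀ {F F' : Type} [NormedAddCommGroup F] [NormedSpace ℝ F]
    [NormedAddCommGroup F'] [NormedSpace ℝ F'] {f : ℕ → ℂ → F} {g : ℂ → F}
    {f' : ℕ → ℂ → F'} {g' : ℂ → F'} (_ : CTend m f g) (_ : CTend m f' g'),
    CTend m (fun n z => (f n z, f' n z)) (fun z => (g z, g' z)) := by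
  have key0 : ∀ {F F' : Type} [NormedAddCommGroup F] [NormedSpace ℝ F]
      [NormedAddCommGroup F'] [NormedSpace ℝ F'] {f : ℕ → ℂ → F} {g : ℂ → F}
      {f' : ℕ → ℂ → F'} {g' : ℂ → F'}, TendstoUniformlyOn f g atTop D →
      TendstoUniformlyOn f' g' atTop D →
      TendstoUniformlyOn (fun n z => (f n z, f' n z)) (fun z => (g z, g' z)) atTop D := by
    intro F F' _ _ _ _ f g f' g' h h'
    rw [Metric.tendstoUniformlyOn_iff] at h h' ⊢
    intro ε hε
    filter_upwards [h ε hε, h' ε hε] with n hn hn' z hz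
    rw [Prod.dist_eq]
    exact max_lt (hn z hz) (hn' z hz)
  induction m with
  | zero =>
    intro F F' _ _ _ _ f g f' g' h h'
    rw [ctend_zero_iff] at h h' ⊢
    exact ⟨fun n => (h.1 n).prodMk (h'.1 n), h.2.1.prodMk h'.2.1, key0 h.2.2 h'.2.2⟩
  | succ m ih =>
    intro F F' _ _ _ _ f g f' g' h h'
    rw [ctend_succ_iff] at h h' ⊢
    obtain ⟨h1, h2, h3, h4⟩ := h
    obtain ⟨h1', h2', h3', h4'⟩ := h'
    refine ⟨fun n => (h1 n).prodMk (h1' n), h2.prodMk h2', key0 h3 h3', ?_⟩
    have key : ∀ (φ : ℂ → F) (φ' : ℂ → F'), DifferentiableOn ℝ φ D → DifferentiableOn ℝ φ' D →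
        EqOn (fun z => ((ContinuousLinearMap.prodₗᵢ ℝ).toContinuousLinearEquiv.toContinuousLinearMap :
            ((ℂ →L[ℝ] F) × (ℂ →L[ℝ] F')) →L[ℝ] (ℂ →L[ℝ] (F × F')))
            (fderivWithin ℝ φ D z, fderivWithin ℝ φ' D z))
          (fderivWithin ℝ (fun z => (φ z, φ' z)) D) D := by
      intro φ φ' hφ hφ' z hz
      rw [DifferentiableWithinAt.fderivWithin_prodMk (hφ z hz) (hφ' z hz) (D_unique z hz)]
      rfl
    exact (CompL_clm m (ih h4 h4') _).congr (fun n => key _ _ (h1 n) (h1' n)) (key _ _ h2 h2')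

private theorem CompL_left (m : ℕ) : ∀ {F G : Type} [NormedAddCommGroup F] [NormedSpace ℝ F]
    [NormedAddCommGroup G] [NormedSpace ℝ G] {f : ℕ → ℂ → F} {g : ℂ → F}
    (_ : CTend m f g) {Φ : F → G} {U : Set F} (_ : IsOpen U) (_ : ContDiffOn ℝ m Φ U)
    (_ : ∀ n, MapsTo (f n) D U) (_ : MapsTo g D U),
    CTend m (fun n z => Φ (f n z)) (fun z => Φ (g z)) := by
  have key0 : ∀ {F G : Type} [NormedAddCommGroup F] [NormedSpace ℝ F]
      [NormedAddCommGroup G] [NormedSpace ℝ G] {f : ℕ → ℂ → F} {g : ℂ → F},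
      TendstoUniformlyOn f g atTop D → ContinuousOn g D →
      ∀ {Φ : F → G} {U : Set F}, IsOpen U → ContinuousOn Φ U → MapsTo g D U →
      TendstoUniformlyOn (fun n z => Φ (f n z)) (fun z => Φ (g z)) atTop D := by
    intro F G _ _ _ _ f g h hg Φ U hU hΦ hm
    have hK : IsCompact (g '' D) := D_compact.image_of_continuousOn hg
    intro u hu
    have h1 := hK.uniformContinuousAt_of_continuousAt Φ (r := u) (fun a ha => by
      obtain ⟨z, hz, rfl⟩ := ha
      exact hΦ.continuousAt (hU.mem_nhds (hm hz))) hu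
    have h2 := h _ h1
    filter_upwards [h2] with n hn z hz
    exact hn z hz ⟨z, hz, rfl⟩
  induction m with
  | zero =>
    intro F G _ _ _ _ f g h Φ U hU hΦ hf hg
    rw [ctend_zero_iff] at h ⊢
    have hc : ContinuousOn Φ U := hΦ.continuousOn
    exact ⟨fun n => hc.comp (h.1 n) (hf n), hc.comp h.2.1 hg, key0 h.2.2 h.2.1 hU hc hg⟩
  | succ m ih =>
    intro F G _ _ _ _ f g h Φ U hU hΦ hf hg
    have hm : CTend m f g := h.mono (Nat.le_succ m)
    rw [ctend_succ_iff] at h ⊢
    obtain ⟨h1, h2, h3, h4⟩ := h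
    have hΦd : DifferentiableOn ℝ Φ U := hΦ.differentiableOn (by simp)
    have hΦ' : ContDiffOn ℝ m (fderiv ℝ Φ) U := by
      rw [Nat.cast_succ, contDiffOn_succ_iff_fderiv_of_isOpen hU] at hΦ
      exact hΦ.2.2
    refine ⟨fun n => hΦd.comp (h1 n) (hf n), hΦd.comp h2 hg,
      key0 h3 h2.continuousOn hU hΦ.continuousOn hg, ?_⟩
    have hA : CTend m (fun n z => fderiv ℝ Φ (f n z)) (fun z => fderiv ℝ Φ (g z)) :=
      ih hm hU hΦ' hf hg
    have hB := CompL_prod m hA h4
    have hC : ContDiff ℝ (m : WithTop ℕ∞)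
        (fun p : (F →L[ℝ] G) × (ℂ →L[ℝ] F) => p.1.comp p.2) :=
      isBoundedBilinearMap_comp.contDiff
    have hD := ih hB isOpen_univ hC.contDiffOn (fun n => mapsTo_univ _ _) (mapsTo_univ _ _)
    have key : ∀ φ : ℂ → F, DifferentiableOn ℝ φ D → MapsTo φ D U →
        EqOn (fun z => (fderiv ℝ Φ (φ z)).comp (fderivWithin ℝ φ D z))
          (fderivWithin ℝ (fun z => Φ (φ z)) D) D := by
      intro φ hφ hφU z hz
      have h5 : HasFDerivWithinAt (fun z => Φ (φ z))
          ((fderiv ℝ Φ (φ z)).comp (fderivWithin ℝ φ D z)) D z := by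
        have h6 : HasFDerivAt Φ (fderiv ℝ Φ (φ z)) (φ z) :=
          ((hΦd (φ z) (hφU hz)).differentiableAt (hU.mem_nhds (hφU hz))).hasFDerivAt
        exact h6.comp_hasFDerivWithinAt z (hφ z hz).hasFDerivWithinAt
      exact (h5.fderivWithin (D_unique z hz)).symm
    exact hD.congr (fun n => key _ (h1 n) (hf n)) (key _ h2 hg)

variable {F G F' : Type} [NormedAddCommGroup F] [NormedSpace ℝ F] [NormedAddCommGroup G]
  [NormedSpace ℝ G] [NormedAddCommGroup F'] [NormedSpace ℝ F']

theorem CTend.clm {m : ℕ} {f : ℕ → ℂ → F} {g : ℂ → F} (h : CTend m f g) (L : F →L[ℝ] G) :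
    CTend m (fun n z => L (f n z)) (fun z => L (g z)) := CompL_clm m h L

theorem CTend.prodMk {m : ℕ} {f : ℕ → ℂ → F} {g : ℂ → F} {f' : ℕ → ℂ → F'} {g' : ℂ → F'}
    (h : CTend m f g) (h' : CTend m f' g') :
    CTend m (fun n z => (f n z, f' n z)) (fun z => (g z, g' z)) := CompL_prod m h h'

theorem CTend.comp_left {m : ℕ} {f : ℕ → ℂ → F} {g : ℂ → F} (h : CTend m f g)
    {Φ : F → G} {U : Set F} (hU : IsOpen U) (hΦ : ContDiffOn ℝ m Φ U)
    (hf : ∀ n, MapsTo (f n) D U) (hg : MapsTo g D U) :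
    CTend m (fun n z => Φ (f n z)) (fun z => Φ (g z)) := CompL_left m h hU hΦ hf hg

end Pool.H44.PF
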