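import Pool.Agent.H44.PF.Alg

/-!
MODULE CompR (about 90 lines).  Composition with inner maps of `D`.
PROOF of `CTend.comp_right` by induction on `m` for all `F`: level 0: `‖f n (u n z) - g (v z)‖ ≤ ‖f n (u n z) - g (u n z)‖ + ‖g (u n z) - g (v z)‖`,
`g` is uniformly continuous on the compact `D`.  Step: `fderivWithin (f ∘ u) D z = (fderivWithin f D (u z)).comp (fderivWithin u D z)`
(`fderivWithin_comp` with `MapsTo u D D`, `D_unique`), induction hypothesis for `fderivWithin (f n) D` (values in linear maps) and `CTend.clm_comp`.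
`dt_comp`: chain rule and `ContinuousLinearMap.det` of a composition (`LinearMap.det_comp`).
-/

set_option autoImplicit false

open Set Filter

open scoped ContDiff

namespace Pool.H44.PF

variable {F : Type} [NormedAddCommGroup F] [NormedSpace ℝ F]

omit [NormedSpace ℝ F] in
theorem comp_right_zero {f : ℕ → ℂ → F} {g : ℂ → F}
    {u : ℕ → ℂ → ℂ} {v : ℂ → ℂ} (hg : ContinuousOn g D) (hfg : TendstoUniformlyOn f g atTop D)
    (huv : TendstoUniformlyOn u v atTop D) (mu : ∀ n, MapsTo (u n) D D)
    (mv : MapsTo v D D) :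
    TendstoUniformlyOn (fun n z => f n (u n z)) (fun z => g (v z)) atTop D := by
  rw [Metric.tendstoUniformlyOn_iff] at hfg huv ⊢
  intro ε hε
  have hu := D_compact.uniformContinuousOn_of_continuous hg
  rw [Metric.uniformContinuousOn_iff] at hu
  obtain ⟨δ, hδ, hu⟩ := hu (ε / 2) (half_pos hε)
  filter_upwards [hfg (ε / 2) (half_pos hε), huv δ hδ] with n h1 h2 z hz
  have h3 := h1 (u n z) (mu n hz)
  have h4 := hu (v z) (mv hz) (u n z) (mu n hz) (h2 z hz)
  calc dist (g (v z)) (f n (u n z)) ≤ dist (g (v z)) (g (u n z)) + dist (g (u n z)) (f n (u n z)) :=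
        dist_triangle _ _ _
    _ < ε / 2 + ε / 2 := add_lt_add h4 h3
    _ = ε := add_halves ε

theorem fderivWithin_comp_D {f : ℂ → F} {g : ℂ → ℂ} (hf : DifferentiableOn ℝ f D)
    (hg : DifferentiableOn ℝ g D) (mg : MapsTo g D D) (z : ℂ) (hz : z ∈ D) :
    fderivWithin ℝ (fun w => f (g w)) D z =
      (fderivWithin ℝ f D (g z)).comp (fderivWithin ℝ g D z) :=
  fderivWithin_comp z (hf (g z) (mg hz)) (hg z hz) mg (D_unique z hz)

theorem CTend.comp_right {m : ℕ} {f : ℕ → ℂ → F} {g : ℂ → F} (h : CTend m f g)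
    {u : ℕ → ℂ → ℂ} {v : ℂ → ℂ} (hu : CTend m u v) (mu : ∀ n, MapsTo (u n) D D)
    (mv : MapsTo v D D) : CTend m (fun n z => f n (u n z)) (fun z => g (v z)) := by
  induction m generalizing F with
  | zero =>
    rw [ctend_zero_iff] at h hu ⊢
    exact ⟨fun n => (h.1 n).comp (hu.1 n) (mu n), h.2.1.comp hu.2.1 mv,
      comp_right_zero h.2.1 h.2.2 hu.2.2 mu mv⟩
  | succ m ih =>
    have hu' := hu.mono (Nat.le_succ m)
    rw [ctend_succ_iff] at h hu ⊢
    obtain ⟨a1, a2, a3, a4⟩ := h
    obtain ⟨b1, b2, b3, b4⟩ := hu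
    refine ⟨fun n => (a1 n).comp (b1 n) (mu n), a2.comp b2 mv,
      comp_right_zero a2.continuousOn a3 b3 mu mv, ?_⟩
    refine CTend.congr (CTend.clm_comp (ih a4 hu') b4) ?_ ?_
    · intro n z hz
      exact (fderivWithin_comp_D (a1 n) (b1 n) (mu n) z hz).symm
    · intro z hz
      exact (fderivWithin_comp_D a2 b2 mv z hz).symm

theorem CTend.iterate {m : ℕ} {f : ℕ → ℂ → ℂ} {g : ℂ → ℂ} (h : CTend m f g)
    (mf : ∀ n, MapsTo (f n) D D) (mg : MapsTo g D D) (q : ℕ) :
    CTend m (fun n z => (f n)^[q] z) (fun z => g^[q] z) := by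
  induction q with
  | zero =>
    have : ContDiffOn ℝ m (fun z : ℂ => z) D := contDiffOn_id
    exact ctend_const this
  | succ q ih =>
    have := h.comp_right ih (fun n => (mf n).iterate q) (mg.iterate q)
    simpa only [Function.iterate_succ_apply'] using this

theorem dt_comp {f g : ℂ → ℂ} (hf : DifferentiableOn ℝ f D) (hg : DifferentiableOn ℝ g D)
    (mg : MapsTo g D D) (z : ℂ) (hz : z ∈ D) :
    dt (fun w => f (g w)) z = dt f (g z) * dt g z := by
  unfold dt
  rw [fderivWithin_comp_D hf hg mg z hz]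
  exact LinearMap.det_comp _ _

theorem InvPair.symm {f g : ℂ → ℂ} (h : InvPair f g) : InvPair g f :=
  ⟨h.mg, h.mf, h.fg, h.gf⟩

theorem InvPair.comp {f g f' g' : ℂ → ℂ} (h : InvPair f g) (h' : InvPair f' g') :
    InvPair (fun z => f (f' z)) (fun z => g' (g z)) where
  mf := h.mf.comp h'.mf
  mg := h'.mg.comp h.mg
  gf z hz := by
    change g' (g (f (f' z))) = z
    rw [h.gf _ (h'.mf hz), h'.gf z hz]
  fg z hz := by
    change f (f' (g' (g z))) = z
    rw [h'.fg _ (h.mg hz), h.fg z hz]

theorem InvPair.iterate {f g : ℂ → ℂ} (h : InvPair f g) (q : ℕ) :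
    InvPair (fun z => f^[q] z) (fun z => g^[q] z) := by
  induction q with
  | zero => exact ⟨fun z hz => hz, fun z hz => hz, fun _ _ => rfl, fun _ _ => rfl⟩
  | succ q ih =>
    have h1 := h.comp ih
    have h2 : (fun z => g^[q] (g z)) = fun z => g^[q + 1] z := by
      funext z
      rw [Function.iterate_succ_apply]
    have h3 : (fun z => f (f^[q] z)) = fun z => f^[q + 1] z := by
      funext z
      rw [Function.iterate_succ_apply']
    rwa [h2, h3] at h1

theorem APD.comp {f g f' g' : ℂ → ℂ} (h : APD f g) (h' : APD f' g') :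
    APD (fun z => f (f' z)) (fun z => g' (g z)) where
  pair := h.pair.comp h'.pair
  sf := h.sf.comp h'.sf h'.pair.mf
  sg := h'.sg.comp h.sg h.pair.mg
  det z hz := by
    rw [dt_comp (h.sf.differentiableOn (by simp)) (h'.sf.differentiableOn (by simp)) h'.pair.mf z hz,
      h.det _ (h'.pair.mf hz), h'.det z hz, mul_one]

theorem APD.symm {f g : ℂ → ℂ} (h : APD f g) : APD g f where
  pair := h.pair.symm
  sf := h.sg
  sg := h.sf
  det z hz := by
    have h1 := dt_comp (h.sf.differentiableOn (by simp)) (h.sg.differentiableOn (by simp))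
      h.pair.mg z hz
    rw [h.det _ (h.pair.mg hz), one_mul] at h1
    rw [← h1]
    unfold dt
    have h2 : fderivWithin ℝ (fun w => f (g w)) D z = fderivWithin ℝ (fun w : ℂ => w) D z :=
      fderivWithin_congr (fun w hw => h.pair.fg w hw) (h.pair.fg z hz)
    rw [h2]
    have h3 : fderivWithin ℝ (fun w : ℂ => w) D z = ContinuousLinearMap.id ℝ ℂ :=
      fderivWithin_id (D_unique z hz)
    rw [h3]
    exact LinearMap.det_id

theorem norm_e_aux (t : ℝ) : ‖e t‖ = 1 := by
  unfold e
  rw [Complex.norm_exp_ofReal_mul_I]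

theorem e_mul_e_neg (t : ℝ) : e t * e (-t) = 1 := by
  unfold e
  rw [← Complex.exp_add, ← Complex.exp_zero]
  congr 1
  push_cast
  ring

/-- Rotations. -/
theorem apd_rot (t : ℝ) : APD (fun z => e t * z) (fun z => e (-t) * z) where
  pair := by
    refine ⟨?_, ?_, ?_, ?_⟩
    · intro z hz
      simp only [D, mem_closedBall_zero_iff] at hz ⊢
      rw [norm_mul, norm_e_aux, one_mul]
      exact hz
    · intro z hz
      simp only [D, mem_closedBall_zero_iff] at hz ⊢
      rw [norm_mul, norm_e_aux, one_mul]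
      exact hz
    · intro z _
      change e (-t) * (e t * z) = z
      rw [← mul_assoc, mul_comm (e (-t)), e_mul_e_neg, one_mul]
    · intro z _
      change e t * (e (-t) * z) = z
      rw [← mul_assoc, e_mul_e_neg, one_mul]
  sf := (contDiff_const.mul contDiff_id).contDiffOn
  sg := (contDiff_const.mul contDiff_id).contDiffOn
  det z hz := by
    unfold dt
    have h1 : HasFDerivWithinAt (fun z => e t * z)
        ((ContinuousLinearMap.mul ℝ ℂ) (e t)) D z :=
      ((ContinuousLinearMap.mul ℝ ℂ) (e t)).hasFDerivWithinAt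
    rw [h1.fderivWithin (D_unique z hz), det_formula]
    have h2 : (e t).re * (e t).re + (e t).im * (e t).im = 1 := by
      have := norm_e_aux t
      rw [← Complex.normSq_apply, Complex.normSq_eq_norm_sq, this, one_pow]
    simp only [ContinuousLinearMap.mul_apply', mul_one, Complex.mul_im, Complex.mul_re,
      Complex.I_re, Complex.I_im, mul_zero, zero_sub, mul_neg, sub_neg_eq_add, add_zero]
    linarith

/-- Rotations by convergent angles converge in `C^m`. -/
theorem ctend_rot (m : ℕ) {t : ℕ → ℝ} {s : ℝ} (h : Tendsto t atTop (nhds s)) :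
    CTend m (fun n z => e (t n) * z) (fun z => e s * z) := by
  have h1 : Tendsto (fun n => e (t n)) atTop (nhds (e s)) := by
    have h2 : Continuous e := by
      unfold e
      fun_prop
    exact (h2.tendsto s).comp h
  exact (ctend_of_tendsto h1).mul (ctend_const contDiffOn_id)

end Pool.H44.PF
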