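import Pool.Agent.H44.PF.Mol
import Pool.Agent.H44.PF.CompR

/-!
MODULE Cut (about 150 lines).  Smooth approximation of circle preserving maps (paper H2).
PROOF of `exists_smooth_approx`.  Cutoffs: `X : ℝ → ℝ` smooth, `X t = 0` for `t ≤ 1/4`, `X t = 1` for `t ≥ 1/2`, values in `[0,1]` (`Real.smoothTransition`);
`P z = z * κ(|z|^2)`, `κ t = (1 - Y t) + Y t / sqrt t`, `Y` smooth, `0` for `t ≤ 1/16`, `1` for `t ≥ 1/4`: `P` smooth, `P(D) ⊆ D`, `P z = z/|z|` for `|z|^2 ≥ 1/4`;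
`Φ t = Z t (1/sqrt t - 1)`, `Z` smooth, `0` for `t ≤ 1/4`, `1` for `t ≥ 1/2`: smooth on `ℝ`, `Φ 1 = 0`, `1 + Φ t = 1/sqrt t` for `t ≥ 1/2`.
`E_n = Mo n f`, `h_n z = E_n z * (1 + X(|z|^2) Φ(|E_n (P z)|^2))`.  `C^infinity` on `D`: all ingredients are.  `CTend m h f`: `CTend.comp_left`, `CTend.comp_right` (inner map `P`), `Alg`: the limit is
`f z (1 + X(|z|^2) Φ(|f (P z)|^2)) = f z` (where `X ≠ 0`, `P z` is on the circle, so `|f (P z)| = 1`, `Φ 1 = 0`).
For `|z| = 1`: `h_n z = E_n z / |E_n z|` as soon as `|E_n z|^2 ≥ 1/2` on the circle, true for `n ≥ N`; shift the sequence by `N`.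
-/

set_option autoImplicit false

open Set Filter MeasureTheory

open scoped ContDiff

namespace Pool.H44.PF

/-- cutoff: `0` for `t ≤ 1/4`, `1` for `t ≥ 1/2` -/
private noncomputable def cX (t : ℝ) : ℝ := Real.smoothTransition (4 * t - 1)

private theorem cX_smooth : ContDiff ℝ ∞ cX := by
  unfold cX
  exact Real.smoothTransition.contDiff.comp ((contDiff_const.mul contDiff_id).sub contDiff_const)

private theorem cX_zero {t : ℝ} (ht : t ≤ 1 / 4) : cX t = 0 :=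
  Real.smoothTransition.zero_of_nonpos (by linarith)

private theorem cX_one {t : ℝ} (ht : 1 / 2 ≤ t) : cX t = 1 :=
  Real.smoothTransition.one_of_one_le (by linarith)

/-- cutoff: `0` for `t ≤ 1/16`, `1` for `t ≥ 1/4` -/
private noncomputable def cY (t : ℝ) : ℝ := Real.smoothTransition ((16 * t - 1) / 3)

private theorem cY_smooth : ContDiff ℝ ∞ cY := by
  unfold cY
  exact Real.smoothTransition.contDiff.comp
    (((contDiff_const.mul contDiff_id).sub contDiff_const).div_const 3)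

private theorem cY_zero {t : ℝ} (ht : t ≤ 1 / 16) : cY t = 0 :=
  Real.smoothTransition.zero_of_nonpos (by linarith)

private theorem cY_one {t : ℝ} (ht : 1 / 4 ≤ t) : cY t = 1 :=
  Real.smoothTransition.one_of_one_le (by linarith)

/-- a smooth function times an inverse square root, if the first factor vanishes for small `t` -/
private theorem sm_aux {y : ℝ → ℝ} (hy : ContDiff ℝ ∞ y) (h0 : ∀ t ≤ 1 / 16, y t = 0) :
    ContDiff ℝ ∞ fun t => y t / Real.sqrt t := by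
  rw [contDiff_iff_contDiffAt]
  intro t
  by_cases ht : t < 1 / 16
  · have h1 : (fun t => y t / Real.sqrt t) =ᶠ[nhds t] fun _ => (0 : ℝ) := by
      filter_upwards [gt_mem_nhds ht] with s hs
      rw [h0 s (le_of_lt hs), zero_div]
    exact contDiffAt_const.congr_of_eventuallyEq h1
  · have h1 : 0 < t := by linarith
    exact hy.contDiffAt.div (Real.contDiffAt_sqrt h1.ne') (Real.sqrt_pos.2 h1).ne'

private noncomputable def cK (t : ℝ) : ℝ := (1 - cY t) + cY t / Real.sqrt t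

private theorem cK_smooth : ContDiff ℝ ∞ cK :=
  (contDiff_const.sub cY_smooth).add (sm_aux cY_smooth fun _ ht => cY_zero ht)

private theorem cK_eq {t : ℝ} (ht : 1 / 4 ≤ t) : cK t = 1 / Real.sqrt t := by
  unfold cK
  rw [cY_one ht, sub_self, zero_add]

private noncomputable def cP (z : ℂ) : ℂ := z * ((cK (‖z‖ ^ 2) : ℝ) : ℂ)

private theorem cP_smooth : ContDiff ℝ ∞ cP := by
  unfold cP
  exact contDiff_id.mul (Complex.ofRealCLM.contDiff.comp (cK_smooth.comp (contDiff_norm_sq ℝ)))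

private theorem norm_cP (z : ℂ) (hz : 1 / 4 ≤ ‖z‖ ^ 2) : ‖cP z‖ = 1 := by
  unfold cP
  have h0 : 0 < ‖z‖ := by
    by_contra h
    have h1 : ‖z‖ = 0 := le_antisymm (not_lt.1 h) (norm_nonneg z)
    rw [h1] at hz
    norm_num at hz
  rw [cK_eq hz, Real.sqrt_sq (norm_nonneg z), norm_mul, Complex.norm_real, Real.norm_eq_abs,
    abs_of_pos (by positivity), mul_one_div_cancel h0.ne']

private theorem cP_circle (z : ℂ) (hz : ‖z‖ = 1) : cP z = z := by
  unfold cP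
  rw [hz, cK_eq (by norm_num)]
  simp

private theorem cP_maps : MapsTo cP D D := by
  intro z hz
  rw [Metric.mem_closedBall, dist_zero_right] at hz ⊢
  have hY0 : 0 ≤ cY (‖z‖ ^ 2) := Real.smoothTransition.nonneg _
  have hY1 : cY (‖z‖ ^ 2) ≤ 1 := Real.smoothTransition.le_one _
  unfold cP
  rw [norm_mul, Complex.norm_real, Real.norm_eq_abs]
  have hK : cK (‖z‖ ^ 2) = (1 - cY (‖z‖ ^ 2)) + cY (‖z‖ ^ 2) / ‖z‖ := by
    unfold cK
    rw [Real.sqrt_sq (norm_nonneg z)]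
  have hK0 : 0 ≤ cK (‖z‖ ^ 2) := by
    rw [hK]
    have : 0 ≤ cY (‖z‖ ^ 2) / ‖z‖ := div_nonneg hY0 (norm_nonneg z)
    linarith
  rw [abs_of_nonneg hK0, hK, mul_add]
  have h1 : ‖z‖ * (cY (‖z‖ ^ 2) / ‖z‖) ≤ cY (‖z‖ ^ 2) := by
    by_cases h0 : ‖z‖ = 0
    · rw [h0, zero_mul]
      rw [h0] at hY0
      exact hY0
    · rw [mul_div_cancel₀ _ h0]
  have h2 : ‖z‖ * (1 - cY (‖z‖ ^ 2)) ≤ 1 * (1 - cY (‖z‖ ^ 2)) :=
    mul_le_mul_of_nonneg_right hz (by linarith)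
  linarith

private noncomputable def cF (t : ℝ) : ℝ := cX t / Real.sqrt t - cX t

private theorem cF_smooth : ContDiff ℝ ∞ cF :=
  (sm_aux cX_smooth fun _ ht => cX_zero (by linarith)).sub cX_smooth

private theorem cF_one : cF 1 = 0 := by
  unfold cF
  rw [cX_one (by norm_num)]
  simp

private theorem cF_eq {t : ℝ} (ht : 1 / 2 ≤ t) : 1 + cF t = 1 / Real.sqrt t := by
  unfold cF
  rw [cX_one ht]
  ring

/-- the correction factor -/
private noncomputable def cC (E : ℂ → ℂ) (z : ℂ) : ℝ :=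
  1 + cX (‖z‖ ^ 2) * cF (‖E (cP z)‖ ^ 2)

private theorem cC_eq_one {f : ℂ → ℂ} (h1 : ∀ z : ℂ, ‖z‖ = 1 → ‖f z‖ = 1) (z : ℂ) :
    cC f z = 1 := by
  unfold cC
  by_cases hz : ‖z‖ ^ 2 ≤ 1 / 4
  · rw [cX_zero hz, zero_mul, add_zero]
  · rw [h1 _ (norm_cP z (not_le.1 hz).le), one_pow, cF_one, mul_zero, add_zero]

private theorem norm_cC {E : ℂ → ℂ} (z : ℂ) (hz : ‖z‖ = 1) (hE : 1 / 2 ≤ ‖E z‖ ^ 2) :
    ‖E z * ((cC E z : ℝ) : ℂ)‖ = 1 := by
  unfold cC
  rw [cP_circle z hz, hz, one_pow, cX_one (by norm_num), one_mul, cF_eq hE,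
    Real.sqrt_sq (norm_nonneg _), norm_mul, Complex.norm_real, Real.norm_eq_abs]
  have h0 : 0 < ‖E z‖ := by
    by_contra h
    have h1 : ‖E z‖ = 0 := le_antisymm (not_lt.1 h) (norm_nonneg _)
    rw [h1] at hE
    norm_num at hE
  rw [abs_of_pos (by positivity), mul_one_div_cancel h0.ne']

private theorem cG_smooth : ContDiff ℝ ∞ fun w : ℂ => cF (‖w‖ ^ 2) :=
  cF_smooth.comp (contDiff_norm_sq ℝ)

private theorem cXn_smooth : ContDiff ℝ ∞ fun w : ℂ => cX (‖w‖ ^ 2) :=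
  cX_smooth.comp (contDiff_norm_sq ℝ)

private theorem cC_smooth {E : ℂ → ℂ} (hE : ContDiffOn ℝ ∞ E D) : ContDiffOn ℝ ∞ (cC E) D := by
  unfold cC
  refine contDiffOn_const.add (cXn_smooth.contDiffOn.mul ?_)
  exact cG_smooth.comp_contDiffOn (hE.comp cP_smooth.contDiffOn cP_maps)

private theorem cC_ctend {m : ℕ} {E : ℕ → ℂ → ℂ} {f : ℂ → ℂ} (hE : CTend m E f) :
    CTend m (fun n z => cC (E n) z) (fun z => cC f z) := by
  have hm : ((m : ℕ) : WithTop ℕ∞) ≤ ∞ := by exact_mod_cast le_top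
  have h1 : CTend m (fun n z => E n (cP z)) (fun z => f (cP z)) :=
    hE.comp_right (ctend_const (cP_smooth.contDiffOn.of_le hm)) (fun _ => cP_maps) cP_maps
  have h2 : CTend m (fun n z => cF (‖E n (cP z)‖ ^ 2)) (fun z => cF (‖f (cP z)‖ ^ 2)) :=
    h1.comp_left (Φ := fun w : ℂ => cF (‖w‖ ^ 2)) isOpen_univ (cG_smooth.contDiffOn.of_le hm)
      (fun _ _ _ => mem_univ _) (fun _ _ => mem_univ _)
  have h3 : CTend m (fun _ z => cX (‖z‖ ^ 2)) (fun z : ℂ => cX (‖z‖ ^ 2)) :=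
    ctend_const (cXn_smooth.contDiffOn.of_le hm)
  have h4 : CTend m (fun _ (_ : ℂ) => (1 : ℝ)) (fun _ : ℂ => (1 : ℝ)) :=
    ctend_const contDiffOn_const
  exact h4.add (h3.rmul h2)

theorem exists_smooth_approx {m : ℕ} {f : ℂ → ℂ} (hf : ContDiffOn ℝ m f D)
    (h1 : ∀ z : ℂ, ‖z‖ = 1 → ‖f z‖ = 1) :
    ∃ h : ℕ → ℂ → ℂ, (∀ n, ContDiffOn ℝ ∞ (h n) D) ∧ (∀ n, ∀ z : ℂ, ‖z‖ = 1 → ‖h n z‖ = 1) ∧
      CTend m h f := by
  classical
  have hE := mo_ctend hf
  have hunif := hE.unif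
  rw [Metric.tendstoUniformlyOn_iff] at hunif
  obtain ⟨N, hN⟩ := eventually_atTop.1 (hunif (1 / 4) (by norm_num))
  refine ⟨fun n z => Mo (n + N) f z * ((cC (Mo (n + N) f) z : ℝ) : ℂ), ?_, ?_, ?_⟩
  · intro n
    have h2 : ContDiffOn ℝ ∞ (Mo (n + N) f) D := mo_smooth (n + N) hf.continuousOn
    exact h2.mul (Complex.ofRealCLM.contDiff.comp_contDiffOn (cC_smooth h2))
  · intro n z hz
    refine norm_cC z hz ?_
    have hzD : z ∈ D := by
      rw [Metric.mem_closedBall, dist_zero_right, hz]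
    have h3 := hN (n + N) (Nat.le_add_left _ _) z hzD
    rw [dist_eq_norm] at h3
    have h4 : ‖f z‖ - ‖Mo (n + N) f z‖ ≤ ‖f z - Mo (n + N) f z‖ := norm_sub_norm_le _ _
    rw [h1 z hz] at h4
    have h5 : 3 / 4 ≤ ‖Mo (n + N) f z‖ := by linarith
    nlinarith
  · have h6 : CTend m (fun n => Mo (n + N) f) f := hE.comp_tendsto (tendsto_add_atTop_nat N)
    have h7 := h6.mul (cC_ctend h6).ofReal
    refine h7.congr (fun n z _ => rfl) ?_
    intro z _
    simp only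
    rw [cC_eq_one h1 z, Complex.ofReal_one, mul_one]

end Pool.H44.PF
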