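import Mathlib

/-!
MP_3addf4_an (helper25 / helper44): parts F and H of /team-store/h25_pr_paper.md, shared definitions.
`D` is the closed unit disc.  Derivatives are always derivatives within `D`
(`D` is convex with nonempty interior, so they are unique).
-/

set_option autoImplicit false

open Set Filter

open scoped ContDiff

namespace Pool.H44.PF

noncomputable section

/-- The closed unit disc. -/
abbrev D : Set ℂ := Metric.closedBall (0 : ℂ) 1

/-- `e(t) = exp(2 pi i t)`. -/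
def e (t : ℝ) : ℂ := Complex.exp (((2 * Real.pi * t : ℝ) : ℂ) * Complex.I)

variable {F : Type} [NormedAddCommGroup F] [NormedSpace ℝ F]

/-- `C^m` convergence on the closed disc: all derivatives of order at most `m` converge
uniformly on `D`. -/
def CTend (m : ℕ) (f : ℕ → ℂ → F) (g : ℂ → F) : Prop :=
  (∀ n, ContDiffOn ℝ m (f n) D) ∧ ContDiffOn ℝ m g D ∧
    ∀ j ≤ m, TendstoUniformlyOn (fun n => iteratedFDerivWithin ℝ j (f n) D)
      (iteratedFDerivWithin ℝ j g D) atTop D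

/-- `f` is `C^m` on `D` and all derivatives of order at most `m` are bounded by `M`. -/
def CBdd (m : ℕ) (M : ℝ) (f : ℂ → F) : Prop :=
  ContDiffOn ℝ m f D ∧ ∀ j ≤ m, ∀ z ∈ D, ‖iteratedFDerivWithin ℝ j f D z‖ ≤ M

/-- `f` and `g` are `ε`-close in `C^m` on `D`. -/
def CClose (m : ℕ) (ε : ℝ) (f g : ℂ → F) : Prop :=
  ∀ j ≤ m, ∀ z ∈ D,
    ‖iteratedFDerivWithin ℝ j f D z - iteratedFDerivWithin ℝ j g D z‖ < ε

/-- `f` and `g` are mutually inverse bijections of `D`. -/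
structure InvPair (f g : ℂ → ℂ) : Prop where
  mf : MapsTo f D D
  mg : MapsTo g D D
  gf : ∀ z ∈ D, g (f z) = z
  fg : ∀ z ∈ D, f (g z) = z

/-- Determinant of the derivative within `D`. -/
def dt (f : ℂ → ℂ) (z : ℂ) : ℝ := (fderivWithin ℝ f D z).det

/-- `f` is an area and orientation preserving `C^infinity` diffeomorphism of `D` with
inverse `g`. -/
structure APD (f g : ℂ → ℂ) : Prop where
  pair : InvPair f g
  sf : ContDiffOn ℝ ∞ f D
  sg : ContDiffOn ℝ ∞ g D
  det : ∀ z ∈ D, dt f z = 1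

/-! ### Circle averages (section H1) -/

/-- Circle average. -/
def rb (ρ : ℂ → ℝ) (z : ℂ) : ℝ := ∫ s in (0 : ℝ)..1, ρ (e s * z)

/-- `ρ / rb - 1`. -/
def rt (ρ : ℂ → ℝ) (z : ℂ) : ℝ := ρ z / rb ρ z - 1

/-- The angle correction. -/
def uu (ρ : ℂ → ℝ) (z : ℂ) : ℝ :=
  2 * Real.pi * ∫ s in (0 : ℝ)..1, (s - 1 / 2) * rt ρ (e s * z)

/-- The radial factor. -/
def MM (ρ : ℂ → ℝ) (z : ℂ) : ℝ := ∫ τ in (0 : ℝ)..1, 2 * τ * rb ρ ((τ : ℂ) * z)

/-- The diffeomorphism with determinant `ρ`. -/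
def KK (ρ : ℂ → ℝ) (z : ℂ) : ℂ :=
  z * (Real.sqrt (MM ρ z) : ℂ) * Complex.exp ((uu ρ z : ℂ) * Complex.I)

/-! ### Averages (sections H1 and H2) -/

variable {G : Type} [NormedAddCommGroup G] [NormedSpace ℝ G]

/-- `z ↦ ∫_K L_s (g (a_s z + b_s)) ds`. -/
def Av {T : Type} [MeasurableSpace T] (μ : MeasureTheory.Measure T) (K : Set T)
    (L : T → F →L[ℝ] G) (a b : T → ℂ) (g : ℂ → F) (z : ℂ) : G :=
  ∫ s in K, L s (g (a s * z + b s)) ∂μ

/-- Conditions on the data of an average. -/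
structure AvOK {T : Type} [TopologicalSpace T] (K : Set T) (L : T → F →L[ℝ] G)
    (a b : T → ℂ) : Prop where
  comp : IsCompact K
  cL : ContinuousOn L K
  ca : ContinuousOn a K
  cb : ContinuousOn b K
  maps : ∀ s ∈ K, ∀ z ∈ D, a s * z + b s ∈ D

end

end Pool.H44.PF
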