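import Pool.Agent.H44.PF.Basic

/-!
MODULE Fix (about 130 lines).  Near-identity maps preserving the circle are bijections of `D`.
PROOF.  `w = φ - id` is Lipschitz with constant `1/2` on the convex `D` (`Convex.lipschitzOnWith_of_nnnorm_fderivWithin_le`), so `‖φ z - φ z'‖ ≥ ‖z - z'‖/2`: injective.
`‖φ 0‖ ≤ 1/2`: if `c = φ 0 ≠ 0`, `z = c/‖c‖`: `‖φ z - c - z‖ ≤ 1/2`, so `1 = ‖φ z‖ ≥ ‖c + z‖ - 1/2 = ‖c‖ + 1/2`.
Proof used here: extend `w` to the plane by the radial retraction `ρ` (`1`-Lipschitz); `z + w (ρ z)` is a homeomorphism of the plane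
(`ApproximatesLinearOn.toHomeomorph`), maps the exterior of `D` into the exterior (`Re (conj u * φ u) ≥ 1/2` on the circle), so `D ⊆ φ(D)`; if `‖φ z‖ > 1` for
some `z ∈ D`, the preimage of the segment from `φ z` to `2 φ z` would meet the circle, which is mapped into the circle.
`bijOn_of_close`: apply this to `φ = h ∘ k`, `k` the inverse of `f`; `fderivWithin φ D w - id = (fderivWithin h D (k w) - fderivWithin f D (k w)) ∘ fderivWithin k D w`
(`fderivWithin f D (k w) ∘ fderivWithin k D w = id` by the chain rule), and `h = φ ∘ f` on `D`.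
-/

set_option autoImplicit false

open Set Filter MeasureTheory

open scoped ContDiff

namespace Pool.H44.PF

/-- radial retraction to the disc -/
private noncomputable def fixRet (z : ℂ) : ℂ := if ‖z‖ ≤ 1 then z else (‖z‖⁻¹ : ℝ) • z

private theorem fixRet_mem (z : ℂ) : ‖fixRet z‖ ≤ 1 := by
  unfold fixRet
  split_ifs with h
  · exact h
  · push Not at h
    rw [norm_smul, Real.norm_eq_abs, abs_of_pos (by positivity), inv_mul_cancel₀ (by positivity)]

private theorem fixRet_norm {z : ℂ} (h : 1 < ‖z‖) : ‖fixRet z‖ = 1 := by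
  unfold fixRet
  rw [if_neg (not_le.mpr h), norm_smul, Real.norm_eq_abs, abs_of_pos (by positivity),
    inv_mul_cancel₀ (by positivity)]

private theorem fixRet_self {z : ℂ} (h : ‖z‖ ≤ 1) : fixRet z = z := if_pos h

private theorem fixRet_sub {z : ℂ} (h : 1 < ‖z‖) : z - fixRet z = (‖z‖ - 1 : ℝ) • fixRet z := by
  unfold fixRet
  rw [if_neg (not_le.mpr h), smul_smul, sub_mul, mul_inv_cancel₀ (by positivity), one_mul,
    sub_smul, one_smul]

private theorem fixRet_inner (z v : ℂ) (hv : ‖v‖ ≤ 1) :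
    inner ℝ (z - fixRet z) (v - fixRet z) ≤ 0 := by
  rcases le_or_gt ‖z‖ 1 with h | h
  · rw [fixRet_self h, sub_self, inner_zero_left]
  · rw [fixRet_sub h, real_inner_smul_left, inner_sub_right]
    have h1 : inner ℝ (fixRet z) (fixRet z) = (1 : ℝ) := by
      rw [real_inner_self_eq_norm_sq, fixRet_norm h]; norm_num
    have h2 : inner ℝ (fixRet z) v ≤ (1 : ℝ) := by
      refine (real_inner_le_norm _ _).trans ?_
      rw [fixRet_norm h, one_mul]; exact hv
    rw [h1]
    exact mul_nonpos_of_nonneg_of_nonpos (by linarith) (by linarith)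

private theorem fixRet_lip (x y : ℂ) : ‖fixRet x - fixRet y‖ ≤ ‖x - y‖ := by
  have h1 := fixRet_inner x (fixRet y) (fixRet_mem y)
  have h2 := fixRet_inner y (fixRet x) (fixRet_mem x)
  set a := fixRet x with ha
  set b := fixRet y with hb
  have h3 : ‖a - b‖ ^ 2 ≤ inner ℝ (x - y) (a - b) := by
    have e1 : inner ℝ (x - a) (b - a) + inner ℝ (y - b) (a - b) =
        -(inner ℝ (x - y) (a - b) : ℝ) + ‖a - b‖ ^ 2 := by
      rw [← real_inner_self_eq_norm_sq]
      simp only [inner_sub_left, inner_sub_right]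
      rw [real_inner_comm b a]
      ring
    linarith
  have h4 := real_inner_le_norm (x - y) (a - b)
  rcases eq_or_lt_of_le (norm_nonneg (a - b)) with h5 | h5
  · rw [← h5]; exact norm_nonneg _
  · have : ‖a - b‖ * ‖a - b‖ ≤ ‖x - y‖ * ‖a - b‖ := by nlinarith
    exact le_of_mul_le_mul_right this h5

theorem bijOn_of_near_id {φ : ℂ → ℂ} (hφ : DifferentiableOn ℝ φ D)
    (hd : ∀ z ∈ D, ‖fderivWithin ℝ φ D z - ContinuousLinearMap.id ℝ ℂ‖ ≤ 1 / 2)
    (h1 : ∀ z : ℂ, ‖z‖ = 1 → ‖φ z‖ = 1) : BijOn φ D D := by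
  have hD : ∀ z : ℂ, z ∈ D ↔ ‖z‖ ≤ 1 := fun z => by
    rw [Metric.mem_closedBall, dist_zero_right]
  -- Lipschitz
  have hlip : ∀ x ∈ D, ∀ y ∈ D, ‖(φ y - y) - (φ x - x)‖ ≤ 1 / 2 * ‖y - x‖ := by
    intro x hx y hy
    have hdw : DifferentiableOn ℝ (φ - id) D := hφ.sub differentiableOn_id
    have := Convex.norm_image_sub_le_of_norm_fderivWithin_le (𝕜 := ℝ) hdw (C := 1 / 2) (fun z hz => by
      rw [fderivWithin_sub (D_unique z hz) (hφ z hz) (differentiableWithinAt_id),
        fderivWithin_id (D_unique z hz)]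
      exact hd z hz) D_convex hx hy
    exact this
  have h0D : (0 : ℂ) ∈ D := (hD 0).mpr (by simp)
  -- `‖φ 0‖ ≤ 1/2`
  have hc : ‖φ 0‖ ≤ 1 / 2 := by
    by_cases h0 : φ 0 = 0
    · rw [h0, norm_zero]; norm_num
    · set c := φ 0 with hcdef
      have hcn : 0 < ‖c‖ := norm_pos_iff.mpr h0
      set z : ℂ := (‖c‖⁻¹ : ℝ) • c with hz
      have hz1 : ‖z‖ = 1 := by
        rw [hz, norm_smul, Real.norm_eq_abs, abs_of_pos (by positivity), inv_mul_cancel₀ hcn.ne']
      have h2 := hlip 0 h0D z ((hD z).mpr hz1.le)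
      rw [sub_zero, sub_zero, hz1, mul_one] at h2
      have h3 : ‖z + c‖ = 1 + ‖c‖ := by
        have : z + c = (‖c‖⁻¹ + 1 : ℝ) • c := by rw [hz, add_smul, one_smul]
        rw [this, norm_smul, Real.norm_eq_abs, abs_of_pos (by positivity), add_mul,
          inv_mul_cancel₀ hcn.ne', one_mul]
      have h4 : ‖z + c‖ ≤ ‖φ z‖ + ‖φ z - z - φ 0‖ := by
        have : z + c = φ z - (φ z - z - φ 0) := by rw [hcdef]; ring
        rw [this]; exact norm_sub_le _ _
      rw [h3, h1 z hz1] at h4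
      linarith
  -- circle
  have hcirc : ∀ u : ℂ, ‖u‖ = 1 → ‖φ u - u‖ ≤ 1 := by
    intro u hu
    have h2 := hlip 0 h0D u ((hD u).mpr hu.le)
    rw [sub_zero, sub_zero, hu, mul_one] at h2
    calc ‖φ u - u‖ = ‖(φ u - u - φ 0) + φ 0‖ := by congr 1; ring
      _ ≤ ‖φ u - u - φ 0‖ + ‖φ 0‖ := norm_add_le _ _
      _ ≤ 1 := by linarith
  -- the extension
  set g : ℂ → ℂ := fun z => z + (φ (fixRet z) - fixRet z) with hg
  have happ : ApproximatesLinearOn g (ContinuousLinearEquiv.refl ℝ ℂ : ℂ →L[ℝ] ℂ) univ (1 / 2) := by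
    intro x _ y _
    have h2 := hlip _ ((hD _).mpr (fixRet_mem y)) _ ((hD _).mpr (fixRet_mem x))
    have h3 := fixRet_lip x y
    have h4 : g x - g y - (ContinuousLinearEquiv.refl ℝ ℂ : ℂ →L[ℝ] ℂ) (x - y) =
        (φ (fixRet x) - fixRet x) - (φ (fixRet y) - fixRet y) := by
      simp only [hg, ContinuousLinearEquiv.coe_refl, ContinuousLinearMap.coe_id', id]
      ring
    rw [h4]
    refine h2.trans ?_
    have : ((1 / 2 : NNReal) : ℝ) = 1 / 2 := by simp
    rw [this]
    linarith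
  have hcond : Subsingleton ℂ ∨ (1 / 2 : NNReal) <
      ‖((ContinuousLinearEquiv.refl ℝ ℂ).symm : ℂ →L[ℝ] ℂ)‖₊⁻¹ := by
    right
    have : ‖((ContinuousLinearEquiv.refl ℝ ℂ).symm : ℂ →L[ℝ] ℂ)‖₊ = 1 := by
      have h2 : ((ContinuousLinearEquiv.refl ℝ ℂ).symm : ℂ →L[ℝ] ℂ) = ContinuousLinearMap.id ℝ ℂ := rfl
      rw [h2]
      exact ContinuousLinearMap.nnnorm_id
    rw [this, inv_one]
    exact NNReal.half_lt_self one_ne_zero
  set H : ℂ ≃ₜ ℂ := happ.toHomeomorph g hcond with hH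
  have hHg : ∀ z, H z = g z := fun z => rfl
  have hgin : ∀ z : ℂ, ‖z‖ ≤ 1 → g z = φ z := by
    intro z hz
    simp only [hg, fixRet_self hz]; ring
  have hgout : ∀ z : ℂ, 1 < ‖z‖ → 1 < ‖g z‖ := by
    intro z hz
    have hu := fixRet_norm hz
    set u := fixRet z with hudef
    have h2 : g z = (‖z‖ - 1 : ℝ) • u + φ u := by
      have := fixRet_sub hz
      rw [← hudef] at this
      rw [← this]
      simp only [hg, ← hudef]; ring
    have h3 := hcirc u hu
    have h4 := h1 u hu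
    have h5 : (1 : ℝ) / 2 ≤ inner ℝ u (φ u) := by
      have h6 : ‖φ u - u‖ ^ 2 = 2 - 2 * inner ℝ (φ u) u := by
        rw [norm_sub_sq_real, h4, hu]; ring
      have h7 : ‖φ u - u‖ ^ 2 ≤ 1 := by nlinarith [norm_nonneg (φ u - u)]
      rw [real_inner_comm] at h6
      linarith
    have h8 : ‖g z‖ ^ 2 = (‖z‖ - 1) ^ 2 + 2 * ((‖z‖ - 1) * inner ℝ u (φ u)) + 1 := by
      rw [h2, norm_add_sq_real, norm_smul, hu, h4, real_inner_smul_left, Real.norm_eq_abs,
        mul_one, sq_abs]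
      ring
    have h9 : 1 < ‖g z‖ ^ 2 := by
      rw [h8]
      nlinarith [mul_pos (sub_pos.mpr hz) (by linarith : (0 : ℝ) < inner ℝ u (φ u))]
    nlinarith [norm_nonneg (g z)]
  refine ⟨?_, ?_, ?_⟩
  · -- maps to
    intro z hz
    rw [hD] at hz ⊢
    by_contra hcon
    push Not at hcon
    set w0 := φ z with hw0
    set f : ℝ → ℝ := fun t => ‖H.symm ((t : ℝ) • w0)‖ with hf
    have hfc : Continuous f := by
      refine continuous_norm.comp (H.symm.continuous.comp ?_)
      exact continuous_id.smul continuous_const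
    have hf1 : f 1 ≤ 1 := by
      simp only [hf, one_smul]
      have : H.symm w0 = z := by
        rw [Homeomorph.symm_apply_eq, hHg, hgin z hz]
      rw [this]; exact hz
    have hf2 : 1 ≤ f 2 := by
      by_contra hcon2
      push Not at hcon2
      set v := H.symm ((2 : ℝ) • w0) with hv
      have hv1 : ‖v‖ ≤ 1 := hcon2.le
      have hv2 : φ v = (2 : ℝ) • w0 := by
        rw [← hgin v hv1, ← hHg, hv, Homeomorph.apply_symm_apply]
      have h2 := hlip 0 h0D v ((hD v).mpr hv1)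
      rw [sub_zero, sub_zero] at h2
      have h3 : ‖φ v‖ ≤ 2 := by
        calc ‖φ v‖ = ‖(φ v - v - φ 0) + v + φ 0‖ := by congr 1; ring
          _ ≤ ‖(φ v - v - φ 0) + v‖ + ‖φ 0‖ := norm_add_le _ _
          _ ≤ ‖φ v - v - φ 0‖ + ‖v‖ + ‖φ 0‖ := by gcongr; exact norm_add_le _ _
          _ ≤ 2 := by linarith
      rw [hv2, norm_smul, Real.norm_eq_abs, abs_of_pos (by norm_num)] at h3
      linarith
    obtain ⟨t, ht, htf⟩ := intermediate_value_Icc (by norm_num : (1 : ℝ) ≤ 2) hfc.continuousOn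
      ⟨hf1, hf2⟩
    have h3 : φ (H.symm ((t : ℝ) • w0)) = (t : ℝ) • w0 := by
      rw [← hgin _ (le_of_eq htf), ← hHg, Homeomorph.apply_symm_apply]
    have h4 := h1 _ htf
    rw [h3, norm_smul, Real.norm_eq_abs, abs_of_pos (by linarith [ht.1])] at h4
    nlinarith [ht.1]
  · intro x hx y hy hxy
    have h2 := hlip x hx y hy
    rw [hxy] at h2
    have h3 : ‖(φ y - y) - (φ y - x)‖ = ‖y - x‖ := by
      rw [← norm_neg (y - x)]; congr 1; ring
    rw [h3] at h2
    have h4 : ‖y - x‖ = 0 := by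
      have := norm_nonneg (y - x)
      linarith
    exact (sub_eq_zero.mp (norm_eq_zero.mp h4)).symm
  · intro c hc'
    rw [hD] at hc'
    refine ⟨H.symm c, ?_, ?_⟩
    · rw [hD]
      by_contra hcon
      push Not at hcon
      have := hgout _ hcon
      rw [← hHg, Homeomorph.apply_symm_apply] at this
      linarith
    · have hle : ‖H.symm c‖ ≤ 1 := by
        by_contra hcon
        push Not at hcon
        have := hgout _ hcon
        rw [← hHg, Homeomorph.apply_symm_apply] at this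
        linarith
      rw [← hgin _ hle, ← hHg, Homeomorph.apply_symm_apply]

theorem bijOn_of_close {f k h : ℂ → ℂ} (hp : InvPair f k) (hf : DifferentiableOn ℝ f D)
    (hk : DifferentiableOn ℝ k D) (hh : DifferentiableOn ℝ h D) (C : ℝ)
    (hC : ∀ z ∈ D, ‖fderivWithin ℝ k D z‖ ≤ C)
    (hd : ∀ z ∈ D, C * ‖fderivWithin ℝ h D z - fderivWithin ℝ f D z‖ ≤ 1 / 2)
    (h1 : ∀ z : ℂ, ‖z‖ = 1 → ‖k z‖ = 1) (h2 : ∀ z : ℂ, ‖z‖ = 1 → ‖h z‖ = 1) :
    BijOn h D D := by
  have hdiff : DifferentiableOn ℝ (h ∘ k) D := hh.comp hk hp.mg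
  have key : BijOn (h ∘ k) D D := by
    refine bijOn_of_near_id hdiff (fun z hz => ?_) (fun z hz => h2 _ (h1 z hz))
    have e1 : fderivWithin ℝ (h ∘ k) D z =
        (fderivWithin ℝ h D (k z)).comp (fderivWithin ℝ k D z) :=
      fderivWithin_comp z (hh _ (hp.mg hz)) (hk z hz) hp.mg (D_unique z hz)
    have e2 : (fderivWithin ℝ f D (k z)).comp (fderivWithin ℝ k D z) =
        ContinuousLinearMap.id ℝ ℂ := by
      rw [← fderivWithin_comp z (hf _ (hp.mg hz)) (hk z hz) hp.mg (D_unique z hz)]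
      have : fderivWithin ℝ (f ∘ k) D z = fderivWithin ℝ id D z :=
        fderivWithin_congr (fun x hx => hp.fg x hx) (hp.fg z hz)
      rw [this, fderivWithin_id (D_unique z hz)]
    rw [e1, ← e2, ← ContinuousLinearMap.sub_comp]
    refine (ContinuousLinearMap.opNorm_comp_le _ _).trans ?_
    have h3 := hC z hz
    have h4 := hd (k z) (hp.mg hz)
    have h5 := norm_nonneg (fderivWithin ℝ h D (k z) - fderivWithin ℝ f D (k z))
    calc ‖fderivWithin ℝ h D (k z) - fderivWithin ℝ f D (k z)‖ * ‖fderivWithin ℝ k D z‖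
        ≤ ‖fderivWithin ℝ h D (k z) - fderivWithin ℝ f D (k z)‖ * C :=
          mul_le_mul_of_nonneg_left h3 h5
      _ ≤ 1 / 2 := by rw [mul_comm]; exact h4
  have hbf : BijOn f D D :=
    ⟨hp.mf, fun x hx y hy hxy => by rw [← hp.gf x hx, ← hp.gf y hy, hxy],
      fun c hc => ⟨k c, hp.mg hc, hp.fg c hc⟩⟩
  refine (key.comp hbf).congr fun z hz => ?_
  show h (k (f z)) = h z
  rw [hp.gf z hz]

end Pool.H44.PF
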