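import Pool.Agent.H44.PF.AvC
import Pool.Agent.H44.PF.Alg

/-!
MODULE Mol (about 150 lines).  Mollification on the disc (paper H2).
DEFINITION. `φ_n = (bump n).normed volume`, `bump n : ContDiffBump (0 : ℂ)` with `rOut = 1/(n+1)`, `rIn = 1/(2(n+1))`;
`Mo n g z = ∫_{w in closedBall 0 (1/(n+1))} φ_n w • g ((z - w)/(1 + 1/(n+1)))`, an `Av` with `L s = φ_n s • id`, `a = 1/(1+1/(n+1))`, `b = - w a`.
PROOFS.  `mo_fderiv`: `fderivWithin (Mo n g) D = (1 + 1/(n+1))^{-1} • Mo n (fderivWithin g D)` on `D` for `g` of class `C^1` (`av_hasFDeriv` and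
`LL L a s T = φ_n s • a • T`).
`mo_smooth`: for `z ∈ D`, `Mo n g z` is the convolution of `φ_n` with `w ↦ indicator D g (w / (1 + 1/(n+1)))` (bounded, measurable, compact support, so locally
integrable): `HasCompactSupport.contDiff_convolution_left`; change of variables `w → z - w`.  (Values in a finite dimensional space.)
`mo_unif`: `‖Mo n g z - g z‖ ≤ sup_w ‖g ((z-w)/(1+1/(n+1))) - g z‖`, `∫ φ_n = 1`, `g` uniformly continuous on `D`.
`mo_ctend` by induction on `m` for all `F`: level 0 is `mo_unif`; step: `ctend_succ_iff`, `mo_fderiv`, induction hypothesis for `fderivWithin g D`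
and `CTend.smul` with the constants `(1 + 1/(n+1))^{-1} → 1` (`ctend_of_tendsto`).
-/

set_option autoImplicit false

open Set Filter MeasureTheory

open scoped ContDiff

namespace Pool.H44.PF

variable {F : Type} [NormedAddCommGroup F] [NormedSpace ℝ F] [FiniteDimensional ℝ F]

/-- The bump function of radius `1/(n+1)`. -/
noncomputable def bump (n : ℕ) : ContDiffBump (0 : ℂ) where
  rIn := 1 / (2 * ((n : ℝ) + 1))
  rOut := 1 / ((n : ℝ) + 1)
  rIn_pos := by positivity
  rIn_lt_rOut := by
    apply one_div_lt_one_div_of_lt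
    · positivity
    · have : (0 : ℝ) ≤ n := Nat.cast_nonneg n
      linarith

/-- Scaling factor. -/
noncomputable def sc (n : ℕ) : ℝ := (1 + 1 / ((n : ℝ) + 1))⁻¹

/-- Mollification. -/
noncomputable def Mo (n : ℕ) (g : ℂ → F) : ℂ → F :=
  Av volume (Metric.closedBall (0 : ℂ) (1 / ((n : ℝ) + 1)))
    (fun w => ((bump n).normed volume w) • ContinuousLinearMap.id ℝ F)
    (fun _ => ((sc n : ℝ) : ℂ)) (fun w => - (w * (sc n : ℝ))) g

private theorem Mol_sc_pos (n : ℕ) : 0 < sc n := by
  unfold sc
  positivity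

private theorem Mol_sc_mul (n : ℕ) : sc n * (1 + 1 / ((n : ℝ) + 1)) = 1 := by
  unfold sc
  exact inv_mul_cancel₀ (by positivity)

private theorem Mol_eq (n : ℕ) (w z : ℂ) :
    ((sc n : ℝ) : ℂ) * z + -(w * ((sc n : ℝ) : ℂ)) = ((sc n : ℝ) : ℂ) * (z - w) := by
  ring

private theorem Mol_maps (n : ℕ) {w z : ℂ}
    (hw : w ∈ Metric.closedBall (0 : ℂ) (1 / ((n : ℝ) + 1))) (hz : z ∈ D) :
    ((sc n : ℝ) : ℂ) * z + -(w * ((sc n : ℝ) : ℂ)) ∈ D := by
  rw [mem_closedBall_zero_iff] at hw hz ⊢
  rw [Mol_eq, norm_mul, Complex.norm_real, Real.norm_of_nonneg (Mol_sc_pos n).le,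
    ← Mol_sc_mul n]
  apply mul_le_mul_of_nonneg_left _ (Mol_sc_pos n).le
  exact (norm_sub_le z w).trans (add_le_add hz hw)

theorem mo_ok (n : ℕ) : AvOK (Metric.closedBall (0 : ℂ) (1 / ((n : ℝ) + 1)))
    (fun w => ((bump n).normed volume w) • ContinuousLinearMap.id ℝ F)
    (fun _ => ((sc n : ℝ) : ℂ)) (fun w => - (w * (sc n : ℝ))) where
  comp := isCompact_closedBall _ _
  cL := (((bump n).continuous_normed).smul continuous_const).continuousOn
  ca := continuousOn_const
  cb := ((continuous_id.mul continuous_const).neg).continuousOn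
  maps := fun _ hs _ hz => Mol_maps n hs hz

private theorem Mol_supp (n : ℕ) (w : ℂ)
    (hw : w ∉ Metric.closedBall (0 : ℂ) (1 / ((n : ℝ) + 1))) :
    (bump n).normed volume w = 0 := by
  by_contra h
  have h1 : w ∈ Function.support ((bump n).normed volume) := h
  rw [ContDiffBump.support_normed_eq] at h1
  exact hw (Metric.ball_subset_closedBall h1)

private theorem Mol_int (n : ℕ) :
    ∫ w in Metric.closedBall (0 : ℂ) (1 / ((n : ℝ) + 1)), (bump n).normed volume w = 1 := by
  rw [setIntegral_eq_integral_of_forall_compl_eq_zero (fun w hw => Mol_supp n w hw)]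
  exact (bump n).integral_normed

theorem mo_smooth (n : ℕ) {g : ℂ → F} (hg : ContinuousOn g D) :
    ContDiffOn ℝ ∞ (Mo n g) D := by
  have : CompleteSpace F := FiniteDimensional.complete ℝ F
  obtain ⟨G, hGdef⟩ : ∃ G : ℂ → F, G = (Metric.closedBall (0 : ℂ)
    (1 + 1 / ((n : ℝ) + 1))).indicator (fun y => g (y * ((sc n : ℝ) : ℂ))) := ⟨_, rfl⟩
  have hG : Integrable G volume := by
    rw [hGdef, integrable_indicator_iff Metric.isClosed_closedBall.measurableSet]
    apply ContinuousOn.integrableOn_compact (isCompact_closedBall _ _)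
    refine hg.comp (continuous_id.mul continuous_const).continuousOn ?_
    intro y hy
    rw [mem_closedBall_zero_iff] at hy ⊢
    show ‖y * ((sc n : ℝ) : ℂ)‖ ≤ 1
    rw [norm_mul, Complex.norm_real, Real.norm_of_nonneg (Mol_sc_pos n).le, mul_comm,
      ← Mol_sc_mul n]
    exact mul_le_mul_of_nonneg_left hy (Mol_sc_pos n).le
  have h1 : ContDiff ℝ ∞ (convolution ((bump n).normed volume) G
      (ContinuousLinearMap.lsmul ℝ ℝ) volume) :=
    HasCompactSupport.contDiff_convolution_left _ (bump n).hasCompactSupport_normed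
      (bump n).contDiff_normed hG.locallyIntegrable
  refine h1.contDiffOn.congr ?_
  intro z hz
  have e1 : convolution ((bump n).normed volume) G (ContinuousLinearMap.lsmul ℝ ℝ) volume z =
      ∫ w in Metric.closedBall (0 : ℂ) (1 / ((n : ℝ) + 1)),
        (bump n).normed volume w • G (z - w) := by
    have e3 : convolution ((bump n).normed volume) G (ContinuousLinearMap.lsmul ℝ ℝ) volume z =
      ∫ w, (bump n).normed volume w • G (z - w) := rfl
    rw [e3]
    refine (setIntegral_eq_integral_of_forall_compl_eq_zero fun w hw => ?_).symm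
    rw [Mol_supp n w hw, zero_smul]
  have e2 : Mo n g z = ∫ w in Metric.closedBall (0 : ℂ) (1 / ((n : ℝ) + 1)),
      (bump n).normed volume w • g (((sc n : ℝ) : ℂ) * z + -(w * ((sc n : ℝ) : ℂ))) := rfl
  rw [e1, e2]
  apply setIntegral_congr_fun Metric.isClosed_closedBall.measurableSet
  intro w hw
  show (bump n).normed volume w • g (((sc n : ℝ) : ℂ) * z + -(w * ((sc n : ℝ) : ℂ))) =
    (bump n).normed volume w • G (z - w)
  congr 1
  rw [hGdef, indicator_of_mem, Mol_eq, mul_comm]
  rw [mem_closedBall_zero_iff] at hw hz ⊢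
  exact (norm_sub_le z w).trans (add_le_add hz hw)

private theorem Mol_tend : Tendsto (fun n : ℕ => 1 / ((n : ℝ) + 1)) atTop (nhds 0) :=
  tendsto_one_div_add_atTop_nhds_zero_nat

private theorem Mol_sc_tend : Tendsto sc atTop (nhds 1) := by
  have h1 : Tendsto (fun n : ℕ => (1 + 1 / ((n : ℝ) + 1))⁻¹) atTop (nhds (1 + 0)⁻¹) :=
    (tendsto_const_nhds.add Mol_tend).inv₀ (by norm_num)
  rw [add_zero, inv_one] at h1
  exact h1

private theorem Mol_dist (n : ℕ) {w z : ℂ}
    (hw : w ∈ Metric.closedBall (0 : ℂ) (1 / ((n : ℝ) + 1))) (hz : z ∈ D) :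
    ‖((sc n : ℝ) : ℂ) * z + -(w * ((sc n : ℝ) : ℂ)) - z‖ ≤ 2 * (1 / ((n : ℝ) + 1)) := by
  rw [mem_closedBall_zero_iff] at hw hz
  have h1 := Mol_sc_mul n
  have h2 := Mol_sc_pos n
  have h3 : (0 : ℝ) < 1 / ((n : ℝ) + 1) := by positivity
  have h4 : sc n ≤ 1 := by nlinarith
  have h5 : ((sc n : ℝ) : ℂ) * z + -(w * ((sc n : ℝ) : ℂ)) - z =
      -((((1 - sc n : ℝ)) : ℂ) * z + ((sc n : ℝ) : ℂ) * w) := by
    push_cast
    ring
  rw [h5, norm_neg]
  refine (norm_add_le _ _).trans ?_
  rw [norm_mul, norm_mul, Complex.norm_real, Complex.norm_real, Real.norm_of_nonneg h2.le,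
    Real.norm_of_nonneg (by linarith : 0 ≤ 1 - sc n)]
  have h6 : (1 - sc n) * ‖z‖ ≤ 1 - sc n := mul_le_of_le_one_right (by linarith) hz
  have h7 : sc n * ‖w‖ ≤ 1 * (1 / ((n : ℝ) + 1)) :=
    mul_le_mul h4 hw (norm_nonneg _) zero_le_one
  have h8 : 1 - sc n ≤ 1 / ((n : ℝ) + 1) := by nlinarith
  linarith

private theorem Mol_unif {g : ℂ → F} (hg : ContinuousOn g D) :
    TendstoUniformlyOn (fun n => Mo n g) g atTop D := by
  have : CompleteSpace F := FiniteDimensional.complete ℝ F
  rw [Metric.tendstoUniformlyOn_iff]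
  intro ε hε
  have huc : UniformContinuousOn g D := D_compact.uniformContinuousOn_of_continuous hg
  rw [Metric.uniformContinuousOn_iff] at huc
  obtain ⟨δ, hδ, hδ'⟩ := huc (ε / 2) (by linarith)
  have h1 : ∀ᶠ n : ℕ in atTop, 2 * (1 / ((n : ℝ) + 1)) < δ := by
    have h2 : Tendsto (fun n : ℕ => 2 * (1 / ((n : ℝ) + 1))) atTop (nhds (2 * 0)) :=
      Mol_tend.const_mul 2
    rw [mul_zero] at h2
    exact h2.eventually (gt_mem_nhds hδ)
  filter_upwards [h1] with n hn z hz
  have h3 : Mo n g z - g z = ∫ w in Metric.closedBall (0 : ℂ) (1 / ((n : ℝ) + 1)),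
      (bump n).normed volume w •
        (g (((sc n : ℝ) : ℂ) * z + -(w * ((sc n : ℝ) : ℂ))) - g z) := by
    have h4 : ∫ w in Metric.closedBall (0 : ℂ) (1 / ((n : ℝ) + 1)),
        (bump n).normed volume w • g z = g z := by
      rw [integral_smul_const, Mol_int, one_smul]
    have h5 : Mo n g z = ∫ w in Metric.closedBall (0 : ℂ) (1 / ((n : ℝ) + 1)),
        (bump n).normed volume w • g (((sc n : ℝ) : ℂ) * z + -(w * ((sc n : ℝ) : ℂ))) := rfl
    have i1 : IntegrableOn (fun w : ℂ => (bump n).normed volume w •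
        g (((sc n : ℝ) : ℂ) * z + -(w * ((sc n : ℝ) : ℂ))))
        (Metric.closedBall (0 : ℂ) (1 / ((n : ℝ) + 1))) volume := by
      apply ContinuousOn.integrableOn_compact (isCompact_closedBall _ _)
      apply ContinuousOn.smul (bump n).continuous_normed.continuousOn
      refine hg.comp ?_ (fun w hw => Mol_maps n hw hz)
      exact (continuous_const.add (continuous_id.mul continuous_const).neg).continuousOn
    have i2 : IntegrableOn (fun w : ℂ => (bump n).normed volume w • g z)
        (Metric.closedBall (0 : ℂ) (1 / ((n : ℝ) + 1))) volume := by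
      apply ContinuousOn.integrableOn_compact (isCompact_closedBall _ _)
      exact ContinuousOn.smul (bump n).continuous_normed.continuousOn continuousOn_const
    calc Mo n g z - g z = (∫ w in Metric.closedBall (0 : ℂ) (1 / ((n : ℝ) + 1)),
          (bump n).normed volume w • g (((sc n : ℝ) : ℂ) * z + -(w * ((sc n : ℝ) : ℂ)))) -
          ∫ w in Metric.closedBall (0 : ℂ) (1 / ((n : ℝ) + 1)),
            (bump n).normed volume w • g z := by rw [h4, h5]
      _ = _ := by
        rw [← integral_sub i1 i2]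
        apply setIntegral_congr_fun Metric.isClosed_closedBall.measurableSet
        intro w _
        exact (smul_sub _ _ _).symm
  rw [dist_comm, dist_eq_norm, h3]
  have h6 : ‖∫ w in Metric.closedBall (0 : ℂ) (1 / ((n : ℝ) + 1)),
      (bump n).normed volume w •
        (g (((sc n : ℝ) : ℂ) * z + -(w * ((sc n : ℝ) : ℂ))) - g z)‖ ≤
      ∫ w in Metric.closedBall (0 : ℂ) (1 / ((n : ℝ) + 1)),
        (bump n).normed volume w * (ε / 2) := by
    apply norm_integral_le_of_norm_le
    · apply ContinuousOn.integrableOn_compact (isCompact_closedBall _ _)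
      exact ((bump n).continuous_normed.mul continuous_const).continuousOn
    · filter_upwards [ae_restrict_mem Metric.isClosed_closedBall.measurableSet] with w hw
      rw [norm_smul, Real.norm_of_nonneg ((bump n).nonneg_normed w)]
      apply mul_le_mul_of_nonneg_left _ ((bump n).nonneg_normed w)
      have h7 := hδ' _ (Mol_maps n hw hz) z hz (by
        rw [dist_eq_norm]
        exact (Mol_dist n hw hz).trans_lt hn)
      rw [dist_eq_norm] at h7
      exact h7.le
  refine h6.trans_lt ?_
  rw [integral_mul_const, Mol_int]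
  linarith

private theorem Mol_fderiv (n : ℕ) {g : ℂ → F} (hg : ContDiffOn ℝ 1 g D) (z : ℂ)
    (hz : z ∈ D) :
    HasFDerivWithinAt (Mo n g) (sc n • Mo n (fderivWithin ℝ g D) z) D z := by
  have : CompleteSpace F := FiniteDimensional.complete ℝ F
  have h1 := av_hasFDeriv volume (mo_ok (F := F) n) hg z hz
  have h2 : Av volume (Metric.closedBall (0 : ℂ) (1 / ((n : ℝ) + 1)))
      (LL (fun w => ((bump n).normed volume w) • ContinuousLinearMap.id ℝ F)
        (fun _ => ((sc n : ℝ) : ℂ))) (fun _ => ((sc n : ℝ) : ℂ))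
        (fun w => - (w * (sc n : ℝ))) (fderivWithin ℝ g D) z =
      sc n • Mo n (fderivWithin ℝ g D) z := by
    unfold Mo Av
    rw [← integral_smul]
    apply setIntegral_congr_fun Metric.isClosed_closedBall.measurableSet
    intro w _
    apply ContinuousLinearMap.ext
    intro v
    show (bump n).normed volume w • (fderivWithin ℝ g D
        (((sc n : ℝ) : ℂ) * z + -(w * ((sc n : ℝ) : ℂ)))) (((sc n : ℝ) : ℂ) * v) =
      sc n • (bump n).normed volume w • (fderivWithin ℝ g D
        (((sc n : ℝ) : ℂ) * z + -(w * ((sc n : ℝ) : ℂ)))) v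
    have h3 : ((sc n : ℝ) : ℂ) * v = sc n • v := by
      rw [Complex.real_smul]
    rw [h3, map_smul, smul_comm]
  rw [h2] at h1
  exact h1

private theorem Mol_aux (m : ℕ) : ∀ (F : Type) [NormedAddCommGroup F] [NormedSpace ℝ F]
    [FiniteDimensional ℝ F] (g : ℂ → F), ContDiffOn ℝ m g D → CTend m (fun n => Mo n g) g := by
  induction m with
  | zero =>
    intro F _ _ _ g hg
    have : CompleteSpace F := FiniteDimensional.complete ℝ F
    rw [ctend_zero_iff]
    have hc : ContinuousOn g D := hg.continuousOn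
    exact ⟨fun n => av_cont volume (mo_ok n) hc, hc, Mol_unif hc⟩
  | succ m ih =>
    intro F _ _ _ g hg
    have : CompleteSpace F := FiniteDimensional.complete ℝ F
    have hg1 : ContDiffOn ℝ 1 g D := hg.of_le (by
      push_cast
      exact le_add_self)
    have hc : ContinuousOn g D := hg.continuousOn
    rw [ctend_succ_iff]
    refine ⟨fun n z hz => (Mol_fderiv n hg1 z hz).differentiableWithinAt,
      hg1.differentiableOn (by norm_num), Mol_unif hc, ?_⟩
    have hd : ContDiffOn ℝ m (fderivWithin ℝ g D) D := by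
      apply hg.fderivWithin D_unique
      push_cast
      exact le_rfl
    have h1 := ih (ℂ →L[ℝ] F) (fderivWithin ℝ g D) hd
    have h2 := CTend.smul (ctend_of_tendsto (m := m) Mol_sc_tend) h1
    refine h2.congr ?_ ?_
    · intro n z hz
      exact ((Mol_fderiv n hg1 z hz).fderivWithin (D_unique z hz)).symm
    · intro z _
      show (1 : ℝ) • fderivWithin ℝ g D z = fderivWithin ℝ g D z
      rw [one_smul]

theorem mo_ctend {m : ℕ} {g : ℂ → F} (hg : ContDiffOn ℝ m g D) :
    CTend m (fun n => Mo n g) g :=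
  Mol_aux m F g hg

end Pool.H44.PF
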