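import Pool.Agent.H44.PF.AscP
import Pool.Agent.H25.PR.Defs

/-!
MODULE Out (about 110 lines).  The statements of part F used by helper25 (interface Pool/Agent/H25/PR/Iface.lean), from `CTend`.
`Dsk` is `D` (both are `Metric.closedBall 0 1`).  `cto_iff`: `iteratedFDerivWithin` of a difference of `C^s` functions is the difference
(`iteratedFDerivWithin_sub_apply` / `iteratedFDerivWithin_sub`, `D_unique`), so `CNear` is `CClose`; `CTend.close`, `ctend_of_close`.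
The rest: `CTend.comp_right`, `exists_subseq_ctend`, `exists_cbdd`, `invPair_lim`, `ctend_succ_iff` with `m = 0`.
-/

set_option autoImplicit false

open Set Filter Metric Topology

open scoped ContDiff

namespace Pool.H44.PF

open Pool.Agent.H25.PR (Dsk CTo CBd CNear DPair)

theorem e_eq (t : ℝ) : Pool.Agent.H25.PR.e t = e t := by
  unfold Pool.Agent.H25.PR.e e
  push_cast
  ring_nf

private theorem Out_near {s : ℕ} {ε : ℝ} {f g : ℂ → ℂ} (hf : ContDiffOn ℝ s f D)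
    (hg : ContDiffOn ℝ s g D) : CNear s ε f g ↔ CClose s ε f g := by
  have key : ∀ i : ℕ, i ≤ s → ∀ z ∈ D, iteratedFDerivWithin ℝ i (fun w => f w - g w) D z =
      iteratedFDerivWithin ℝ i f D z - iteratedFDerivWithin ℝ i g D z := by
    intro i hi z hz
    have hi' : (i : WithTop ℕ∞) ≤ s := by exact_mod_cast hi
    exact iteratedFDerivWithin_sub_apply ((hf z hz).of_le hi') ((hg z hz).of_le hi')
      D_unique hz
  constructor
  · intro h i hi z hz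
    rw [← key i hi z hz]
    exact h i hi z hz
  · intro h i hi z hz
    rw [key i hi z hz]
    exact h i hi z hz

theorem cto_iff (s : ℕ) (fn : ℕ → ℂ → ℂ) (f : ℂ → ℂ)
    (hfn : ∀ n, ContDiffOn ℝ s (fn n) Dsk) (hf : ContDiffOn ℝ s f Dsk) :
    CTo s fn f ↔ CTend s fn f := by
  constructor
  · intro h
    refine ctend_of_close hfn hf (fun ε hε => ?_)
    filter_upwards [h ε hε] with n hn
    exact (Out_near (hfn n) hf).1 hn
  · intro h ε hε
    filter_upwards [h.close ε hε] with n hn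
    exact (Out_near (hfn n) hf).2 hn

theorem F_comp (s : ℕ) (fn gn : ℕ → ℂ → ℂ) (f g : ℂ → ℂ)
    (hfn : ∀ n, ContDiffOn ℝ s (fn n) Dsk) (hf : ContDiffOn ℝ s f Dsk)
    (hgn : ∀ n, ContDiffOn ℝ s (gn n) Dsk) (hg : ContDiffOn ℝ s g Dsk)
    (hm : ∀ n, MapsTo (gn n) Dsk Dsk) (hm' : MapsTo g Dsk Dsk)
    (h1 : CTo s fn f) (h2 : CTo s gn g) :
    CTo s (fun n z => fn n (gn n z)) (fun z => f (g z)) := by
  have h3 := ((cto_iff s fn f hfn hf).1 h1).comp_right ((cto_iff s gn g hgn hg).1 h2) hm hm'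
  exact (cto_iff s _ _ h3.1 h3.2.1).2 h3

theorem F_cpt (s : ℕ) (M : ℝ) (fn : ℕ → ℂ → ℂ)
    (hfn : ∀ n, ContDiffOn ℝ (s + 1 : ℕ) (fn n) Dsk) (hb : ∀ n, CBd (s + 1) M (fn n)) :
    ∃ (φ : ℕ → ℕ) (g : ℂ → ℂ), StrictMono φ ∧ ContDiffOn ℝ s g Dsk ∧
      CTo s (fun n => fn (φ n)) g := by
  obtain ⟨φ, hφ, g, hg⟩ := exists_subseq_ctend s M fn (fun n => ⟨hfn n, hb n⟩)
  exact ⟨φ, g, hφ, hg.2.1, (cto_iff s _ _ hg.1 hg.2.1).2 hg⟩

theorem F_bd (s : ℕ) (f : ℂ → ℂ) (hf : ContDiffOn ℝ s f Dsk) : ∃ M : ℕ, CBd s M f := by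
  obtain ⟨M, hM⟩ := exists_cbdd hf
  obtain ⟨N, hN⟩ := exists_nat_ge M
  exact ⟨N, (hM.mono le_rfl hN).2⟩

theorem F_lim (s : ℕ) (fn fn' : ℕ → ℂ → ℂ) (f f' : ℂ → ℂ)
    (hp : ∀ n, DPair s (fn n) (fn' n)) (hf : ContDiffOn ℝ s f Dsk)
    (hf' : ContDiffOn ℝ s f' Dsk) (h1 : CTo s fn f) (h2 : CTo s fn' f') :
    DPair s f f' := by
  have h3 := (cto_iff s fn f (fun n => (hp n).smooth) hf).1 h1
  have h4 := (cto_iff s fn' f' (fun n => (hp n).smooth') hf').1 h2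
  have h5 : InvPair f f' := invPair_lim (fun n => ⟨(hp n).maps, (hp n).maps', (hp n).left,
    (hp n).right⟩) (h3.mono (Nat.zero_le _)) (h4.mono (Nat.zero_le _))
  exact ⟨h5.mf, h5.mg, h5.gf, h5.fg, hf, hf'⟩

theorem F_der (fn : ℕ → ℂ → ℂ) (f : ℂ → ℂ)
    (hfn : ∀ n, ContDiffOn ℝ 1 (fn n) Dsk) (hf : ContDiffOn ℝ 1 f Dsk) (h1 : CTo 1 fn f) :
    TendstoUniformlyOn fn f atTop Dsk ∧
    TendstoUniformlyOn (fun n => fderivWithin ℝ (fn n) Dsk) (fderivWithin ℝ f Dsk) atTop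
      Dsk := by
  have h2 : CTend 1 fn f := (cto_iff 1 fn f (by exact_mod_cast hfn) (by exact_mod_cast hf)).1 h1
  refine ⟨h2.unif, ?_⟩
  exact ((ctend_succ_iff 0 fn f).1 h2).2.2.2.unif

end Pool.H44.PF
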