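import Pool.Agent.H44.PF.Rad

/-!
MODULE Pol (about 100 lines).  Polar coordinates: `∫_D ρ = π MM ρ 1` for `ρ` continuous on `D`.
PROOF.  `Complex.integral_comp_polarCoord_symm` (area in polar coordinates) applied to `indicator D ρ`:
`∫_D ρ = ∫_{r in (0,1]} ∫_{θ in (-π, π)} r ρ(r exp(i θ)) dθ dr = ∫_0^1 2 π r rb ρ r dr = π ∫_0^1 2 r rb ρ (r) dr = π MM ρ 1` (substitution `θ = 2 π s`
and periodicity).  For `‖z‖ = 1` use `MM_norm`.
-/

set_option autoImplicit false

open Set Filter MeasureTheory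

open scoped ContDiff

namespace Pool.H44.PF

private theorem Pol_symm (p : ℝ × ℝ) :
    Complex.polarCoord.symm p = Complex.exp ((p.2 : ℂ) * Complex.I) * (p.1 : ℂ) := by
  rw [Complex.polarCoord_symm_apply, Complex.exp_mul_I, ← Complex.ofReal_cos,
    ← Complex.ofReal_sin, mul_comm]

private theorem Pol_mem {r : ℝ} (h0 : 0 ≤ r) (h1 : r ≤ 1) (θ : ℝ) :
    Complex.exp ((θ : ℂ) * Complex.I) * (r : ℂ) ∈ D := by
  rw [mem_closedBall_zero_iff, norm_mul, Complex.norm_exp_ofReal_mul_I, one_mul,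
    Complex.norm_real, Real.norm_of_nonneg h0]
  exact h1

private theorem Pol_inner (ρ : ℂ → ℝ) (r : ℝ) :
    ∫ θ in Ioo (-Real.pi) Real.pi, r * ρ (Complex.exp ((θ : ℂ) * Complex.I) * (r : ℂ))
      = Real.pi * (2 * r * rb ρ ((r : ℂ) * 1)) := by
  have hπ := Real.pi_pos
  have h1 : ∫ θ in (-Real.pi)..Real.pi, ρ (Complex.exp ((θ : ℂ) * Complex.I) * (r : ℂ))
      = 2 * Real.pi * rb ρ ((r : ℂ) * 1) := by
    have h2 := intervalIntegral.smul_integral_comp_mul_left (a := -(1 / 2 : ℝ)) (b := 1 / 2)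
      (fun θ : ℝ => ρ (Complex.exp ((θ : ℂ) * Complex.I) * (r : ℂ))) (2 * Real.pi)
    have e1 : 2 * Real.pi * -(1 / 2) = -Real.pi := by ring
    have e2 : 2 * Real.pi * (1 / 2) = Real.pi := by ring
    rw [e1, e2] at h2
    rw [← h2, smul_eq_mul]
    congr 1
    have hper : Function.Periodic (fun s : ℝ => ρ (e s * (r : ℂ))) 1 := by
      intro s
      change ρ (e (s + 1) * (r : ℂ)) = ρ (e s * (r : ℂ))
      rw [e_add, e_one, mul_one]
    have h3 := hper.intervalIntegral_add_eq (-(1 / 2)) 0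
    have e3 : (-(1 / 2) : ℝ) + 1 = 1 / 2 := by norm_num
    rw [e3, zero_add] at h3
    unfold rb
    rw [mul_one]
    exact h3
  rw [← integral_Ioc_eq_integral_Ioo, ← intervalIntegral.integral_of_le (by linarith),
    intervalIntegral.integral_const_mul, h1]
  ring

theorem integral_D {ρ : ℂ → ℝ} (hc : ContinuousOn ρ D) :
    ∫ z in D, ρ z = Real.pi * MM ρ 1 := by
  have hmeas : MeasurableSet {p : ℝ × ℝ | p.1 ≤ 1} := measurableSet_le measurable_fst
    measurable_const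
  have hset : polarCoord.target ∩ {p : ℝ × ℝ | p.1 ≤ 1}
      = Ioc 0 1 ×ˢ Ioo (-Real.pi) Real.pi := by
    rw [polarCoord_target]
    ext p
    simp only [mem_inter_iff, mem_prod, mem_Ioi, mem_Ioo, mem_ofPred_eq, mem_Ioc]
    tauto
  have h1 : ∫ p in polarCoord.target, p.1 • D.indicator ρ (Complex.polarCoord.symm p)
      = ∫ p in Ioc (0 : ℝ) 1 ×ˢ Ioo (-Real.pi) Real.pi,
        p.1 * ρ (Complex.exp ((p.2 : ℂ) * Complex.I) * (p.1 : ℂ)) := by
    rw [← hset, ← setIntegral_indicator hmeas]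
    refine setIntegral_congr_fun polarCoord.open_target.measurableSet fun p hp => ?_
    have hp0 : 0 < p.1 := hp.1
    change p.1 • D.indicator ρ (Complex.polarCoord.symm p) = _
    rw [Pol_symm]
    have hn : ‖Complex.exp ((p.2 : ℂ) * Complex.I) * (p.1 : ℂ)‖ = p.1 := by
      rw [norm_mul, Complex.norm_exp_ofReal_mul_I, one_mul, Complex.norm_real,
        Real.norm_of_nonneg hp0.le]
    by_cases h : p.1 ≤ 1
    · rw [indicator_of_mem (Pol_mem hp0.le h p.2), indicator_of_mem (show p ∈ {p : ℝ × ℝ | p.1 ≤ 1}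
        from h), smul_eq_mul]
    · rw [indicator_of_notMem, indicator_of_notMem (show p ∉ {p : ℝ × ℝ | p.1 ≤ 1} from h),
        smul_zero]
      rw [mem_closedBall_zero_iff, hn]
      exact h
  have hcont : ContinuousOn (fun p : ℝ × ℝ =>
      p.1 * ρ (Complex.exp ((p.2 : ℂ) * Complex.I) * (p.1 : ℂ)))
      (Icc 0 1 ×ˢ Icc (-Real.pi) Real.pi) := by
    refine ContinuousOn.mul continuous_fst.continuousOn ?_
    refine hc.comp (Continuous.continuousOn (by fun_prop)) ?_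
    rintro ⟨r, θ⟩ ⟨hr, -⟩
    exact Pol_mem hr.1 hr.2 θ
  have hint : IntegrableOn (fun p : ℝ × ℝ =>
      p.1 * ρ (Complex.exp ((p.2 : ℂ) * Complex.I) * (p.1 : ℂ)))
      (Ioc 0 1 ×ˢ Ioo (-Real.pi) Real.pi) (volume.prod volume) := by
    rw [← Measure.volume_eq_prod]
    exact (hcont.integrableOn_compact (isCompact_Icc.prod isCompact_Icc)).mono_set
      (prod_mono Ioc_subset_Icc_self Ioo_subset_Icc_self)
  rw [← integral_indicator Metric.isClosed_closedBall.measurableSet,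
    ← Complex.integral_comp_polarCoord_symm (D.indicator ρ), h1, Measure.volume_eq_prod,
    setIntegral_prod _ hint]
  have h2 : ∀ r : ℝ, ∫ θ in Ioo (-Real.pi) Real.pi,
      r * ρ (Complex.exp ((θ : ℂ) * Complex.I) * (r : ℂ))
      = Real.pi * (2 * r * rb ρ ((r : ℂ) * 1)) := Pol_inner ρ
  simp only [h2]
  rw [← intervalIntegral.integral_of_le zero_le_one, intervalIntegral.integral_const_mul]
  rfl

theorem MM_boundary {ρ : ℂ → ℝ} (hc : ContinuousOn ρ D) (hi : ∫ z in D, ρ z = Real.pi)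
    (z : ℂ) (hz : ‖z‖ = 1) : MM ρ z = 1 := by
  have h1 : (1 : ℂ) ∈ D := by
    rw [mem_closedBall_zero_iff, norm_one]
  have h2 : MM ρ z = MM ρ 1 := MM_norm hc h1 (by rw [hz, norm_one])
  rw [h2]
  have h3 := integral_D hc
  rw [hi] at h3
  have hπ := Real.pi_ne_zero
  exact mul_left_cancel₀ hπ (by rw [← h3, mul_one])

end Pool.H44.PF
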