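import Pool.Agent.H44.PF.Circ

/-!
MODULE Rad (about 170 lines).  Radial identities (paper H1).
PROOFS.  `ρ` continuous and positive on `D`, `z ∈ D`.
`rb_rot`: `rb ρ (e t z) = ∫_0^1 ρ(e (s+t) z) ds = ∫_t^{t+1} = ∫_0^1` (`Function.Periodic.intervalIntegral_add_eq`).  Any `w` with `‖w‖ = ‖z‖` is `e t z`:
`rb_norm`, `MM_norm`.
`int_rt`: `∫_0^1 rt ρ (e s z) ds = 0` since `rb` is constant on the circle.
`uu_deriv`: `uu ρ (e θ z) = 2 π ∫_0^1 (s - 1/2) rt (e (s+θ) z) ds = 2 π ∫_θ^{θ+1} (y - θ - 1/2) rt (e y z) dy = 2 π ∫_θ^{θ+1} y rt(e y z) dy` by `int_rt` and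
periodicity; derivative `2 π ((θ+1) - θ) rt (e θ z)` (fundamental theorem of calculus).
`MM_radial`: substitution `σ = τ t`: `t^2 MM ρ (t z) = ∫_0^t 2 σ rb ρ (σ z) dσ` for `0 ≤ t ≤ 1` (for `t > 0`: `intervalIntegral.integral_comp_mul_left`; both sides are `0` for `t = 0`).
`MM_deriv`: derivative of that at `0 < t < 1` is `2 t rb ρ (t z)`.
-/

set_option autoImplicit false

open Set Filter MeasureTheory

open scoped ContDiff

namespace Pool.H44.PF

theorem exists_rot {z w : ℂ} (h : ‖w‖ = ‖z‖) : ∃ t : ℝ, w = e t * z := by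
  by_cases hz : z = 0
  · subst hz
    rw [norm_zero, norm_eq_zero] at h
    exact ⟨0, by rw [h, mul_zero]⟩
  · have hz' : ‖z‖ ≠ 0 := norm_ne_zero_iff.2 hz
    have h1 : ‖w / z‖ = 1 := by rw [norm_div, h, div_self hz']
    refine ⟨Complex.arg (w / z) / (2 * Real.pi), ?_⟩
    have h2 := Complex.norm_mul_exp_arg_mul_I (w / z)
    rw [h1, Complex.ofReal_one, one_mul] at h2
    have h3 : e (Complex.arg (w / z) / (2 * Real.pi)) = w / z := by
      unfold e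
      rw [mul_div_cancel₀ _ (by positivity : (2 * Real.pi) ≠ 0)]
      exact h2
    rw [h3, div_mul_cancel₀ _ hz]

private theorem Rad_mem {z : ℂ} (hz : z ∈ D) (s : ℝ) : e s * z ∈ D := by
  rw [mem_closedBall_zero_iff] at hz ⊢
  rw [norm_mul, norm_e, one_mul]
  exact hz

private theorem Rad_mem' {z : ℂ} (hz : z ∈ D) {t : ℝ} (h0 : 0 ≤ t) (h1 : t ≤ 1) :
    (t : ℂ) * z ∈ D := by
  rw [mem_closedBall_zero_iff] at hz ⊢
  rw [norm_mul, Complex.norm_real, Real.norm_of_nonneg h0]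
  nlinarith [norm_nonneg z]

private theorem Rad_periodic (ρ : ℂ → ℝ) (z : ℂ) :
    Function.Periodic (fun s : ℝ => ρ (e s * z)) 1 := by
  intro s
  show ρ (e (s + 1) * z) = ρ (e s * z)
  rw [e_add, e_one, mul_one]

private theorem Rad_cont {ρ : ℂ → ℝ} (hc : ContinuousOn ρ D) {z : ℂ} (hz : z ∈ D) :
    Continuous (fun s : ℝ => ρ (e s * z)) := by
  have h1 : Continuous (fun s : ℝ => e s * z) := (contDiff_e.continuous).mul continuous_const
  exact hc.comp_continuous h1 (fun s => Rad_mem hz s)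

theorem rb_rot {ρ : ℂ → ℝ} (hc : ContinuousOn ρ D) (t : ℝ) (z : ℂ) (hz : z ∈ D) :
    rb ρ (e t * z) = rb ρ z := by
  have _ := hc
  have _ := hz
  unfold rb
  have h1 : ∀ s : ℝ, ρ (e s * (e t * z)) = (fun y : ℝ => ρ (e y * z)) (s + t) := by
    intro s
    show ρ (e s * (e t * z)) = ρ (e (s + t) * z)
    rw [e_add, mul_assoc]
  rw [intervalIntegral.integral_congr (fun s _ => h1 s),
    intervalIntegral.integral_comp_add_right (fun y : ℝ => ρ (e y * z)) t, zero_add, add_comm 1 t,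
    (Rad_periodic ρ z).intervalIntegral_add_eq t 0, zero_add]

theorem rb_norm {ρ : ℂ → ℝ} (hc : ContinuousOn ρ D) {z w : ℂ} (hz : z ∈ D)
    (h : ‖w‖ = ‖z‖) : rb ρ w = rb ρ z := by
  obtain ⟨t, rfl⟩ := exists_rot h
  exact rb_rot hc t z hz

theorem MM_norm {ρ : ℂ → ℝ} (hc : ContinuousOn ρ D) {z w : ℂ} (hz : z ∈ D)
    (h : ‖w‖ = ‖z‖) : MM ρ w = MM ρ z := by
  unfold MM
  apply intervalIntegral.integral_congr
  intro τ hτ
  rw [uIcc_of_le (zero_le_one), mem_Icc] at hτ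
  show 2 * τ * rb ρ ((τ : ℂ) * w) = 2 * τ * rb ρ ((τ : ℂ) * z)
  rw [rb_norm hc (Rad_mem' hz hτ.1 hτ.2) (by rw [norm_mul, norm_mul, h])]

private theorem Rad_rt {ρ : ℂ → ℝ} (hc : ContinuousOn ρ D) {z : ℂ} (hz : z ∈ D) (s : ℝ) :
    rt ρ (e s * z) = ρ (e s * z) / rb ρ z - 1 := by
  unfold rt
  rw [rb_rot hc s z hz]

theorem int_rt {ρ : ℂ → ℝ} (hc : ContinuousOn ρ D) (hp : ∀ z ∈ D, 0 < ρ z) (z : ℂ)
    (hz : z ∈ D) : ∫ s in (0 : ℝ)..1, rt ρ (e s * z) = 0 := by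
  have h0 := rb_pos hc hp z hz
  rw [intervalIntegral.integral_congr (fun s _ => Rad_rt hc hz s),
    intervalIntegral.integral_sub, intervalIntegral.integral_div]
  · have h1 : ∫ s in (0 : ℝ)..1, ρ (e s * z) = rb ρ z := rfl
    rw [h1, div_self h0.ne', intervalIntegral.integral_const]
    simp
  · exact ((Rad_cont hc hz).div_const _).intervalIntegrable _ _
  · exact intervalIntegrable_const

private theorem Rad_ψcont {ρ : ℂ → ℝ} (hc : ContinuousOn ρ D) {z : ℂ} (hz : z ∈ D) :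
    Continuous (fun s : ℝ => rt ρ (e s * z)) := by
  have h1 : (fun s : ℝ => rt ρ (e s * z)) = fun s : ℝ => ρ (e s * z) / rb ρ z - 1 :=
    funext fun s => Rad_rt hc hz s
  rw [h1]
  exact ((Rad_cont hc hz).div_const _).sub continuous_const

private theorem Rad_uu {ρ : ℂ → ℝ} (hc : ContinuousOn ρ D) (hp : ∀ z ∈ D, 0 < ρ z) (z : ℂ)
    (hz : z ∈ D) (θ : ℝ) :
    uu ρ (e θ * z) = 2 * Real.pi * ((∫ y in (0 : ℝ)..(θ + 1), y * rt ρ (e y * z)) -
      ∫ y in (0 : ℝ)..θ, y * rt ρ (e y * z)) := by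
  have hψ := Rad_ψcont hc hz
  have hψ' : Continuous (fun y : ℝ => y * rt ρ (e y * z)) := continuous_id.mul hψ
  unfold uu
  congr 1
  have h1 : ∀ s : ℝ, (s - 1 / 2) * rt ρ (e s * (e θ * z)) =
      (fun y : ℝ => (y - θ - 1 / 2) * rt ρ (e y * z)) (s + θ) := by
    intro s
    show (s - 1 / 2) * rt ρ (e s * (e θ * z)) = (s + θ - θ - 1 / 2) * rt ρ (e (s + θ) * z)
    rw [e_add, mul_assoc, add_sub_cancel_right]
  rw [intervalIntegral.integral_congr (fun s _ => h1 s),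
    intervalIntegral.integral_comp_add_right (fun y : ℝ => (y - θ - 1 / 2) * rt ρ (e y * z)) θ,
    zero_add, add_comm 1 θ]
  have h2 : ∀ y : ℝ, (y - θ - 1 / 2) * rt ρ (e y * z) =
      y * rt ρ (e y * z) - (θ + 1 / 2) * rt ρ (e y * z) := by
    intro y
    ring
  have hψ2 : Continuous (fun y : ℝ => (θ + 1 / 2) * rt ρ (e y * z)) := continuous_const.mul hψ
  rw [intervalIntegral.integral_congr (fun y _ => h2 y), intervalIntegral.integral_sub
    (hψ'.intervalIntegrable _ _) (hψ2.intervalIntegrable _ _),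
    intervalIntegral.integral_const_mul, (Rad_periodic (rt ρ) z).intervalIntegral_add_eq θ 0,
    zero_add, int_rt hc hp z hz, mul_zero, sub_zero]
  exact (intervalIntegral.integral_interval_sub_left (hψ'.intervalIntegrable _ _)
    (hψ'.intervalIntegrable _ _)).symm

theorem uu_deriv {ρ : ℂ → ℝ} (hc : ContinuousOn ρ D) (hp : ∀ z ∈ D, 0 < ρ z) (z : ℂ)
    (hz : z ∈ D) (θ : ℝ) :
    HasDerivAt (fun θ : ℝ => uu ρ (e θ * z)) (2 * Real.pi * rt ρ (e θ * z)) θ := by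
  have hψ := Rad_ψcont hc hz
  have hψ' : Continuous (fun y : ℝ => y * rt ρ (e y * z)) := continuous_id.mul hψ
  have h1 : (fun θ : ℝ => uu ρ (e θ * z)) = fun θ : ℝ => 2 * Real.pi *
      ((∫ y in (0 : ℝ)..(θ + 1), y * rt ρ (e y * z)) - ∫ y in (0 : ℝ)..θ, y * rt ρ (e y * z)) :=
    funext fun θ => Rad_uu hc hp z hz θ
  rw [h1]
  have h2 : HasDerivAt (fun u : ℝ => ∫ y in (0 : ℝ)..u, y * rt ρ (e y * z))
      (θ * rt ρ (e θ * z)) θ := (hψ'.integral_hasStrictDerivAt 0 θ).hasDerivAt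
  have h3 : HasDerivAt (fun u : ℝ => ∫ y in (0 : ℝ)..(u + 1), y * rt ρ (e y * z))
      ((θ + 1) * rt ρ (e (θ + 1) * z)) θ := by
    have h4 : HasDerivAt (fun u : ℝ => ∫ y in (0 : ℝ)..u, y * rt ρ (e y * z))
        ((θ + 1) * rt ρ (e (θ + 1) * z)) (θ + 1) :=
      (hψ'.integral_hasStrictDerivAt 0 (θ + 1)).hasDerivAt
    exact h4.comp_add_const θ 1
  have h5 : rt ρ (e (θ + 1) * z) = rt ρ (e θ * z) := Rad_periodic (rt ρ) z θ
  have h6 := (h3.sub h2).const_mul (2 * Real.pi)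
  rw [h5] at h6
  have h7 : 2 * Real.pi * rt ρ (e θ * z) =
      2 * Real.pi * ((θ + 1) * rt ρ (e θ * z) - θ * rt ρ (e θ * z)) := by ring
  rw [h7]
  exact h6

theorem MM_radial {ρ : ℂ → ℝ} (hc : ContinuousOn ρ D) (z : ℂ) (hz : z ∈ D) (t : ℝ)
    (h0 : 0 ≤ t) (h1 : t ≤ 1) :
    t ^ 2 * MM ρ ((t : ℂ) * z) = ∫ σ in (0 : ℝ)..t, 2 * σ * rb ρ ((σ : ℂ) * z) := by
  have _ := hc
  have _ := hz
  have _ := h0
  have _ := h1
  have h2 := intervalIntegral.smul_integral_comp_mul_left (a := 0) (b := 1)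
    (fun σ : ℝ => 2 * σ * rb ρ ((σ : ℂ) * z)) t
  rw [mul_zero, mul_one, smul_eq_mul] at h2
  rw [← h2]
  unfold MM
  rw [pow_two, mul_assoc, ← intervalIntegral.integral_const_mul]
  congr 1
  apply intervalIntegral.integral_congr
  intro τ _
  show t * (2 * τ * rb ρ ((τ : ℂ) * ((t : ℂ) * z))) =
    2 * (t * τ) * rb ρ (((t * τ : ℝ) : ℂ) * z)
  have h3 : ((t * τ : ℝ) : ℂ) * z = (τ : ℂ) * ((t : ℂ) * z) := by
    push_cast
    ring
  rw [h3]
  ring

private theorem Rad_rb_cont {ρ : ℂ → ℝ} (hc : ContinuousOn ρ D) : ContinuousOn (rb ρ) D := by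
  have h1 : ContDiffOn ℝ ((0 : ℕ) : WithTop ℕ∞) ρ D := by
    rw [Nat.cast_zero]
    exact contDiffOn_zero.2 hc
  exact (ctend_rb (ctend_const h1)).2.1.continuousOn

theorem MM_deriv {ρ : ℂ → ℝ} (hc : ContinuousOn ρ D) (z : ℂ) (hz : z ∈ D) (t : ℝ)
    (h0 : 0 < t) (h1 : t < 1) :
    HasDerivAt (fun t : ℝ => t ^ 2 * MM ρ ((t : ℂ) * z)) (2 * t * rb ρ ((t : ℂ) * z)) t := by
  have hco : ContinuousOn (fun σ : ℝ => 2 * σ * rb ρ ((σ : ℂ) * z)) (Icc 0 1) := by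
    apply ContinuousOn.mul
    · exact (continuous_const.mul continuous_id).continuousOn
    · refine (Rad_rb_cont hc).comp ?_ (fun σ hσ => Rad_mem' hz hσ.1 hσ.2)
      exact (Complex.continuous_ofReal.mul continuous_const).continuousOn
  have hint : IntervalIntegrable (fun σ : ℝ => 2 * σ * rb ρ ((σ : ℂ) * z)) volume 0 t := by
    apply ContinuousOn.intervalIntegrable
    rw [uIcc_of_le h0.le]
    exact hco.mono (Icc_subset_Icc le_rfl h1.le)
  have hnhds : Icc (0 : ℝ) 1 ∈ nhds t := Icc_mem_nhds h0 h1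
  have hca : ContinuousAt (fun σ : ℝ => 2 * σ * rb ρ ((σ : ℂ) * z)) t := hco.continuousAt hnhds
  have hmeas : StronglyMeasurableAtFilter (fun σ : ℝ => 2 * σ * rb ρ ((σ : ℂ) * z)) (nhds t)
      volume :=
    ContinuousOn.stronglyMeasurableAtFilter isOpen_Ioo (hco.mono Ioo_subset_Icc_self) t
      ⟨h0, h1⟩
  have h2 : HasDerivAt (fun u : ℝ => ∫ σ in (0 : ℝ)..u, 2 * σ * rb ρ ((σ : ℂ) * z))
      (2 * t * rb ρ ((t : ℂ) * z)) t :=
    intervalIntegral.integral_hasDerivAt_right hint hmeas hca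
  refine h2.congr_of_eventuallyEq ?_
  filter_upwards [hnhds] with u hu
  exact MM_radial hc z hz u hu.1 hu.2

/-- If `ρ` is invariant under the rotation by `a` then `KK ρ` commutes with it. -/
theorem KK_rot {ρ : ℂ → ℝ} (hc : ContinuousOn ρ D) (a : ℂ) (ha : ‖a‖ = 1)
    (h : ∀ z ∈ D, ρ (a * z) = ρ z) (z : ℂ) (hz : z ∈ D) : KK ρ (a * z) = a * KK ρ z := by
  have h1 : MM ρ (a * z) = MM ρ z := MM_norm hc hz (by rw [norm_mul, ha, one_mul])
  have h2 : uu ρ (a * z) = uu ρ z := by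
    unfold uu
    congr 1
    apply intervalIntegral.integral_congr
    intro s _
    show (s - 1 / 2) * rt ρ (e s * (a * z)) = (s - 1 / 2) * rt ρ (e s * z)
    have h3 : e s * (a * z) = a * (e s * z) := by ring
    rw [h3]
    unfold rt
    rw [h _ (Rad_mem hz s), rb_norm hc (Rad_mem hz s) (by rw [norm_mul, ha, one_mul])]
  unfold KK
  rw [h1, h2]
  ring

theorem norm_KK {ρ : ℂ → ℝ} (hc : ContinuousOn ρ D) (hp : ∀ z ∈ D, 0 < ρ z) (z : ℂ)
    (hz : z ∈ D) : ‖KK ρ z‖ ^ 2 = ‖z‖ ^ 2 * MM ρ z := by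
  have h0 := MM_pos hc hp z hz
  unfold KK
  rw [norm_mul, norm_mul, Complex.norm_exp_ofReal_mul_I, mul_one, Complex.norm_real,
    Real.norm_of_nonneg (Real.sqrt_nonneg _), mul_pow, Real.sq_sqrt h0.le]

end Pool.H44.PF
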