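import Pool.Agent.H44.PF.Cut
import Pool.Agent.H44.PF.Fix
import Pool.Agent.H44.PF.Bdry
import Pool.Agent.H44.PF.InvT
import Pool.Agent.H44.PF.KBij

/-!
MODULE Smd (about 90 lines).  Approximation of a `C^m` diffeomorphism by `C^infinity` diffeomorphisms (paper H2).
PROOF.  `exists_smooth_approx` for `f` (`InvPair.norm_eq` for the pairs `(f, g)` and `(g, f)`, `InvPair.dt_right`); `g` is `C^m` (`InvPair.contDiffOn_right`), `‖fderivWithin g D‖ ≤ C`; for `n ≥ N` the derivatives of `h_n` are close to those of `f`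
(`CTend.close` or `ctend_succ_iff`): `bijOn_of_close`; `dt (h n) → dt f` uniformly, `dt f ≥ c > 0` on the compact `D`: `dt (h n) > 0` for `n ≥ N`.  Shift the sequence.
Inverse pairs: `invPair_of_bijOn`; `C^infinity` inverses: `InvPair.contDiffOn_right` for every `m` and `contDiffOn_infty`; `CTend.inverse`.
-/

set_option autoImplicit false

open Set Filter MeasureTheory

open scoped ContDiff

namespace Pool.H44.PF

private theorem Smd_swap {f g : ℂ → ℂ} (h : InvPair f g) : InvPair g f :=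
  ⟨h.mg, h.mf, h.fg, h.gf⟩

/-- maps whose derivative is close to that of `f` have a positive determinant -/
private theorem Smd_pos {f : ℂ → ℂ} (hf : ContDiffOn ℝ 1 f D) (hd : ∀ z ∈ D, 0 < dt f z) :
    ∃ δ : ℝ, 0 < δ ∧ ∀ h : ℂ → ℂ,
      (∀ z ∈ D, ‖fderivWithin ℝ h D z - fderivWithin ℝ f D z‖ < δ) → ∀ z ∈ D, 0 < dt h z := by
  have hcont : ContinuousOn (fderivWithin ℝ f D) D :=
    hf.continuousOn_fderivWithin D_unique (by norm_num)
  have hK : IsCompact (fderivWithin ℝ f D '' D) := D_compact.image_of_continuousOn hcont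
  have hU : IsOpen {A : ℂ →L[ℝ] ℂ | 0 < A.det} :=
    isOpen_lt continuous_const ContinuousLinearMap.continuous_det
  have hKU : fderivWithin ℝ f D '' D ⊆ {A : ℂ →L[ℝ] ℂ | 0 < A.det} := by
    rintro A ⟨z, hz, rfl⟩
    exact hd z hz
  obtain ⟨δ, hδ, hsub⟩ := hK.exists_thickening_subset_open hU hKU
  refine ⟨δ, hδ, fun h hh z hz => ?_⟩
  refine hsub ?_
  rw [Metric.mem_thickening_iff]
  refine ⟨fderivWithin ℝ f D z, mem_image_of_mem _ hz, ?_⟩
  rw [dist_eq_norm]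
  exact hh z hz

theorem exists_smooth_diffeo {m : ℕ} (hm : 1 ≤ m) {f g : ℂ → ℂ} (hp : InvPair f g)
    (hf : ContDiffOn ℝ m f D) (hd : ∀ z ∈ D, 0 < dt f z) :
    ∃ h k : ℕ → ℂ → ℂ, (∀ n, InvPair (h n) (k n)) ∧ (∀ n, ContDiffOn ℝ ∞ (h n) D) ∧
      (∀ n, ContDiffOn ℝ ∞ (k n) D) ∧ (∀ n, ∀ z ∈ D, 0 < dt (h n) z) ∧
      CTend m h f ∧ CTend m k g := by
  have hm1 : (1 : WithTop ℕ∞) ≤ (m : WithTop ℕ∞) := by exact_mod_cast hm
  have hf1 : ContDiffOn ℝ 1 f D := hf.of_le hm1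
  have hdn : ∀ z ∈ D, dt f z ≠ 0 := fun z hz => (hd z hz).ne'
  have hg : ContDiffOn ℝ m g D := hp.contDiffOn_right hm hf hdn
  have hg1 : ContDiffOn ℝ 1 g D := hg.of_le hm1
  have hdg : ∀ z ∈ D, dt g z ≠ 0 := by
    intro z hz
    rw [hp.dt_right hf1 hdn z hz]
    exact inv_ne_zero (hdn _ (hp.mg hz))
  have hfn : ∀ z : ℂ, ‖z‖ = 1 → ‖f z‖ = 1 := fun z hz => hp.norm_eq hf1 hdn z hz
  have hgn : ∀ z : ℂ, ‖z‖ = 1 → ‖g z‖ = 1 := fun z hz => (Smd_swap hp).norm_eq hg1 hdg z hz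
  obtain ⟨h0, h0s, h0n, h0t⟩ := exists_smooth_approx hf hfn
  obtain ⟨M, hM⟩ := exists_cbdd hg
  obtain ⟨m', rfl⟩ : ∃ m', m = m' + 1 := ⟨m - 1, by omega⟩
  have hMg : ∀ z ∈ D, ‖fderivWithin ℝ g D z‖ ≤ max M 1 := fun z hz =>
    (cbdd_one hM z hz).trans (le_max_left _ _)
  have hCpos : 0 < max M 1 := lt_of_lt_of_le one_pos (le_max_right _ _)
  obtain ⟨δ, hδ, hpos⟩ := Smd_pos hf1 hd
  have hunif := ((ctend_succ_iff m' h0 f).1 h0t).2.2.2.unif
  rw [Metric.tendstoUniformlyOn_iff] at hunif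
  have hε : 0 < min δ (1 / (2 * max M 1)) := lt_min hδ (by positivity)
  obtain ⟨N, hN⟩ := eventually_atTop.1 (hunif _ hε)
  have hclose : ∀ n, N ≤ n → ∀ z ∈ D,
      ‖fderivWithin ℝ (h0 n) D z - fderivWithin ℝ f D z‖ < min δ (1 / (2 * max M 1)) := by
    intro n hn z hz
    have h := hN n hn z hz
    rwa [dist_comm, dist_eq_norm] at h
  have hbij : ∀ n, BijOn (h0 (n + N)) D D := by
    intro n
    refine bijOn_of_close hp (hf1.differentiableOn (by norm_num))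
      (hg1.differentiableOn (by norm_num)) ((h0s (n + N)).differentiableOn (by norm_num))
      (max M 1) hMg (fun z hz => ?_) hgn (h0n (n + N))
    have h := (hclose (n + N) (by omega) z hz).le.trans (min_le_right _ _)
    calc max M 1 * ‖fderivWithin ℝ (h0 (n + N)) D z - fderivWithin ℝ f D z‖
        ≤ max M 1 * (1 / (2 * max M 1)) := mul_le_mul_of_nonneg_left h hCpos.le
      _ = 1 / 2 := by field_simp
  choose k hk using fun n => invPair_of_bijOn (hbij n)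
  have hdh : ∀ n, ∀ z ∈ D, 0 < dt (h0 (n + N)) z := fun n =>
    hpos _ fun z hz => lt_of_lt_of_le (hclose (n + N) (by omega) z hz) (min_le_left _ _)
  have hdh' : ∀ n, ∀ z ∈ D, dt (h0 (n + N)) z ≠ 0 := fun n z hz => (hdh n z hz).ne'
  have ht : CTend (m' + 1) (fun n => h0 (n + N)) f :=
    h0t.comp_tendsto (tendsto_add_atTop_nat N)
  refine ⟨fun n => h0 (n + N), k, hk, fun n => h0s _, fun n => ?_, hdh, ht, ?_⟩
  · rw [contDiffOn_infty]
    intro j
    have h1 : ContDiffOn ℝ ((max j 1 : ℕ) : WithTop ℕ∞) (h0 (n + N)) D :=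
      contDiffOn_infty.1 (h0s _) _
    have h2 := (hk n).contDiffOn_right (le_max_right j 1) h1 (hdh' n)
    refine h2.of_le ?_
    exact_mod_cast le_max_left j 1
  · exact ht.inverse hm hk hp hdh' hdn

end Pool.H44.PF
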